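import Mathlib

set_option autoImplicit false

namespace Pool.Agent.H61

open Set Topology Filter

/-- The Cantor space. -/
abbrev Can := ℕ → Bool

/-- The points on which the compact family lives. -/
structure Pt (W : Type) where
  B : Set Can
  z : Can
  a : W
  f : W → Can

variable {W : Type} [LinearOrder W]

/-- Half of the relation: the node of `k` is an initial segment of the node of `k'`, and the
value which follows is `y`. -/
def Below (y : Can) (k k' : Pt W) : Prop :=
  k.a < k'.a ∧ (∀ b < k.a, k.f b = k'.f b) ∧ k'.f k.a = y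

def Rel (y : Can) (k k' : Pt W) : Prop :=
  k.B = k'.B ∧ y ∉ k.B ∧ PiNat.firstDiff k.z y ≠ PiNat.firstDiff k'.z y ∧
    (Below y k k' ∨ Below y k' k)

theorem Rel.symm {y : Can} {k k' : Pt W} (h : Rel y k k') : Rel y k' k := by
  obtain ⟨h1, h2, h3, h4⟩ := h
  exact ⟨h1.symm, h1 ▸ h2, h3.symm, h4.symm⟩

theorem Rel.unique {y y' : Can} {k k' : Pt W} (h : Rel y k k') (h' : Rel y' k k') : y = y' := by
  obtain ⟨_, _, _, h4⟩ := h
  obtain ⟨_, _, _, h4'⟩ := h'
  rcases h4 with ⟨a1, _, a3⟩ | ⟨a1, _, a3⟩ <;> rcases h4' with ⟨b1, _, b3⟩ | ⟨b1, _, b3⟩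
  · rw [← a3, ← b3]
  · exact absurd (lt_trans a1 b1) (lt_irrefl _)
  · exact absurd (lt_trans a1 b1) (lt_irrefl _)
  · rw [← a3, ← b3]

/-- Admissible sets. -/
def Adm (K : Pt W → Bool) : Prop :=
  (∀ k, K k = true → k.z ∈ k.B) ∧
    ∃ y, ∀ k k', K k = true → K k' = true → k ≠ k' → Rel y k k'

theorem Adm.mono {K L : Pt W → Bool} (hK : Adm K) (hL : ∀ k, L k = true → K k = true) :
    Adm L := by
  obtain ⟨h1, y, h2⟩ := hK
  exact ⟨fun k hk => h1 k (hL k hk), y, fun k k' hk hk' hne => h2 k k' (hL k hk) (hL k' hk') hne⟩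

theorem adm_iff (K : Pt W → Bool) : Adm K ↔
    (∀ k, K k = true → k.z ∈ k.B) ∧
    (∀ k k', K k = true → K k' = true → k ≠ k' → ∃ y, Rel y k k') ∧
    (∀ k k' l l', K k = true → K k' = true → K l = true → K l' = true → k ≠ k' → l ≠ l' →
      ∀ y y', Rel y k k' → Rel y' l l' → y = y') := by
  constructor
  · rintro ⟨h1, y, h2⟩
    refine ⟨h1, fun k k' hk hk' hne => ⟨y, h2 k k' hk hk' hne⟩, ?_⟩
    intro k k' l l' hk hk' hl hl' hne hne' y1 y2 hy1 hy2
    rw [hy1.unique (h2 k k' hk hk' hne), hy2.unique (h2 l l' hl hl' hne')]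
  · rintro ⟨h1, h2, h3⟩
    refine ⟨h1, ?_⟩
    by_cases h : ∃ k k', K k = true ∧ K k' = true ∧ k ≠ k'
    · obtain ⟨k, k', hk, hk', hne⟩ := h
      obtain ⟨y, hy⟩ := h2 k k' hk hk' hne
      refine ⟨y, fun l l' hl hl' hne' => ?_⟩
      obtain ⟨y', hy'⟩ := h2 l l' hl hl' hne'
      have := h3 k k' l l' hk hk' hl hl' hne hne' y y' hy hy'
      rw [this]; exact hy'
    · push Not at h
      exact ⟨fun _ => false, fun l l' hl hl' hne' => absurd (h l l' hl hl') hne'⟩

theorem isClosed_adm : IsClosed {K : Pt W → Bool | Adm K} := by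
  have hset : {K : Pt W → Bool | Adm K} =
      (⋂ k : Pt W, {K : Pt W → Bool | K k = true → k.z ∈ k.B}) ∩
      (⋂ k : Pt W, ⋂ k' : Pt W, {K : Pt W → Bool | K k = true → K k' = true → k ≠ k' →
        ∃ y, Rel y k k'}) ∩
      (⋂ k : Pt W, ⋂ k' : Pt W, ⋂ l : Pt W, ⋂ l' : Pt W, {K : Pt W → Bool |
        K k = true → K k' = true → K l = true → K l' = true → k ≠ k' → l ≠ l' →
        ∀ y y', Rel y k k' → Rel y' l l' → y = y'}) := by
    ext K
    simp only [mem_ofPred_eq, mem_inter_iff, mem_iInter]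
    rw [adm_iff]
    tauto
  rw [hset]
  have hc : ∀ k : Pt W, Continuous (fun K : Pt W → Bool => K k) := fun k => continuous_apply k
  refine ((isClosed_iInter fun k => ?_).inter (isClosed_iInter fun k => isClosed_iInter fun k' =>
    ?_)).inter (isClosed_iInter fun k => isClosed_iInter fun k' => isClosed_iInter fun l =>
    isClosed_iInter fun l' => ?_)
  · exact (isClosed_discrete {b : Bool | b = true → k.z ∈ k.B}).preimage (hc k)
  · exact (isClosed_discrete {b : Bool × Bool | b.1 = true → b.2 = true → k ≠ k' →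
      ∃ y, Rel y k k'}).preimage ((hc k).prodMk (hc k'))
  · exact (isClosed_discrete {b : (Bool × Bool) × (Bool × Bool) | b.1.1 = true → b.1.2 = true →
      b.2.1 = true → b.2.2 = true → k ≠ k' → l ≠ l' →
      ∀ y y', Rel y k k' → Rel y' l l' → y = y'}).preimage
        (((hc k).prodMk (hc k')).prodMk ((hc l).prodMk (hc l')))

/-- The compact space of admissible sets. -/
def XX (W : Type) [LinearOrder W] : Type := {K : Pt W → Bool // Adm K}

instance : TopologicalSpace (XX W) := inferInstanceAs (TopologicalSpace {K : Pt W → Bool // Adm K})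

instance : T2Space (XX W) := inferInstanceAs (T2Space {K : Pt W → Bool // Adm K})

instance : CompactSpace (XX W) :=
  isCompact_iff_compactSpace.mp (isClosed_adm (W := W)).isCompact

theorem isInducing_val : IsInducing (fun K : XX W => K.1) := ⟨rfl⟩

theorem tendsto_XX {α : Type*} {l : Filter α} {u : α → XX W} {K : XX W}
    (h : ∀ k, Tendsto (fun a => (u a).1 k) l (𝓝 (K.1 k))) : Tendsto u l (𝓝 K) := by
  rw [isInducing_val.tendsto_nhds_iff, tendsto_pi_nhds]
  exact h

theorem continuous_coord (k : Pt W) : Continuous (fun K : XX W => K.1 k) :=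
  (continuous_apply k).comp continuous_subtype_val

/-- The coordinate functions. -/
def pr (k : Pt W) (K : XX W) : ℝ := if K.1 k = true then 1 else 0

theorem continuous_pr (k : Pt W) : Continuous (pr k) := by
  have h : Continuous (fun b : Bool => if b = true then (1 : ℝ) else 0) :=
    continuous_of_discreteTopology
  exact h.comp (continuous_coord k)

end Pool.Agent.H61
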