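import Mathlib

set_option autoImplicit false

namespace Pool.Agent.H61

open Set Cardinal

universe u

/-- A set of cardinality less than the cofinality of a linear order is strictly bounded. -/
theorem exists_strict_bound {κ : Type u} [LinearOrder κ] (s : Set κ)
    (hs : #s < Order.cof κ) : ∃ b, ∀ x ∈ s, x < b := by
  by_contra hcon
  push Not at hcon
  have hc : IsCofinal s := by
    intro b
    obtain ⟨x, hx, hbx⟩ := hcon b
    exact ⟨x, hx, hbx⟩
  exact absurd (Order.cof_le hc) (not_le.mpr hs)

/-- Transfinite recursion: a long sequence that grows faster than a given function. -/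
theorem exists_growing {κ W : Type u} [LinearOrder κ] [LinearOrder W] [WellFoundedLT W]
    (hW : ∀ a : W, #(Iio a) < Order.cof κ) (f : κ → κ) :
    ∃ b : W → κ, ∀ a' a, a' < a → f (b a') < b a := by
  have hb : ∀ (a : W) (ih : ∀ y, y < a → κ), ∃ c : κ, ∀ y (hy : y < a), f (ih y hy) < c := by
    intro a ih
    obtain ⟨c, hc⟩ := exists_strict_bound (range fun y : Iio a => f (ih y.1 y.2))
      (lt_of_le_of_lt mk_range_le (hW a))
    exact ⟨c, fun y hy => hc _ ⟨⟨y, hy⟩, rfl⟩⟩
  choose F hF using hb
  have wf : WellFounded (fun x y : W => x < y) := wellFounded_lt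
  refine ⟨wf.fix F, ?_⟩
  intro a' a h
  rw [wf.fix_eq F a]
  exact hF a (fun y _ => wf.fix F y) a' h

end Pool.Agent.H61
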