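import Pool.Agent.H61.Basic

set_option autoImplicit false

namespace Pool.Agent.H61

open Set Cardinal

universe u

/-- There is a family of more than `#W` functions `W → W`, any two of which agree only on a
bounded set, when all proper initial segments of `W` have size less than `#W`. -/
theorem exists_eventually_different (W : Type u) [LinearOrder W] [NoMaxOrder W] [Nonempty W]
    (hW : ∀ a : W, #(Iio a) < #W) :
    ∃ J : Set (W → W), #W < #J ∧ ∀ f ∈ J, ∀ g ∈ J, f ≠ g → ∃ b, ∀ a, f a = g a → a < b := by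
  classical
  obtain ⟨J, hJ⟩ := zorn_subset {J : Set (W → W) | ∀ f ∈ J, ∀ g ∈ J, f ≠ g →
      ∃ b, ∀ a, f a = g a → a < b} (by
    intro c hc hchain
    refine ⟨⋃₀ c, ?_, fun s hs => subset_sUnion_of_mem hs⟩
    intro f hf g hg hfg
    obtain ⟨s, hs, hfs⟩ := mem_sUnion.mp hf
    obtain ⟨t, ht, hgt⟩ := mem_sUnion.mp hg
    rcases hchain.total hs ht with h | h
    · exact hc ht f (h hfs) g hgt hfg
    · exact hc hs f hfs g (h hgt) hfg)
  refine ⟨J, ?_, hJ.prop⟩
  by_contra hcon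
  rw [not_lt] at hcon
  -- enumerate `J` by `W`
  obtain ⟨e⟩ : Nonempty (J ↪ W) := hcon
  have hg : ∀ a : W, ∃ y : W, ∀ f : J, e f < a → y ≠ f.1 a := by
    intro a
    have h1 : #((fun f : J => f.1 a) '' {f : J | e f < a} : Set W) < #W := by
      refine lt_of_le_of_lt mk_image_le (lt_of_le_of_lt ?_ (hW a))
      refine mk_le_of_injective (f := fun x : {f : J | e f < a} => (⟨e x.1, x.2⟩ : Iio a)) ?_
      intro x y hxy
      apply Subtype.ext
      apply e.injective
      exact congrArg Subtype.val hxy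
    have h2 : ∃ y, y ∉ ((fun f : J => f.1 a) '' {f : J | e f < a} : Set W) := by
      by_contra hcon2
      push Not at hcon2
      have : ((fun f : J => f.1 a) '' {f : J | e f < a} : Set W) = Set.univ := eq_univ_of_forall hcon2
      rw [this, mk_univ] at h1
      exact lt_irrefl _ h1
    obtain ⟨y, hy⟩ := h2
    refine ⟨y, fun f hf hyf => hy ⟨f, hf, hyf.symm⟩⟩
  choose g hg using hg
  have hgJ : ∀ f ∈ J, ∃ b, ∀ a, f a = g a → a < b := by
    intro f hf
    obtain ⟨b, hb⟩ := exists_gt (e ⟨f, hf⟩)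
    refine ⟨b, fun a ha => ?_⟩
    by_contra hlt
    exact hg a ⟨f, hf⟩ (lt_of_lt_of_le hb (not_lt.mp hlt)) ha.symm
  have hgnot : g ∉ J := by
    intro hgmem
    obtain ⟨b, hb⟩ := hgJ g hgmem
    exact lt_irrefl _ (hb b rfl)
  have hins : insert g J ∈ {J : Set (W → W) | ∀ f ∈ J, ∀ g ∈ J, f ≠ g →
      ∃ b, ∀ a, f a = g a → a < b} := by
    rintro f (rfl | hf) h (rfl | hh) hfh
    · exact absurd rfl hfh
    · obtain ⟨b, hb⟩ := hgJ h hh
      exact ⟨b, fun a ha => hb a ha.symm⟩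
    · exact hgJ f hf
    · exact hJ.prop f hf h hh hfh
  have := hJ.eq_of_subset hins (subset_insert g J)
  exact hgnot (this ▸ mem_insert g J)


/-- The main combinatorial lemma on `ω₁`. -/
theorem comb_omega_one {W : Type u} [LinearOrder W] [WellFoundedLT W]
    [NoMaxOrder W] [Nonempty W] (hc : Order.cof W = ℵ₁) (hWcard : #W = ℵ₁)
    (hWI : ∀ a : W, (Iio a).Countable)
    (F : ℕ → W → Set (Ultrafilter W)) (hF : ∀ n x, (F n x).Finite) :
    ∃ A : Set W, ∀ n, ¬ {x | ∀ p ∈ F n x, (A ∈ p ↔ Iio x ∈ p)}.Countable := by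
  classical
  have hℵ : (ℵ₀ : Cardinal.{u}) < ℵ₁ := aleph0_lt_aleph_one
  have wfW : WellFounded (fun x y : W => x < y) := wellFounded_lt
  have hbdd : ∀ s : Set W, s.Countable → ∃ b, ∀ x ∈ s, x < b := by
    intro s hs
    apply exists_strict_bound
    rw [hc]
    exact lt_of_le_of_lt hs.le_aleph0 hℵ
  have hWunc : ¬ (Set.univ : Set W).Countable := by
    intro h
    obtain ⟨b, hb⟩ := hbdd _ h
    exact lt_irrefl _ (hb b (mem_univ b))
  have hWI' : ∀ a : W, #(Iio a) < Order.cof W := by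
    intro a
    rw [hc]
    exact lt_of_le_of_lt (hWI a).le_aleph0 hℵ
  -- Step 1: pressing down, for each `n`
  have hpress : ∀ n : ℕ, ∃ β : W, ∀ x, ∃ ξ, x < ξ ∧
      ∀ p ∈ F n ξ, (∃ y < ξ, Iio y ∈ p) → Iio β ∈ p := by
    intro n
    by_contra hcon
    push Not at hcon
    choose h hh using hcon
    have hnext : ∀ x : W, ∃ y, h x < y ∧ x < y := by
      intro x
      obtain ⟨y, hy⟩ := exists_gt (max (h x) x)
      exact ⟨y, lt_of_le_of_lt (le_max_left _ _) hy, lt_of_le_of_lt (le_max_right _ _) hy⟩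
    choose next hnext1 hnext2 using hnext
    let b : ℕ → W := fun k => Nat.rec (Classical.arbitrary W) (fun _ x => next x) k
    have hbs : ∀ k, b (k + 1) = next (b k) := fun k => rfl
    have hbmono : StrictMono b := strictMono_nat_of_lt_succ (fun k => by
      rw [hbs]; exact hnext2 _)
    obtain ⟨c, hc'⟩ := hbdd (range b) (countable_range b)
    let ξ := wfW.min {z | ∀ a, b a < z} ⟨c, fun a => hc' _ ⟨a, rfl⟩⟩
    have hξ : ∀ a, b a < ξ := wfW.min_mem {z | ∀ a, b a < z} ⟨c, fun a => hc' _ ⟨a, rfl⟩⟩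
    have hξmin : ∀ y < ξ, ∃ a, y ≤ b a := by
      intro y hy
      by_contra hcon2
      push Not at hcon2
      exact wfW.not_lt_min {z | ∀ a, b a < z} hcon2 hy
    have hlev : ∀ p : Ultrafilter W, ∃ a : ℕ, (∃ y < ξ, Iio y ∈ p) → Iio (b a) ∈ p := by
      intro p
      by_cases hp : ∃ y < ξ, Iio y ∈ p
      · obtain ⟨y, hy, hyp⟩ := hp
        obtain ⟨a, ha⟩ := hξmin y hy
        exact ⟨a, fun _ => Filter.mem_of_superset hyp (Iio_subset_Iio ha)⟩
      · exact ⟨0, fun h' => absurd h' hp⟩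
    choose lev hlev using hlev
    obtain ⟨a, ha⟩ := ((hF n ξ).image lev).bddAbove
    have hb1 : h (b a) < ξ := lt_of_lt_of_le (hnext1 (b a)) (hξ (a + 1)).le
    obtain ⟨p, hpP, hp1, hp2⟩ := hh (b a) ξ hb1
    apply hp2
    have h1 := hlev p hp1
    have h2 : lev p ≤ a := ha ⟨p, hpP, rfl⟩
    exact Filter.mem_of_superset h1 (Iio_subset_Iio (hbmono.monotone h2))
  choose β' hβ' using hpress
  obtain ⟨β, hβ⟩ := hbdd (range β') (countable_range β')
  have hpress2 : ∀ (n : ℕ) (x : W), ∃ ξ, x < ξ ∧ β < ξ ∧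
      ∀ p ∈ F n ξ, (∃ y < ξ, Iio y ∈ p) → Iio β ∈ p := by
    intro n x
    obtain ⟨ξ, h1, h2⟩ := hβ' n (max x β)
    refine ⟨ξ, lt_of_le_of_lt (le_max_left _ _) h1, lt_of_le_of_lt (le_max_right _ _) h1, ?_⟩
    intro p hp hy
    exact Filter.mem_of_superset (h2 p hp hy) (Iio_subset_Iio (hβ _ ⟨n, rfl⟩).le)
  choose s hs1 hs2 hs3 using hpress2
  -- Step 2: bounds for the ultrafilters living on bounded sets
  have hδ : ∀ x : W, ∃ d, x < d ∧ ∀ n, ∀ q ∈ F n x, (∃ y, Iio y ∈ q) → Iio d ∈ q := by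
    intro x
    have : ∀ q : Ultrafilter W, ∃ y, (∃ y, Iio y ∈ q) → Iio y ∈ q := by
      intro q
      by_cases h : ∃ y, Iio y ∈ q
      · obtain ⟨y, hy⟩ := h
        exact ⟨y, fun _ => hy⟩
      · exact ⟨x, fun h' => absurd h' h⟩
    choose g hg using this
    obtain ⟨b, hb⟩ := hbdd (insert x (g '' (⋃ n, F n x)))
      (((countable_iUnion fun n => (hF n x).countable).image g).insert x)
    refine ⟨b, hb _ (mem_insert _ _), ?_⟩
    intro n q hq h
    have h1 := hg q h
    have h2 : g q < b := hb _ (mem_insert_of_mem _ ⟨q, mem_iUnion.mpr ⟨n, hq⟩, rfl⟩)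
    exact Filter.mem_of_superset h1 (Iio_subset_Iio h2.le)
  choose δ hδ1 hδ2 using hδ
  -- Step 3: an identification of `ℕ × W × W` with `W`
  have hcard3 : #((ULift.{u} ℕ) × W × W) = #W := by
    rw [mk_prod, mk_prod, lift_id, lift_id, mk_uLift, mk_nat, lift_aleph0,
      hWcard, lift_id, mul_eq_self hℵ.le, aleph0_mul_eq hℵ.le]
  obtain ⟨e⟩ := Cardinal.eq.mp hcard3
  let ν : W → ℕ := fun a => (e.symm a).1.down
  -- Step 4: the increasing sequence
  have hgrow : ∃ c : W → W, ∀ a' a, a' < a → (∀ n, δ (s n (c a')) < c a) := by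
    have hGn : ∀ x : W, ∃ G, ∀ n, δ (s n x) < G := by
      intro x
      obtain ⟨b, hb⟩ := hbdd (range fun n => δ (s n x)) (countable_range _)
      exact ⟨b, fun n => hb _ ⟨n, rfl⟩⟩
    choose G hG using hGn
    obtain ⟨c, hc2⟩ := exists_growing (κ := W) (W := W) hWI' G
    exact ⟨c, fun a' a h n => lt_trans (hG _ n) (hc2 a' a h)⟩
  obtain ⟨c, hcgrow⟩ := hgrow
  let X : W → W := fun a => s (ν a) (c a)
  have hcX : ∀ a, c a < X a := fun a => hs1 _ _
  have hXc : ∀ a' a, a' < a → δ (X a') < c a := fun a' a h => hcgrow a' a h _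
  have hlt : ∀ a' a, a' < a → X a' < X a := fun a' a haa =>
    lt_trans (hδ1 _) (lt_trans (hXc a' a haa) (hcX a))
  have hXinj : Function.Injective X := by
    intro a a' haa
    rcases lt_trichotomy a a' with h | h | h
    · exact absurd haa (ne_of_lt (hlt _ _ h))
    · exact h
    · exact absurd haa.symm (ne_of_lt (hlt _ _ h))
  let AK : Set W → Set W := fun K => {x | x < β ∨ ∃ a ∈ K, c a ≤ x ∧ x < X a}
  -- Step 5: behaviour at the good places
  have hgood : ∀ (K : Set W) (a : W), a ∈ K →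
      (∀ q ∈ F (ν a) (X a), (∀ y, Iio y ∉ q) → AK K ∉ q) →
      ∀ p ∈ F (ν a) (X a), (AK K ∈ p ↔ Iio (X a) ∈ p) := by
    intro K a haK hunif p hp
    constructor
    · intro hA
      by_contra hI
      have hI' : (Iio (X a))ᶜ ∈ p := Ultrafilter.compl_mem_iff_notMem.mpr hI
      by_cases hy : ∃ y, Iio y ∈ p
      · have h1 := hδ2 _ _ p hp hy
        have h2 : (AK K ∩ (Iio (X a))ᶜ ∩ Iio (δ (X a))) ∈ p :=
          Filter.inter_mem (Filter.inter_mem hA hI') h1
        have h3 : (AK K ∩ (Iio (X a))ᶜ ∩ Iio (δ (X a))) = ∅ := by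
          rw [Set.eq_empty_iff_forall_notMem]
          rintro x ⟨⟨hx1, hx2⟩, hx3⟩
          simp only [mem_compl_iff, mem_Iio, not_lt] at hx2 hx3
          rcases hx1 with hx1 | ⟨a', _, hx1, hx4⟩
          · exact absurd (lt_of_lt_of_le hx1 ((hs2 (ν a) (c a)).le.trans hx2)) (lt_irrefl _)
          · rcases lt_trichotomy a' a with h | h | h
            · exact absurd (lt_trans hx4 (lt_of_lt_of_le (hlt _ _ h) hx2)) (lt_irrefl _)
            · subst h
              exact absurd (lt_of_lt_of_le hx4 hx2) (lt_irrefl _)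
            · exact absurd (lt_trans (lt_of_le_of_lt hx1 hx3) (hXc _ _ h)) (lt_irrefl _)
        rw [h3] at h2
        exact Ultrafilter.empty_notMem h2
      · push Not at hy
        exact hunif p hp hy hA
    · intro hI
      by_cases hy : ∃ y < X a, Iio y ∈ p
      · have h1 := hs3 _ _ p hp hy
        exact Filter.mem_of_superset h1 (fun x hx => Or.inl hx)
      · have h1 : (Iio (c a)) ∉ p := fun h => hy ⟨c a, hcX _, h⟩
        have h2 : (Iio (c a))ᶜ ∈ p := Ultrafilter.compl_mem_iff_notMem.mpr h1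
        refine Filter.mem_of_superset (Filter.inter_mem h2 hI) ?_
        rintro x ⟨hx1, hx2⟩
        simp only [mem_compl_iff, mem_Iio, not_lt] at hx1 hx2
        exact Or.inr ⟨a, haK, hx1, hx2⟩
  -- Step 6: the almost disjoint family
  obtain ⟨J, hJ1, hJ2⟩ := exists_eventually_different W (fun a => by
    rw [hWcard]; exact lt_of_le_of_lt (hWI a).le_aleph0 hℵ)
  let KK : (W → W) → Set W := fun f => range fun x : ULift.{u} ℕ × W => e (x.1, x.2, f x.2)
  have hKKn : ∀ (f : W → W) (n : ℕ), ¬ {a ∈ KK f | ν a = n}.Countable := by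
    intro f n hcount
    apply hWunc
    have hinj : Function.Injective (fun a : W => e ((⟨n⟩ : ULift.{u} ℕ), a, f a)) := by
      intro a a' haa
      have := e.injective haa
      simp only [Prod.mk.injEq] at this
      exact this.2.1
    have hsub : (fun a : W => e ((⟨n⟩ : ULift.{u} ℕ), a, f a)) '' Set.univ ⊆
        {a ∈ KK f | ν a = n} := by
      rintro _ ⟨a, _, rfl⟩
      refine ⟨⟨(⟨n⟩, a), rfl⟩, ?_⟩
      simp [ν]
    exact countable_of_injective_of_countable_image hinj.injOn (hcount.mono hsub)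
  have hKKd : ∀ f ∈ J, ∀ g ∈ J, f ≠ g → ∃ b, AK (KK f) ∩ AK (KK g) ⊆ Iio b := by
    intro f hf g hg hfg
    obtain ⟨b, hb⟩ := hJ2 f hf g hg hfg
    -- the common indices form a countable set
    have hcount : (KK f ∩ KK g).Countable := by
      have hsub : KK f ∩ KK g ⊆ (fun x : ULift.{u} ℕ × W => e (x.1, x.2, f x.2)) ''
          (Set.univ ×ˢ Iio b) := by
        rintro _ ⟨⟨x, rfl⟩, ⟨y, hy⟩⟩
        refine ⟨x, ⟨mem_univ _, ?_⟩, rfl⟩
        have h1 := e.injective hy
        simp only [Prod.mk.injEq] at h1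
        apply hb
        rw [← h1.2.1]
        rw [h1.2.2, h1.2.1]
      exact ((countable_univ.prod (hWI b)).image _).mono hsub
    obtain ⟨d, hd⟩ := hbdd (insert β (X '' (KK f ∩ KK g))) ((hcount.image X).insert β)
    refine ⟨d, ?_⟩
    rintro x ⟨hx1, hx2⟩
    rcases hx1 with hx1 | ⟨a, haK, hx1, hx1'⟩
    · exact lt_trans hx1 (hd _ (mem_insert _ _))
    · rcases hx2 with hx2 | ⟨a', haK', hx2, hx2'⟩
      · exact lt_trans hx2 (hd _ (mem_insert _ _))
      · have haa : a = a' := by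
          rcases lt_trichotomy a a' with h | h | h
          · exact absurd (lt_trans hx1' (lt_of_lt_of_le (lt_trans (hδ1 _) (hXc _ _ h)) hx2))
              (lt_irrefl _)
          · exact h
          · exact absurd (lt_trans hx2' (lt_of_lt_of_le (lt_trans (hδ1 _) (hXc _ _ h)) hx1))
              (lt_irrefl _)
        subst haa
        exact lt_trans hx1' (hd _ (mem_insert_of_mem _ ⟨a, ⟨haK, haK'⟩, rfl⟩))
  -- Step 7: one member of the family works
  have hmain : ∃ f ∈ J, ∀ n, ¬ {a ∈ KK f | ν a = n ∧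
      ∀ q ∈ F (ν a) (X a), (∀ y, Iio y ∉ q) → AK (KK f) ∉ q}.Countable := by
    by_contra hcon
    push Not at hcon
    -- for each `f` a bad place
    have hbad : ∀ f : J, ∃ a : W, ∃ q ∈ F (ν a) (X a), (∀ y, Iio y ∉ q) ∧ AK (KK f.1) ∈ q := by
      rintro ⟨f, hf⟩
      obtain ⟨n, hn⟩ := hcon f hf
      by_contra hcon2
      push Not at hcon2
      apply hKKn f n
      refine hn.mono ?_
      rintro a ⟨ha1, ha2⟩
      exact ⟨ha1, ha2, fun q hq hy => hcon2 a q hq hy⟩
    choose ba bq hbq1 hbq2 hbq3 using hbad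
    have hJinf : Infinite J := by
      rw [← not_finite_iff_infinite]
      intro hfin
      have h1 : #J < ℵ₀ := lt_aleph0_iff_finite.mpr hfin
      rw [hWcard] at hJ1
      exact absurd (lt_trans hℵ hJ1) (not_lt.mpr h1.le)
    obtain ⟨a, ha⟩ := exists_infinite_fiber ba hJ1
    -- two members share an ultrafilter
    have hfin : Finite (F (ν a) (X a)) := (hF _ _).to_subtype
    let φ : (ba ⁻¹' {a}) → F (ν a) (X a) := fun f => ⟨bq f.1, by
      have h1 := hbq1 f.1
      have h2 : ba f.1 = a := f.2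
      rw [h2] at h1
      exact h1⟩
    obtain ⟨f, g, hfg, hφ⟩ := Finite.exists_ne_map_eq_of_infinite φ
    have hq : bq f.1 = bq g.1 := congrArg Subtype.val hφ
    have hne : (f.1.1 : W → W) ≠ g.1.1 := by
      intro h
      apply hfg
      exact Subtype.ext (Subtype.ext h)
    obtain ⟨b, hb⟩ := hKKd f.1.1 f.1.2 g.1.1 g.1.2 hne
    have h1 := hbq3 f.1
    have h2 := hbq3 g.1
    rw [← hq] at h2
    exact hbq2 f.1 b (Filter.mem_of_superset (Filter.inter_mem h1 h2) hb)
  obtain ⟨f, hf, hfn⟩ := hmain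
  refine ⟨AK (KK f), fun n hcount => hfn n ?_⟩
  have hsub : X '' {a ∈ KK f | ν a = n ∧
      ∀ q ∈ F (ν a) (X a), (∀ y, Iio y ∉ q) → AK (KK f) ∉ q} ⊆
      {x | ∀ p ∈ F n x, (AK (KK f) ∈ p ↔ Iio x ∈ p)} := by
    rintro _ ⟨a, ⟨ha1, ha2, ha3⟩, rfl⟩ p hp
    rw [← ha2] at hp
    exact hgood (KK f) a ha1 ha3 p hp
  exact countable_of_injective_of_countable_image hXinj.injOn (hcount.mono hsub)

end Pool.Agent.H61
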