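import Pool.Agent.H61.Basic

set_option autoImplicit false

namespace Pool.Agent.H61

open Set Cardinal

universe u

theorem comb {κ W : Type u} [LinearOrder κ] [WellFoundedLT κ] [LinearOrder W] [WellFoundedLT W]
    [NoMaxOrder W] [NoMaxOrder κ] [Nonempty W] [Nonempty κ]
    (hκω : ℵ₀ < Order.cof κ)
    (hκ : #W < Order.cof κ)
    (hWc : ℵ₀ < Order.cof W)
    (hWI : ∀ a : W, #(Iio a) < Order.cof κ)
    (P : κ → Set (Ultrafilter κ)) (hP : ∀ x, (P x).Countable) :
    ∃ (A : Set κ) (e : W → κ), Function.Injective e ∧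
      ∀ a, ∀ p ∈ P (e a), (A ∈ p ↔ Iio (e a) ∈ p) := by
  classical
  -- the bound for the ultrafilters which live on bounded sets
  have hδ : ∀ x : κ, ∃ d, x < d ∧ ∀ q ∈ P x, (∃ y, Iio y ∈ q) → Iio d ∈ q := by
    intro x
    have : ∀ q : Ultrafilter κ, ∃ y, (∃ y, Iio y ∈ q) → Iio y ∈ q := by
      intro q
      by_cases h : ∃ y, Iio y ∈ q
      · obtain ⟨y, hy⟩ := h
        exact ⟨y, fun _ => hy⟩
      · exact ⟨x, fun h' => absurd h' h⟩
    choose g hg using this
    have hcard : #(insert x (g '' (P x)) : Set κ) < Order.cof κ := by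
      refine lt_of_le_of_lt ?_ hκω
      have : (insert x (g '' (P x)) : Set κ).Countable := ((hP x).image g).insert x
      exact this.le_aleph0
    obtain ⟨b, hb⟩ := exists_strict_bound _ hcard
    refine ⟨b, hb _ (mem_insert _ _), ?_⟩
    intro q hq h
    have h1 := hg q h
    have h2 : g q < b := hb _ (mem_insert_of_mem _ ⟨q, hq, rfl⟩)
    exact Filter.mem_of_superset h1 (Iio_subset_Iio h2.le)
  choose δ hδ1 hδ2 using hδ
  -- pressing down
  have hpress : ∃ β : κ, ∀ x, ∃ ξ, x < ξ ∧ β < ξ ∧ ∀ p ∈ P ξ, (∃ y < ξ, Iio y ∈ p) → Iio β ∈ p := by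
    by_contra hcon
    push Not at hcon
    choose h hh using hcon
    obtain ⟨b, hb⟩ := exists_growing (κ := κ) (W := W) hWI (fun x => max (h x) x)
    have hbmono : ∀ a' a, a' < a → b a' < b a := fun a' a haa =>
      lt_of_le_of_lt (le_max_right _ _) (hb a' a haa)
    have hbh : ∀ a' a, a' < a → h (b a') < b a := fun a' a haa =>
      lt_of_le_of_lt (le_max_left _ _) (hb a' a haa)
    -- least upper bound of the range
    obtain ⟨c, hc⟩ := exists_strict_bound (range b) (lt_of_le_of_lt mk_range_le hκ)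
    have wfκ : WellFounded (fun x y : κ => x < y) := wellFounded_lt
    let ξ := wfκ.min {z | ∀ a, b a < z} ⟨c, fun a => hc _ ⟨a, rfl⟩⟩
    have hξ : ∀ a, b a < ξ := wfκ.min_mem {z | ∀ a, b a < z} ⟨c, fun a => hc _ ⟨a, rfl⟩⟩
    have hξmin : ∀ y < ξ, ∃ a, y ≤ b a := by
      intro y hy
      by_contra hcon2
      push Not at hcon2
      exact wfκ.not_lt_min {z | ∀ a, b a < z} hcon2 hy
    -- for each ultrafilter in P ξ, find the level
    have hlev : ∀ p : Ultrafilter κ, ∃ a : W, (∃ y < ξ, Iio y ∈ p) → Iio (b a) ∈ p := by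
      intro p
      by_cases hp : ∃ y < ξ, Iio y ∈ p
      · obtain ⟨y, hy, hyp⟩ := hp
        obtain ⟨a, ha⟩ := hξmin y hy
        exact ⟨a, fun _ => Filter.mem_of_superset hyp (Iio_subset_Iio ha)⟩
      · exact ⟨Classical.arbitrary W, fun h' => absurd h' hp⟩
    choose lev hlev using hlev
    have hcard : #(lev '' (P ξ) : Set W) < Order.cof W :=
      lt_of_le_of_lt ((hP ξ).image lev).le_aleph0 hWc
    obtain ⟨a, ha⟩ := exists_strict_bound _ hcard
    obtain ⟨a2, ha2⟩ := exists_gt a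
    obtain ⟨p, hpP, hp1, hp2⟩ := hh (b a) ξ (lt_trans (hbh a a2 ha2) (hξ a2)) (hξ a)
    apply hp2
    have h1 := hlev p hp1
    have h2 : lev p < a := ha _ ⟨p, hpP, rfl⟩
    exact Filter.mem_of_superset h1 (Iio_subset_Iio (hbmono _ _ h2).le)
  obtain ⟨β, hβ⟩ := hpress
  choose s hs1 hs2 hs3 using hβ
  obtain ⟨c, hc⟩ := exists_growing (κ := κ) (W := W) hWI (fun x => δ (s x))
  have hlt : ∀ a' a, a' < a → s (c a') < s (c a) := fun a' a haa =>
    lt_trans (hδ1 _) (lt_trans (hc a' a haa) (hs1 _))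
  refine ⟨{x | x < β ∨ ∃ a, c a ≤ x ∧ x < s (c a)}, fun a => s (c a), ?_, ?_⟩
  · intro a a' haa
    rcases lt_trichotomy a a' with h | h | h
    · exact absurd haa (ne_of_lt (hlt _ _ h))
    · exact h
    · exact absurd haa.symm (ne_of_lt (hlt _ _ h))
  · intro a p hp
    constructor
    · intro hA
      by_contra hI
      have hI' : (Iio (s (c a)))ᶜ ∈ p := Ultrafilter.compl_mem_iff_notMem.mpr hI
      by_cases hy : ∃ y, Iio y ∈ p
      · have h1 := hδ2 _ p hp hy
        have h2 : ({x | x < β ∨ ∃ a, c a ≤ x ∧ x < s (c a)} ∩ (Iio (s (c a)))ᶜ ∩ Iio (δ (s (c a)))) ∈ p :=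
          Filter.inter_mem (Filter.inter_mem hA hI') h1
        have h3 : ({x | x < β ∨ ∃ a, c a ≤ x ∧ x < s (c a)} ∩ (Iio (s (c a)))ᶜ ∩ Iio (δ (s (c a)))) = ∅ := by
          rw [Set.eq_empty_iff_forall_notMem]
          rintro x ⟨⟨hx1, hx2⟩, hx3⟩
          simp only [mem_compl_iff, mem_Iio, not_lt] at hx2 hx3
          rcases hx1 with hx1 | ⟨a', hx1, hx4⟩
          · exact absurd (lt_of_lt_of_le hx1 ((hs2 (c a)).le.trans hx2)) (lt_irrefl _)
          · rcases lt_trichotomy a' a with h | h | h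
            · exact absurd (lt_trans hx4 (lt_of_lt_of_le (hlt _ _ h) hx2)) (lt_irrefl _)
            · subst h
              exact absurd (lt_of_lt_of_le hx4 hx2) (lt_irrefl _)
            · exact absurd (lt_trans (lt_of_le_of_lt hx1 hx3) (hc _ _ h)) (lt_irrefl _)
        rw [h3] at h2
        exact Ultrafilter.empty_notMem h2
      · -- p contains no bounded set
        have hbd : #(insert β (range fun a => s (c a)) : Set κ) < Order.cof κ := by
          refine lt_of_le_of_lt (mk_insert_le) ?_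
          have h1 : #(range fun a => s (c a)) < Order.cof κ := lt_of_le_of_lt mk_range_le hκ
          exact add_lt_of_lt hκω.le h1 (lt_trans one_lt_aleph0 hκω)
        obtain ⟨γ, hγ⟩ := exists_strict_bound _ hbd
        apply hy
        refine ⟨γ, Filter.mem_of_superset hA ?_⟩
        rintro x (hx | ⟨a', _, hx⟩)
        · exact lt_trans hx (hγ _ (mem_insert _ _))
        · exact lt_trans hx (hγ _ (mem_insert_of_mem _ ⟨a', rfl⟩))
    · intro hI
      by_cases hy : ∃ y < s (c a), Iio y ∈ p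
      · have h1 := hs3 _ p hp hy
        exact Filter.mem_of_superset h1 (fun x hx => Or.inl hx)
      · have h1 : (Iio (c a)) ∉ p := fun h => hy ⟨c a, hs1 _, h⟩
        have h2 : (Iio (c a))ᶜ ∈ p := Ultrafilter.compl_mem_iff_notMem.mpr h1
        refine Filter.mem_of_superset (Filter.inter_mem h2 hI) ?_
        rintro x ⟨hx1, hx2⟩
        simp only [mem_compl_iff, mem_Iio, not_lt] at hx1 hx2
        exact Or.inr ⟨a, hx1, hx2⟩

end Pool.Agent.H61
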