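import Mathlib

set_option autoImplicit false

namespace Pool.Agent.H61

open Set Cardinal Topology

universe u

/-- The characteristic function of the clopen set of ultrafilters containing `A`. -/
noncomputable def chi {κ : Type u} (A : Set κ) : {g : Ultrafilter κ → ℝ // Continuous g} :=
  ⟨{p : Ultrafilter κ | A ∈ p}.indicator (fun _ => (1 : ℝ)),
    (IsClopen.continuous_indicator
      ⟨ultrafilter_isClosed_basic A, ultrafilter_isOpen_basic A⟩ continuous_const)⟩

theorem chi_of_mem {κ : Type u} {A : Set κ} {p : Ultrafilter κ} (h : A ∈ p) :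
    (chi A).1 p = 1 := by
  simp [chi, h]

theorem chi_of_notMem {κ : Type u} {A : Set κ} {p : Ultrafilter κ} (h : A ∉ p) :
    (chi A).1 p = 0 := by
  simp [chi, h]

theorem chi_eq_iff {κ : Type u} {A B : Set κ} {p : Ultrafilter κ} (h : A ∈ p ↔ B ∈ p) :
    (chi A).1 p = (chi B).1 p := by
  by_cases hA : A ∈ p
  · rw [chi_of_mem hA, chi_of_mem (h.mp hA)]
  · rw [chi_of_notMem hA, chi_of_notMem (fun hB => hA (h.mpr hB))]

theorem continuous_eval {X : Type u} [TopologicalSpace X] (p : X) :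
    Continuous (fun h : {g : X → ℝ // Continuous g} => h.1 p) :=
  (continuous_apply p).comp continuous_subtype_val

theorem isOpen_ne_eval {X : Type u} [TopologicalSpace X] (p : X) (r : ℝ) :
    IsOpen {h : {g : X → ℝ // Continuous g} | h.1 p ≠ r} :=
  isOpen_ne_fun (continuous_eval p) continuous_const

/-- Every neighbourhood of `chi B` contains every `chi A` which agrees with `chi B` on a
suitable finite set. -/
theorem nbhd_chi {κ : Type u} (B : Set κ) (V : Set {g : Ultrafilter κ → ℝ // Continuous g})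
    (hV : IsOpen V) (hB : chi B ∈ V) :
    ∃ F : Set (Ultrafilter κ), F.Finite ∧ ∀ A : Set κ, (∀ p ∈ F, (A ∈ p ↔ B ∈ p)) →
      chi A ∈ V := by
  obtain ⟨O, hO, rfl⟩ := isOpen_induced_iff.mp hV
  obtain ⟨I, u, hI, hIO⟩ := (isOpen_pi_iff.mp hO) (chi B).1 hB
  refine ⟨↑I, I.finite_toSet, ?_⟩
  intro A hA
  apply hIO
  intro p hp
  rw [chi_eq_iff (hA p hp)]
  exact (hI p hp).2

/-- The set of characteristic functions of initial segments is locally small. -/
theorem sep_chi {κ : Type u} [LinearOrder κ] [WellFoundedLT κ] [NoMaxOrder κ] [Nonempty κ]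
    (g : {g : Ultrafilter κ → ℝ // Continuous g}) :
    ∃ U : Set {g : Ultrafilter κ → ℝ // Continuous g}, IsOpen U ∧ g ∈ U ∧
      ∀ x y : κ, chi (Iio x) ∈ U → chi (Iio y) ∈ U → x = y := by
  classical
  by_cases h01 : ∀ a : κ, g.1 (pure a) = 0 ∨ g.1 (pure a) = 1
  swap
  · push Not at h01
    obtain ⟨a, ha0, ha1⟩ := h01
    refine ⟨{h | h.1 (pure a) ≠ 0} ∩ {h | h.1 (pure a) ≠ 1},
      (isOpen_ne_eval _ _).inter (isOpen_ne_eval _ _), ⟨ha0, ha1⟩, ?_⟩
    rintro x y ⟨hx0, hx1⟩ _
    by_cases hx : Iio x ∈ (pure a : Ultrafilter κ)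
    · exact absurd (chi_of_mem hx) hx1
    · exact absurd (chi_of_notMem hx) hx0
  by_cases hlow : ∀ a b : κ, a < b → g.1 (pure b) = 1 → g.1 (pure a) = 1
  swap
  · push Not at hlow
    obtain ⟨a, b, hab, hb, ha⟩ := hlow
    refine ⟨{h | h.1 (pure a) ≠ 1} ∩ {h | h.1 (pure b) ≠ 0},
      (isOpen_ne_eval _ _).inter (isOpen_ne_eval _ _), ⟨ha, ?_⟩, ?_⟩
    · change g.1 (pure b) ≠ 0
      rw [hb]; exact one_ne_zero
    · rintro x y ⟨hx0, hx1⟩ _
      by_cases hx : b < x
      · have : Iio x ∈ (pure a : Ultrafilter κ) := by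
          rw [Ultrafilter.mem_pure]; exact lt_trans hab hx
        exact absurd (chi_of_mem this) hx0
      · have : Iio x ∉ (pure b : Ultrafilter κ) := by
          rw [Ultrafilter.mem_pure]; exact hx
        exact absurd (chi_of_notMem this) hx1
  by_cases hall : ∀ a : κ, g.1 (pure a) = 1
  · -- `g` is constantly one
    have hg : g.1 = fun _ => (1 : ℝ) := by
      apply (denseRange_pure (α := κ)).equalizer g.2 continuous_const
      funext a
      exact hall a
    obtain ⟨p, hp⟩ := Ultrafilter.exists_le (Filter.atTop : Filter κ)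
    refine ⟨{h | h.1 p ≠ 0}, isOpen_ne_eval _ _, ?_, ?_⟩
    · change g.1 p ≠ 0
      rw [hg]; exact one_ne_zero
    · intro x y hx _
      exfalso
      apply hx
      apply chi_of_notMem
      intro hxp
      have h2 : Ici x ∈ p := hp (Filter.Ici_mem_atTop x)
      have h3 := Filter.inter_mem hxp h2
      have h4 : Iio x ∩ Ici x = ∅ := by
        ext z; simp
      rw [h4] at h3
      exact Ultrafilter.empty_notMem h3
  · push Not at hall
    have wf : WellFounded (fun x y : κ => x < y) := wellFounded_lt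
    let x0 := wf.min {a | g.1 (pure a) ≠ 1} hall
    have hx0 : g.1 (pure x0) ≠ 1 := wf.min_mem {a | g.1 (pure a) ≠ 1} hall
    have hx0' : ∀ a, a < x0 → g.1 (pure a) = 1 := by
      intro a ha
      by_contra hcon
      exact wf.not_lt_min {a | g.1 (pure a) ≠ 1} hcon ha
    have hx0'' : ∀ a, x0 ≤ a → g.1 (pure a) = 0 := by
      intro a ha
      rcases h01 a with h | h
      · exact h
      · rcases eq_or_lt_of_le ha with h' | h'
        · rw [← h'] at h; exact absurd h hx0
        · exact absurd (hlow _ _ h' h) hx0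
    have hg : g = chi (Iio x0) := by
      apply Subtype.ext
      apply (denseRange_pure (α := κ)).equalizer g.2 (chi (Iio x0)).2
      funext a
      by_cases ha : a < x0
      · have : Iio x0 ∈ (pure a : Ultrafilter κ) := by
          rw [Ultrafilter.mem_pure]; exact ha
        simp only [Function.comp]
        rw [hx0' a ha, chi_of_mem this]
      · have : Iio x0 ∉ (pure a : Ultrafilter κ) := by
          rw [Ultrafilter.mem_pure]; exact ha
        simp only [Function.comp]
        rw [hx0'' a (not_lt.mp ha), chi_of_notMem this]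
    -- from above
    have habove : ∀ x, chi (Iio x) ∈ {h : {g : Ultrafilter κ → ℝ // Continuous g} |
        h.1 (pure x0) ≠ 1} → x ≤ x0 := by
      intro x hx
      by_contra hcon
      apply hx
      apply chi_of_mem
      rw [Ultrafilter.mem_pure]
      exact not_le.mp hcon
    by_cases hbot : ∃ a, a < x0
    · -- an ultrafilter converging to `x0` from below
      obtain ⟨a0, ha0⟩ := hbot
      have : Nonempty (Iio x0) := ⟨⟨a0, ha0⟩⟩
      have hne : (⨅ a : Iio x0, Filter.principal (Ico a.1 x0)).NeBot := by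
        apply Filter.iInf_neBot_of_directed'
        · intro a b
          refine ⟨⟨max a.1 b.1, max_lt a.2 b.2⟩, ?_, ?_⟩
          · simp only [ge_iff_le, Filter.principal_mono]
            exact Ico_subset_Ico_left (le_max_left _ _)
          · simp only [ge_iff_le, Filter.principal_mono]
            exact Ico_subset_Ico_left (le_max_right _ _)
        · intro a
          exact Filter.principal_neBot_iff.mpr ⟨a.1, le_refl _, a.2⟩
      obtain ⟨p, hp⟩ := Ultrafilter.exists_le (⨅ a : Iio x0, Filter.principal (Ico a.1 x0))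
      have hmem : ∀ a, a < x0 → Ico a x0 ∈ p := by
        intro a ha
        exact hp (Filter.mem_iInf_of_mem ⟨a, ha⟩ (Filter.mem_principal_self _))
      have hp0 : Iio x0 ∈ p := Filter.mem_of_superset (hmem a0 ha0) (fun z hz => hz.2)
      refine ⟨{h | h.1 (pure x0) ≠ 1} ∩ {h | h.1 p ≠ 0},
        (isOpen_ne_eval _ _).inter (isOpen_ne_eval _ _), ⟨hx0, ?_⟩, ?_⟩
      · change g.1 p ≠ 0
        rw [hg, chi_of_mem hp0]; exact one_ne_zero
      · have key : ∀ x, chi (Iio x) ∈ {h : {g : Ultrafilter κ → ℝ // Continuous g} |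
            h.1 (pure x0) ≠ 1} ∩ {h | h.1 p ≠ 0} → x = x0 := by
          rintro x ⟨h1, h2⟩
          apply le_antisymm (habove x h1)
          by_contra hcon
          apply h2
          apply chi_of_notMem
          intro hxp
          have h3 := Filter.inter_mem hxp (hmem x (not_le.mp hcon))
          have h4 : Iio x ∩ Ico x x0 = ∅ := by
            rw [Set.eq_empty_iff_forall_notMem]
            rintro z ⟨hz1, hz2⟩
            exact absurd (lt_of_lt_of_le hz1 hz2.1) (lt_irrefl _)
          rw [h4] at h3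
          exact Ultrafilter.empty_notMem h3
        intro x y hx hy
        rw [key x hx, key y hy]
    · push Not at hbot
      refine ⟨{h | h.1 (pure x0) ≠ 1}, isOpen_ne_eval _ _, hx0, ?_⟩
      intro x y hx hy
      exact le_antisymm ((habove x hx).trans (hbot y)) ((habove y hy).trans (hbot x))

/-- Submetalindelof spaces, spelled out. -/
theorem not_submetalindelof_of_comb {κ : Type u} [LinearOrder κ] [WellFoundedLT κ] [NoMaxOrder κ]
    [Nonempty κ]
    (hcomb : ∀ F : ℕ → κ → Set (Ultrafilter κ), (∀ n x, (F n x).Finite) →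
      ∃ A : Set κ, ∀ n, ¬ {x | ∀ p ∈ F n x, (A ∈ p ↔ Iio x ∈ p)}.Countable) :
    ∃ 𝒰 : Set (Set {g : Ultrafilter κ → ℝ // Continuous g}),
        (∀ U ∈ 𝒰, IsOpen U) ∧ ⋃₀ 𝒰 = Set.univ ∧
        ¬ ∃ 𝒱 : ℕ → Set (Set {g : Ultrafilter κ → ℝ // Continuous g}),
          (∀ n, ∀ V ∈ 𝒱 n, IsOpen V ∧ ∃ U ∈ 𝒰, V ⊆ U) ∧
          (∀ n, ⋃₀ 𝒱 n = Set.univ) ∧
          ∀ x : {g : Ultrafilter κ → ℝ // Continuous g}, ∃ n, {V ∈ 𝒱 n | x ∈ V}.Countable := by
  classical
  refine ⟨{U | IsOpen U ∧ ∀ x y : κ, chi (Iio x) ∈ U → chi (Iio y) ∈ U → x = y},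
    fun U hU => hU.1, ?_, ?_⟩
  · rw [Set.sUnion_eq_univ_iff]
    intro g
    obtain ⟨U, hU1, hU2, hU3⟩ := sep_chi g
    exact ⟨U, ⟨hU1, hU3⟩, hU2⟩
  · rintro ⟨𝒱, h1, h2, h3⟩
    have hV : ∀ (n : ℕ) (x : κ), ∃ V ∈ 𝒱 n, chi (Iio x) ∈ V := by
      intro n x
      have := Set.sUnion_eq_univ_iff.mp (h2 n) (chi (Iio x))
      obtain ⟨V, hV, hxV⟩ := this
      exact ⟨V, hV, hxV⟩
    choose V hV1 hV2 using hV
    have hF : ∀ (n : ℕ) (x : κ), ∃ F : Set (Ultrafilter κ), F.Finite ∧
        ∀ A : Set κ, (∀ p ∈ F, (A ∈ p ↔ Iio x ∈ p)) → chi A ∈ V n x :=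
      fun n x => nbhd_chi _ _ (h1 n _ (hV1 n x)).1 (hV2 n x)
    choose F hF1 hF2 using hF
    obtain ⟨A, hA⟩ := hcomb F hF1
    obtain ⟨n, hn⟩ := h3 (chi A)
    apply hA n
    have hinj : Set.InjOn (V n) {x | ∀ p ∈ F n x, (A ∈ p ↔ Iio x ∈ p)} := by
      intro x _ y _ hxy
      obtain ⟨U, hU, hVU⟩ := (h1 n _ (hV1 n x)).2
      apply hU.2 x y (hVU (hV2 n x))
      rw [hxy] at hVU
      exact hVU (hV2 n y)
    apply Set.MapsTo.countable_of_injOn (t := {V ∈ 𝒱 n | chi A ∈ V}) _ hinj hn
    intro x hx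
    exact ⟨hV1 n x, hF2 n x A hx⟩

end Pool.Agent.H61
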