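import Mathlib

set_option autoImplicit false

namespace Pool.Agent.H61

open Set Topology Filter

/-- `S` is the continuous image of a closed subset of the product of a compact Hausdorff space
and a separable metrizable space (that is, `S` is a Lindelof Sigma subset). -/
def IsLS {Y : Type} [TopologicalSpace Y] (S : Set Y) : Prop :=
  ∃ (C M : Type) (_ : TopologicalSpace C) (_ : CompactSpace C) (_ : T2Space C)
    (_ : TopologicalSpace M) (_ : SecondCountableTopology M) (_ : T3Space M)
    (F : Set (C × M)) (g : C × M → Y), IsClosed F ∧ ContinuousOn g F ∧ g '' F = S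

theorem IsLS.image {Y Y' : Type} [TopologicalSpace Y] [TopologicalSpace Y'] {S : Set Y}
    (hS : IsLS S) (h : Y → Y') (hc : ContinuousOn h S) : IsLS (h '' S) := by
  obtain ⟨C, M, tC, cC, t2C, tM, scM, t3M, F, g, hF, hg, hgS⟩ := hS
  refine ⟨C, M, tC, cC, t2C, tM, scM, t3M, F, h ∘ g, hF, ?_, ?_⟩
  · apply hc.comp hg
    intro x hx
    rw [← hgS]
    exact ⟨x, hx, rfl⟩
  · rw [image_comp, hgS]

theorem IsLS.inter_closed {Y : Type} [TopologicalSpace Y] {S T : Set Y}
    (hS : IsLS S) (hT : IsClosed T) : IsLS (S ∩ T) := by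
  obtain ⟨C, M, tC, cC, t2C, tM, scM, t3M, F, g, hF, hg, hgS⟩ := hS
  refine ⟨C, M, tC, cC, t2C, tM, scM, t3M, F ∩ g ⁻¹' T, g,
    hg.preimage_isClosed_of_isClosed hF hT, hg.mono inter_subset_left, ?_⟩
  rw [image_inter_preimage, hgS]

theorem IsLS.prod {Y Y' : Type} [TopologicalSpace Y] [TopologicalSpace Y'] {S : Set Y}
    {S' : Set Y'} (hS : IsLS S) (hS' : IsLS S') : IsLS (S ×ˢ S') := by
  obtain ⟨C, M, tC, cC, t2C, tM, scM, t3M, F, g, hF, hg, hgS⟩ := hS
  obtain ⟨C', M', tC', cC', t2C', tM', scM', t3M', F', g', hF', hg', hgS'⟩ := hS'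
  refine ⟨C × C', M × M', inferInstance, inferInstance, inferInstance, inferInstance,
    inferInstance, inferInstance,
    {q | (q.1.1, q.2.1) ∈ F} ∩ {q | (q.1.2, q.2.2) ∈ F'},
    fun q => (g (q.1.1, q.2.1), g' (q.1.2, q.2.2)), ?_, ?_, ?_⟩
  · exact (hF.preimage (by fun_prop)).inter (hF'.preimage (by fun_prop))
  · apply ContinuousOn.prodMk
    · exact hg.comp (by fun_prop) (fun q hq => hq.1)
    · exact hg'.comp (by fun_prop) (fun q hq => hq.2)
  · ext ⟨y, y'⟩
    constructor
    · rintro ⟨q, ⟨h1, h2⟩, h3⟩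
      have h4 := congrArg Prod.fst h3
      have h5 := congrArg Prod.snd h3
      simp only at h4 h5
      refine ⟨?_, ?_⟩
      · rw [← hgS, ← h4]; exact ⟨_, h1, rfl⟩
      · rw [← hgS', ← h5]; exact ⟨_, h2, rfl⟩
    · rintro ⟨h1, h2⟩
      simp only at h1 h2
      rw [← hgS] at h1
      rw [← hgS'] at h2
      obtain ⟨⟨c, m⟩, hc, rfl⟩ := h1
      obtain ⟨⟨c', m'⟩, hc', rfl⟩ := h2
      exact ⟨((c, c'), (m, m')), ⟨hc, hc'⟩, rfl⟩

theorem IsLS.pi {Y : Type} [TopologicalSpace Y] {S : Set Y} (hS : IsLS S) :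
    IsLS {s : ℕ → Y | ∀ n, s n ∈ S} := by
  obtain ⟨C, M, tC, cC, t2C, tM, scM, t3M, F, g, hF, hg, hgS⟩ := hS
  refine ⟨ℕ → C, ℕ → M, inferInstance, inferInstance, inferInstance, inferInstance,
    inferInstance, inferInstance,
    {q | ∀ n, (q.1 n, q.2 n) ∈ F}, fun q n => g (q.1 n, q.2 n), ?_, ?_, ?_⟩
  · rw [ofPred_forall]
    exact isClosed_iInter fun n => hF.preimage (by fun_prop)
  · apply continuousOn_pi.mpr
    intro n
    exact hg.comp (by fun_prop) (fun q hq => hq n)
  · ext s
    constructor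
    · rintro ⟨q, h1, rfl⟩ n
      rw [← hgS]
      exact ⟨_, h1 n, rfl⟩
    · intro h
      have : ∀ n, ∃ x ∈ F, g x = s n := by
        intro n
        have := h n
        rw [← hgS] at this
        exact this
      choose x hx1 hx2 using this
      exact ⟨(fun n => (x n).1, fun n => (x n).2), hx1, funext hx2⟩

theorem IsLS.iUnion {Y : Type} [TopologicalSpace Y] {S : ℕ → Set Y} (hS : ∀ n, IsLS (S n))
    (hne : ∀ n, (S n).Nonempty) : IsLS (⋃ n, S n) := by
  classical
  choose C M tC cC t2C tM scM t3M F g hF hg hgS using hS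
  have hpt : ∀ n, ∃ x, x ∈ F n := by
    intro n
    obtain ⟨y, hy⟩ := hne n
    rw [← hgS] at hy
    obtain ⟨x, hx, _⟩ := hy
    exact ⟨x, hx⟩
  choose b hb using hpt
  refine ⟨∀ n, C n, ℕ × (∀ n, M n), inferInstance, inferInstance, inferInstance, inferInstance,
    inferInstance, inferInstance,
    {q | (q.1 q.2.1, q.2.2 q.2.1) ∈ F q.2.1}, fun q => g q.2.1 (q.1 q.2.1, q.2.2 q.2.1),
    ?_, ?_, ?_⟩
  · have : {q : (∀ n, C n) × ℕ × (∀ n, M n) | (q.1 q.2.1, q.2.2 q.2.1) ∈ F q.2.1} =
        ⋂ n, ({q | q.2.1 ≠ n} ∪ {q | (q.1 n, q.2.2 n) ∈ F n}) := by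
      ext q
      simp only [mem_ofPred_eq, mem_iInter, mem_union]
      constructor
      · intro h n
        by_cases hn : q.2.1 = n
        · right; subst hn; exact h
        · left; exact hn
      · intro h
        rcases h q.2.1 with h' | h'
        · exact absurd rfl h'
        · exact h'
    rw [this]
    apply isClosed_iInter
    intro n
    apply IsClosed.union
    · have : {q : (∀ n, C n) × ℕ × (∀ n, M n) | q.2.1 ≠ n} = (fun q => q.2.1) ⁻¹' {n}ᶜ := rfl
      rw [this]
      exact (isClosed_discrete _).preimage (by fun_prop)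
    · exact (hF n).preimage (by fun_prop)
  · intro q hq
    obtain ⟨c, n, m⟩ := q
    have hnhds : {q : (∀ n, C n) × ℕ × (∀ n, M n) | q.2.1 = n} ∈ 𝓝 (c, n, m) := by
      have : {q : (∀ n, C n) × ℕ × (∀ n, M n) | q.2.1 = n} = (fun q => q.2.1) ⁻¹' {n} := rfl
      rw [this]
      exact ((isOpen_discrete _).preimage (by fun_prop)).mem_nhds rfl
    rw [← continuousWithinAt_inter hnhds]
    have hc : ContinuousWithinAt (fun q : (∀ n, C n) × ℕ × (∀ n, M n) => g n (q.1 n, q.2.2 n))
        ({q | (q.1 q.2.1, q.2.2 q.2.1) ∈ F q.2.1} ∩ {q | q.2.1 = n}) (c, n, m) := by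
      have h0 : ContinuousWithinAt (g n) (F n)
          ((fun q : (∀ n, C n) × ℕ × (∀ n, M n) => (q.1 n, q.2.2 n)) (c, n, m)) := hg n _ hq
      refine ContinuousWithinAt.comp (f := fun q : (∀ n, C n) × ℕ × (∀ n, M n) =>
        (q.1 n, q.2.2 n)) h0 (by fun_prop) ?_
      rintro q ⟨h1, h2⟩
      simp only [mem_ofPred_eq] at h1 h2
      subst h2
      exact h1
    apply hc.congr
    · rintro q ⟨h1, h2⟩
      simp only [mem_ofPred_eq] at h2
      subst h2
      rfl
    · rfl
  · ext y
    constructor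
    · rintro ⟨q, hq, rfl⟩
      apply mem_iUnion.mpr
      refine ⟨q.2.1, ?_⟩
      rw [← hgS]
      exact ⟨_, hq, rfl⟩
    · intro hy
      obtain ⟨n, hn⟩ := mem_iUnion.mp hy
      rw [← hgS] at hn
      obtain ⟨⟨c, m⟩, hc, rfl⟩ := hn
      refine ⟨(Function.update (fun k => (b k).1) n c, n,
        Function.update (fun k => (b k).2) n m), ?_, ?_⟩
      · simp only [mem_ofPred_eq, Function.update_self]
        exact hc
      · simp only [Function.update_self]

theorem isLS_empty {Y : Type} [TopologicalSpace Y] : IsLS (∅ : Set Y) := by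
  rcases isEmpty_or_nonempty Y with hY | ⟨⟨y⟩⟩
  · refine ⟨Empty, Empty, ⊥, ⟨by simpa using isCompact_empty⟩, ⟨fun x => x.elim⟩, ⊥, ?_, ?_, ∅,
      fun q => q.1.elim, isClosed_empty, continuousOn_empty _, image_empty _⟩
    · exact @Finite.toSecondCountableTopology Empty ⊥ _
    · letI : TopologicalSpace Empty := ⊥
      haveI : DiscreteTopology Empty := ⟨rfl⟩
      infer_instance
  · exact ⟨Unit, Unit, inferInstance, inferInstance, inferInstance, inferInstance, inferInstance,
      inferInstance, ∅, fun _ => y, isClosed_empty, continuousOn_empty _, image_empty _⟩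

theorem IsLS.iUnion' {Y : Type} [TopologicalSpace Y] {S : ℕ → Set Y} (hS : ∀ n, IsLS (S n)) :
    IsLS (⋃ n, S n) := by
  classical
  by_cases h : ∃ n, (S n).Nonempty
  · obtain ⟨n0, h0⟩ := h
    have h1 : (⋃ n, S n) = ⋃ n, (if (S n).Nonempty then S n else S n0) := by
      apply Subset.antisymm
      · intro y hy
        obtain ⟨n, hn⟩ := mem_iUnion.mp hy
        refine mem_iUnion.mpr ⟨n, ?_⟩
        rw [if_pos ⟨y, hn⟩]
        exact hn
      · intro y hy
        obtain ⟨n, hn⟩ := mem_iUnion.mp hy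
        split_ifs at hn with h2
        · exact mem_iUnion.mpr ⟨n, hn⟩
        · exact mem_iUnion.mpr ⟨n0, hn⟩
    rw [h1]
    apply IsLS.iUnion
    · intro n
      split_ifs
      · exact hS n
      · exact hS n0
    · intro n
      split_ifs with h2
      · exact h2
      · exact h0
  · push Not at h
    have : (⋃ n, S n) = ∅ := by
      rw [iUnion_eq_empty]
      exact h
    rw [this]
    exact isLS_empty

theorem IsLS.union {Y : Type} [TopologicalSpace Y] {S S' : Set Y} (hS : IsLS S) (hS' : IsLS S') :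
    IsLS (S ∪ S') := by
  have h1 : S ∪ S' = ⋃ n : ℕ, (if n = 0 then S else S') := by
    apply Subset.antisymm
    · rintro y (hy | hy)
      · exact mem_iUnion.mpr ⟨0, by simpa using hy⟩
      · exact mem_iUnion.mpr ⟨1, by simpa using hy⟩
    · intro y hy
      obtain ⟨n, hn⟩ := mem_iUnion.mp hy
      split_ifs at hn with h2
      · exact Or.inl hn
      · exact Or.inr hn
  rw [h1]
  apply IsLS.iUnion'
  intro n
  split_ifs
  · exact hS
  · exact hS'

/-- Conversion to subsets of `(ι → [0,1]) × (ℕ → [0,1])`. -/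
theorem IsLS.cube {Y : Type} [TopologicalSpace Y] [Nonempty Y] {S : Set Y} (hS : IsLS S) :
    ∃ (ι : Type) (F : Set ((ι → unitInterval) × (ℕ → unitInterval)))
      (g : (ι → unitInterval) × (ℕ → unitInterval) → Y),
      F = closure F ∩ (Set.univ ×ˢ (Prod.snd '' F)) ∧ ContinuousOn g F ∧ g '' F = S := by
  classical
  obtain ⟨C, M, tC, cC, t2C, tM, scM, t3M, F, g, hF, hg, hgS⟩ := hS
  -- embedding of the compact factor
  let ι : Type := {f : C → unitInterval // Continuous f}
  let e : C → (ι → unitInterval) := fun c f => f.1 c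
  have hec : Continuous e := continuous_pi fun f => f.2
  have hei : Function.Injective e := by
    intro c c' h
    by_contra hne
    obtain ⟨f, hf1, hf2, hf3⟩ := exists_continuous_zero_one_of_isClosed
      (isClosed_singleton (x := c)) (isClosed_singleton (x := c'))
      (by simpa using hne)
    have h1 := congrFun h ⟨fun x => ⟨f x, hf3 x⟩, by fun_prop⟩
    have h2 : f c = 0 := hf1 rfl
    have h3 : f c' = 1 := hf2 rfl
    have h4 := congrArg Subtype.val h1
    simp only [e] at h4
    rw [h2, h3] at h4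
    exact zero_ne_one h4
  have hee : IsClosedEmbedding e := hec.isClosedEmbedding hei
  -- embedding of the metrizable factor
  obtain ⟨j, hj⟩ : ∃ j : M → (ℕ → unitInterval), IsEmbedding j := by
    let _ := TopologicalSpace.metrizableSpaceMetric M
    exact Metric.PiNatEmbed.exists_embedding_to_hilbert_cube (X := M)
  let ej : C × M → (ι → unitInterval) × (ℕ → unitInterval) := Prod.map e j
  have hej : IsEmbedding ej := hee.isEmbedding.prodMap hj
  refine ⟨ι, ej '' F, fun x => if h : ∃ p, ej p = x then g h.choose else Classical.arbitrary Y,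
    ?_, ?_, ?_⟩
  · apply Subset.antisymm
    · intro x hx
      refine ⟨subset_closure hx, mem_univ _, ?_⟩
      exact ⟨x, hx, rfl⟩
    · rintro ⟨x, h⟩ ⟨hx, _, ⟨_, ⟨⟨c0, m⟩, hm, rfl⟩, hxy⟩⟩
      simp only [ej, Prod.map] at hxy
      -- `x` is in the range of `e`
      have hxr : x ∈ range e := by
        rw [← hee.isClosed_range.closure_eq]
        have : (x, h) ∈ closure (Prod.fst ⁻¹' (range e) :
            Set ((ι → unitInterval) × (ℕ → unitInterval))) := by
          apply closure_mono _ hx
          rintro _ ⟨⟨c, m'⟩, _, rfl⟩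
          exact ⟨c, rfl⟩
        exact map_mem_closure continuous_fst this (fun y hy => hy)
      obtain ⟨c, rfl⟩ := hxr
      have h1 : ej (c, m) = (e c, h) := by
        simp only [ej, Prod.map, hxy]
      rw [← h1] at hx ⊢
      refine ⟨(c, m), ?_, rfl⟩
      have : (c, m) ∈ closure F := by
        rw [hej.closure_eq_preimage_closure_image]
        exact hx
      rwa [hF.closure_eq] at this
  · have hval : ∀ p, (if h : ∃ p', ej p' = ej p then g h.choose else Classical.arbitrary Y) = g p := by
      intro p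
      have hex : ∃ p', ej p' = ej p := ⟨p, rfl⟩
      rw [dif_pos hex]
      exact congrArg g (hej.injective hex.choose_spec)
    rintro _ ⟨p, hp, rfl⟩
    have h1 : 𝓝[ej '' F] (ej p) = map ej (𝓝[F] p) := by
      rw [hej.map_nhdsWithin_eq]
    unfold ContinuousWithinAt
    rw [h1, tendsto_map'_iff]
    have h2 : ((fun x => if h : ∃ p, ej p = x then g h.choose else Classical.arbitrary Y) ∘ ej)
        = g := funext hval
    rw [h2]
    simp only [hval]
    exact hg p hp
  · have hval : ∀ p, (if h : ∃ p', ej p' = ej p then g h.choose else Classical.arbitrary Y) = g p := by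
      intro p
      have hex : ∃ p', ej p' = ej p := ⟨p, rfl⟩
      rw [dif_pos hex]
      exact congrArg g (hej.injective hex.choose_spec)
    rw [← hgS, image_image]
    apply image_congr
    intro p _
    exact hval p

end Pool.Agent.H61
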