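import Pool.Agent.H61.Adm

set_option autoImplicit false

namespace Pool.Agent.H61

open Set Topology Filter Cardinal

variable {W : Type} [LinearOrder W]

/-- No sequence of distinct points of an admissible set can have parameters converging to a
parameter. -/
theorem no_accumulation {ι : Type} (F : Set ((ι → unitInterval) × (ℕ → unitInterval)))
    (g : (ι → unitInterval) × (ℕ → unitInterval) → (XX W → ℝ))
    (hF : F = closure F ∩ (Set.univ ×ˢ (Prod.snd '' F))) (hg : ContinuousOn g F)
    (hgF : g '' F = {f : XX W → ℝ | Continuous f})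
    (p : Pt W → (ι → unitInterval) × (ℕ → unitInterval)) (hp : ∀ k, p k ∈ F)
    (hpr : ∀ k, g (p k) = pr k)
    (k : ℕ → Pt W) (hk : Function.Injective k)
    (hadm : ∀ K : Pt W → Bool, (∀ x, K x = true → ∃ i, x = k i) → Adm K)
    (m : ℕ → unitInterval) (hm : m ∈ Prod.snd '' F)
    (hlim : Tendsto (fun i => (p (k i)).2) atTop (𝓝 m)) : False := by
  classical
  let U : Ultrafilter ℕ := hyperfilter ℕ
  have hU : (U : Filter ℕ) ≤ atTop := by
    rw [← Nat.cofinite_eq_atTop]
    exact hyperfilter_le_cofinite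
  -- cluster point in the compact factor
  obtain ⟨c, _, hc⟩ := (isCompact_univ (X := ι → unitInterval)).ultrafilter_le_nhds
    (U.map fun i => (p (k i)).1) (by simp)
  have hc' : Tendsto (fun i => (p (k i)).1) U (𝓝 c) := hc
  have hcm : Tendsto (fun i => p (k i)) U (𝓝 (c, m)) := by
    have := hc'.prodMk_nhds (hlim.mono_left hU)
    simpa using this
  have hcmF : (c, m) ∈ F := by
    rw [hF]
    refine ⟨mem_closure_of_tendsto hcm (Eventually.of_forall fun i => hp _), mem_univ _, hm⟩
  have hgt : Tendsto (fun i => g (p (k i))) U (𝓝 (g (c, m))) := by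
    have h1 : Tendsto (fun i => p (k i)) U (𝓝[F] (c, m)) :=
      tendsto_nhdsWithin_iff.mpr ⟨hcm, Eventually.of_forall fun i => hp _⟩
    exact (hg (c, m) hcmF).tendsto.comp h1
  have hq : Continuous (g (c, m)) := by
    have : g (c, m) ∈ {f : XX W → ℝ | Continuous f} := by
      rw [← hgF]; exact ⟨_, hcmF, rfl⟩
    exact this
  have hev : ∀ L : XX W, Tendsto (fun i => pr (k i) L) U (𝓝 (g (c, m) L)) := by
    intro L
    have h1 := (tendsto_pi_nhds.mp hgt) L
    refine h1.congr ?_
    intro i
    rw [hpr]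
  -- the limit set and its finite pieces
  let Linf : XX W := ⟨fun x => decide (∃ i, x = k i), hadm _ (fun x hx => by simpa using hx)⟩
  let L : ℕ → XX W := fun n => ⟨fun x => decide (∃ i < n, x = k i),
    hadm _ (fun x hx => by
      simp only [decide_eq_true_eq] at hx
      obtain ⟨i, _, hi⟩ := hx
      exact ⟨i, hi⟩)⟩
  have h1 : g (c, m) Linf = 1 := by
    have h2 := hev Linf
    have h3 : (fun i => pr (k i) Linf) = fun _ => (1 : ℝ) := by
      funext i
      simp [pr, Linf]
    rw [h3] at h2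
    exact (tendsto_nhds_unique h2 tendsto_const_nhds)
  have h0 : ∀ n, g (c, m) (L n) = 0 := by
    intro n
    have h2 := hev (L n)
    have h3 : (fun i => pr (k i) (L n)) =ᶠ[atTop] fun _ => (0 : ℝ) := by
      filter_upwards [eventually_ge_atTop n] with i hi
      have : ¬ ∃ j < n, k i = k j := by
        rintro ⟨j, hj, hij⟩
        have := hk hij
        omega
      simp [pr, L, this]
    have h4 : Tendsto (fun i => pr (k i) (L n)) U (𝓝 0) :=
      (tendsto_const_nhds.congr' h3.symm).mono_left hU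
    exact tendsto_nhds_unique h2 h4
  have hLlim : Tendsto L atTop (𝓝 Linf) := by
    apply tendsto_XX
    intro x
    by_cases hx : ∃ i, x = k i
    · obtain ⟨i, hi⟩ := hx
      refine tendsto_const_nhds.congr' ?_
      filter_upwards [eventually_gt_atTop i] with n hn
      have h5 : ∃ j, x = k j := ⟨i, hi⟩
      have h6 : ∃ j < n, x = k j := ⟨i, hn, hi⟩
      simp only [Linf, L, h5, h6]
    · refine tendsto_const_nhds.congr' ?_
      filter_upwards with n
      have h6 : ¬ ∃ j < n, x = k j := fun ⟨j, _, hj⟩ => hx ⟨j, hj⟩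
      simp only [Linf, L, hx, h6]
  have h7 : Tendsto (fun n => g (c, m) (L n)) atTop (𝓝 (g (c, m) Linf)) :=
    (hq.tendsto Linf).comp hLlim
  rw [h1] at h7
  simp only [h0] at h7
  exact zero_ne_one (tendsto_nhds_unique tendsto_const_nhds h7)

/-- Diagonalisation: a subset `B` of the Cantor space which is not a projection of the part over
`M` of a closed set. -/
theorem exists_bad (H : Type) [TopologicalSpace H] [SecondCountableTopology H] (M : Set H) :
    ∃ B : Set Can, ∀ C : Set (Can × H), IsClosed C → B ≠ {y | ∃ m ∈ M, (y, m) ∈ C} := by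
  classical
  obtain ⟨b, hbc, -, hb⟩ := TopologicalSpace.exists_countable_basis (Can × H)
  rcases b.eq_empty_or_nonempty with hbe | hbne
  · -- the product is empty, impossible unless `H` is empty
    refine ⟨univ, fun C _ h => ?_⟩
    have h1 : (fun _ => false : Can) ∈ (univ : Set Can) := mem_univ _
    rw [h] at h1
    obtain ⟨m, _, _⟩ := h1
    obtain ⟨u, hu, _, _⟩ := hb.mem_nhds_iff.mp (univ_mem (α := Can × H) (f := 𝓝 (fun _ => false, m)))
    rw [hbe] at hu
    exact hu
  obtain ⟨U, hU⟩ := hbc.exists_eq_range hbne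
  let D : Can → Set Can := fun s => {y | ∃ m ∈ M, (y, m) ∉ ⋃ n, ⋃ (_ : s n = true), U n}
  have hD : ¬ Function.Surjective D := Function.cantor_surjective D
  unfold Function.Surjective at hD
  push Not at hD
  obtain ⟨B, hB⟩ := hD
  refine ⟨B, fun C hC h => ?_⟩
  apply hB (fun n => decide (U n ∩ C = ∅))
  rw [h]
  ext y
  simp only [D, mem_ofPred_eq, decide_eq_true_eq, mem_iUnion, exists_prop, not_exists, not_and]
  constructor
  · rintro ⟨m, hm, h1⟩
    refine ⟨m, hm, ?_⟩
    by_contra hym
    have hmem : Cᶜ ∈ 𝓝 (y, m) := hC.isOpen_compl.mem_nhds hym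
    obtain ⟨u, hu, hyu, huC⟩ := hb.mem_nhds_iff.mp hmem
    rw [hU] at hu
    obtain ⟨n, rfl⟩ := hu
    apply h1 n _ hyu
    rw [Set.eq_empty_iff_forall_notMem]
    rintro x ⟨hx1, hx2⟩
    exact huC hx1 hx2
  · rintro ⟨m, hm, h1⟩
    refine ⟨m, hm, fun n hn hyn => ?_⟩
    have : (y, m) ∈ U n ∩ C := ⟨hyn, h1⟩
    rw [hn] at this
    exact this

theorem not_gulko [WellFoundedLT W] (hW : 𝔠 < Cardinal.mk W) :
    ¬ ∃ (ι : Type) (F : Set ((ι → unitInterval) × (ℕ → unitInterval)))
      (g : (ι → unitInterval) × (ℕ → unitInterval) → (XX W → ℝ)),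
      F = closure F ∩ (Set.univ ×ˢ (Prod.snd '' F)) ∧ ContinuousOn g F ∧
      g '' F = {f : XX W → ℝ | Continuous f} := by
  classical
  rintro ⟨ι, F, g, hF, hg, hgF⟩
  have hp : ∀ k : Pt W, ∃ p ∈ F, g p = pr k := by
    intro k
    have : pr k ∈ {f : XX W → ℝ | Continuous f} := continuous_pr k
    rw [← hgF] at this
    exact this
  choose p hp hpr using hp
  let M : Set (ℕ → unitInterval) := Prod.snd '' F
  obtain ⟨B, hB⟩ := exists_bad (ℕ → unitInterval) M
  have hbas : ∀ m : ℕ → unitInterval, ∃ V : ℕ → Set (ℕ → unitInterval),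
      (𝓝 m).HasAntitoneBasis V := fun m => (𝓝 m).exists_antitone_basis
  choose V hV using hbas
  -- the data attached to a node
  have hdata : ∀ (a : W) (f : W → Can), ∃ d : Can × (ℕ → unitInterval) × (ℕ → Can),
      d.1 ∉ B ∧ d.2.1 ∈ M ∧ (∀ i, d.2.2 i ∈ B) ∧
      (∀ i, (p ⟨B, d.2.2 i, a, f⟩).2 ∈ V d.2.1 i) ∧
      (∀ i j, i ≠ j → PiNat.firstDiff (d.2.2 i) d.1 ≠ PiNat.firstDiff (d.2.2 j) d.1) := by
    intro a f
    let ψ : Can → (ℕ → unitInterval) := fun z => (p ⟨B, z, a, f⟩).2
    have hψM : ∀ z, ψ z ∈ M := fun z => ⟨_, hp _, rfl⟩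
    let G : Set (Can × (ℕ → unitInterval)) := {q | ∃ z ∈ B, q = (z, ψ z)}
    have h1 := hB (closure G) isClosed_closure
    have h2 : B ⊆ {y | ∃ m ∈ M, (y, m) ∈ closure G} := by
      intro z hz
      exact ⟨ψ z, hψM z, subset_closure ⟨z, hz, rfl⟩⟩
    have h3 : ¬ ({y | ∃ m ∈ M, (y, m) ∈ closure G} ⊆ B) := fun h => h1 (Subset.antisymm h2 h)
    rw [not_subset] at h3
    obtain ⟨y, ⟨m, hm, hym⟩, hyB⟩ := h3
    have h4 : ∀ N i : ℕ, ∃ z ∈ B, N ≤ PiNat.firstDiff z y ∧ ψ z ∈ V m i := by
      intro N i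
      have hn : (PiNat.cylinder y N) ×ˢ (V m i) ∈ 𝓝 (y, m) :=
        prod_mem_nhds ((PiNat.isOpen_cylinder (fun _ => Bool) y N).mem_nhds
          (PiNat.self_mem_cylinder y N)) ((hV m).mem i)
      obtain ⟨q, hq1, z, hz, rfl⟩ := mem_closure_iff_nhds.mp hym _ hn
      refine ⟨z, hz, ?_, hq1.2⟩
      have hzy : z ≠ y := fun h => hyB (h ▸ hz)
      exact (PiNat.mem_cylinder_iff_le_firstDiff hzy N).mp hq1.1
    choose Z hZ1 hZ2 hZ3 using h4
    let s : ℕ → Can := fun n => Nat.rec (Z 0 0) (fun i x => Z (PiNat.firstDiff x y + 1) (i + 1)) n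
    have hs : ∀ i, s (i + 1) = Z (PiNat.firstDiff (s i) y + 1) (i + 1) := fun i => rfl
    have hsB : ∀ i, s i ∈ B := by
      intro i
      cases i with
      | zero => exact hZ1 _ _
      | succ i => rw [hs]; exact hZ1 _ _
    have hsV : ∀ i, ψ (s i) ∈ V m i := by
      intro i
      cases i with
      | zero => exact hZ3 _ _
      | succ i => rw [hs]; exact hZ3 _ _
    have hsm : StrictMono (fun i => PiNat.firstDiff (s i) y) := by
      apply strictMono_nat_of_lt_succ
      intro i
      have := hZ2 (PiNat.firstDiff (s i) y + 1) (i + 1)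
      rw [← hs] at this
      exact this
    exact ⟨(y, m, s), hyB, hm, hsB, hsV, fun i j hij h => hij (hsm.injective h)⟩
  choose d hd1 hd2 hd3 hd4 hd5 using hdata
  -- the recursive construction of the branch
  have wf : WellFounded (fun x y : W => x < y) := wellFounded_lt
  let Fr : (a : W) → ((b : W) → b < a → Can) → Can := fun a ih =>
    (d a (fun b => if h : b < a then ih b h else fun _ => false)).1
  let f : W → Can := wf.fix Fr
  let tr : W → W → Can := fun a b => if b < a then f b else fun _ => false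
  have hf : ∀ a, f a = (d a (tr a)).1 := by
    intro a
    change wf.fix Fr a = _
    rw [wf.fix_eq]
    change (d a (fun b => if h : b < a then f b else fun _ => false)).1 = _
    have : (fun b => if h : b < a then f b else fun _ => false) = tr a := by
      funext b
      simp only [tr]
      split_ifs <;> rfl
    rw [this]
  -- pigeonhole
  let χ : W → Can × (ℕ → unitInterval) × (ℕ → Can) := fun a => d a (tr a)
  have hcard : Cardinal.mk (Can × (ℕ → unitInterval) × (ℕ → Can)) < Cardinal.mk W := by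
    refine lt_of_le_of_lt (le_of_eq ?_) hW
    have hc1 : Cardinal.mk Can = 𝔠 := by simp
    have hc2 : Cardinal.mk (ℕ → unitInterval) = 𝔠 := by
      rw [← power_def, mk_nat]
      have : Cardinal.mk unitInterval = 𝔠 := by
        have := Cardinal.mk_Icc_real (a := 0) (b := 1) (by norm_num)
        exact this
      rw [this, continuum_power_aleph0]
    have hc3 : Cardinal.mk (ℕ → Can) = 𝔠 := by
      rw [← power_def, mk_nat, hc1, continuum_power_aleph0]
    rw [mk_prod, mk_prod, lift_id, lift_id, lift_id, lift_id, hc1, hc2, hc3]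
    simp
  have hWinf : Infinite W := by
    rw [infinite_iff]
    exact (aleph0_le_continuum.trans hW.le)
  obtain ⟨d0, hd0⟩ := exists_infinite_fiber χ hcard
  let e : ℕ ↪ (χ ⁻¹' {d0}) := Infinite.natEmbedding _
  let as : ℕ → W := fun i => (e i).1
  have has : Function.Injective as := fun i j h => e.injective (Subtype.ext h)
  have hχ : ∀ i, d (as i) (tr (as i)) = d0 := fun i => (e i).2
  have hfas : ∀ i, f (as i) = d0.1 := by
    intro i
    rw [hf, hχ]
  have hyB : d0.1 ∉ B := by
    have := hd1 (as 0) (tr (as 0))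
    rwa [hχ] at this
  have hmM : d0.2.1 ∈ M := by
    have := hd2 (as 0) (tr (as 0))
    rwa [hχ] at this
  have hzB : ∀ i, d0.2.2 i ∈ B := by
    have := hd3 (as 0) (tr (as 0))
    rwa [hχ] at this
  have hzd : ∀ i j, i ≠ j →
      PiNat.firstDiff (d0.2.2 i) d0.1 ≠ PiNat.firstDiff (d0.2.2 j) d0.1 := by
    have := hd5 (as 0) (tr (as 0))
    rwa [hχ] at this
  let k : ℕ → Pt W := fun i => ⟨B, d0.2.2 i, as i, tr (as i)⟩
  have hk : Function.Injective k := fun i j h => has (congrArg Pt.a h)
  have hbelow : ∀ i j, as i < as j → Below d0.1 (k i) (k j) := by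
    intro i j hij
    refine ⟨hij, ?_, ?_⟩
    · intro b hb
      change tr (as i) b = tr (as j) b
      have hb' : b < as i := hb
      simp only [tr, hb', hb'.trans hij, if_true]
    · change tr (as j) (as i) = d0.1
      simp only [tr, hij, if_true]
      exact hfas i
  refine no_accumulation F g hF hg hgF p hp hpr k hk ?_ d0.2.1 hmM ?_
  · intro K hK
    refine ⟨?_, d0.1, ?_⟩
    · intro x hx
      obtain ⟨i, rfl⟩ := hK x hx
      exact hzB i
    · intro x x' hx hx' hne
      obtain ⟨i, rfl⟩ := hK x hx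
      obtain ⟨j, rfl⟩ := hK x' hx'
      have hij : i ≠ j := fun h => hne (by rw [h])
      refine ⟨rfl, hyB, hzd i j hij, ?_⟩
      rcases lt_trichotomy (as i) (as j) with h | h | h
      · exact Or.inl (hbelow i j h)
      · exact absurd (has h) hij
      · exact Or.inr (hbelow j i h)
  · apply (hV d0.2.1).tendsto
    intro i
    have := hd4 (as i) (tr (as i)) i
    rw [hχ] at this
    exact this

end Pool.Agent.H61
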