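import Mathlib

set_option autoImplicit false

namespace Pool.Agent.H61.SD

/-- A rate function (only its values at arguments `n` with `1 ≤ n` matter): positive,
nondecreasing, unbounded and scaling invariant. -/
structure IsRateFunction (f : ℕ → ℝ) : Prop where
  pos : ∀ n : ℕ, 1 ≤ n → 0 < f n
  mono : ∀ m n : ℕ, 1 ≤ m → m ≤ n → f m ≤ f n
  unbounded : ∀ R : ℝ, ∃ n : ℕ, 1 ≤ n ∧ R < f n
  scaling : ∀ M : ℕ, 1 ≤ M → ∃ c C : ℝ, 0 < c ∧ c ≤ C ∧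
    ∃ N₀ : ℕ, ∀ N : ℕ, 1 ≤ N → N₀ ≤ N → c * f N ≤ f (M * N) ∧ f (M * N) ≤ C * f N

/-- The relation `f ≼ g` on functions of a positive integer variable. -/
def RateLE (f g : ℕ → ℝ) : Prop :=
  ∃ C : ℝ, 1 ≤ C ∧ ∃ M : ℕ, 1 ≤ M ∧ ∃ N₀ : ℕ,
    ∀ N : ℕ, 1 ≤ N → N₀ ≤ N → f N ≤ C * g (M * N) + C

/-- The equivalence `f ≃ g`. -/
def RateEquiv (f g : ℕ → ℝ) : Prop := RateLE f g ∧ RateLE g f

/-- The family of points `p n`, `n ∈ I`, is `f`-distorted. -/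
def IsDistorted {X : Type*} [MetricSpace X] (I : Set ℤ) (f : ℕ → ℝ) (p : ℤ → X) : Prop :=
  ∃ A B : ℝ, 0 < A ∧ 0 < B ∧ ∃ N₀ : ℕ, 1 ≤ N₀ ∧ ∀ m ∈ I, ∀ n ∈ I, N₀ ≤ (n - m).natAbs →
    A * f (n - m).natAbs ≤ dist (p n) (p m) ∧ dist (p n) (p m) ≤ B * f (n - m).natAbs

/-- `f` is realizable in `X` with index set `I`. -/
def Realizable (I : Set ℤ) (f : ℕ → ℝ) (X : Type*) [MetricSpace X] : Prop :=
  ∃ p : ℤ → X, IsDistorted I f p

/-- The class of the rate function `f` belongs to the sequence distortion spectrum of `X` with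
index set `I`: some rate function equivalent to `f` is realizable. -/
def InSpectrum (I : Set ℤ) (f : ℕ → ℝ) (X : Type*) [MetricSpace X] : Prop :=
  ∃ g : ℕ → ℝ, IsRateFunction g ∧ RateEquiv f g ∧ Realizable I g X

/-- The index set `{1, 2, 3, ...}`. -/
def indexN : Set ℤ := {n | 1 ≤ n}

/-- The index set of all integers. -/
def indexZ : Set ℤ := Set.univ

/-- For some `α > β`, `f` satisfies
`c * (n / m) ^ α * f m ≤ f n ≤ C * (n / m) * f m` for all large `m ≤ n`; in other words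
`f n / n ^ α` is almost increasing and `f n / n` is almost decreasing. -/
def GrowthBetween (β : ℝ) (f : ℕ → ℝ) : Prop :=
  ∃ α : ℝ, β < α ∧ ∃ c C : ℝ, 0 < c ∧ ∃ N₀ : ℕ, ∀ m n : ℕ, 1 ≤ m → N₀ ≤ m → m ≤ n →
    c * ((n : ℝ) / m) ^ α * f m ≤ f n ∧ f n ≤ C * ((n : ℝ) / m) * f m

/-- `f` is equivalent to the linear rate: `c * n ≤ f n ≤ C * n` for all large `n`. -/
def LinearGrowth (f : ℕ → ℝ) : Prop :=
  ∃ c C : ℝ, 0 < c ∧ ∃ N₀ : ℕ, ∀ n : ℕ, 1 ≤ n → N₀ ≤ n → c * n ≤ f n ∧ f n ≤ C * n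

end Pool.Agent.H61.SD
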