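import Mathlib
import Pool.Agent.H61.SDDefs

set_option autoImplicit false

open Metric Set

namespace Pool.Agent.H61.SD

section curve

variable {E : Type*} [NormedAddCommGroup E] [InnerProductSpace ℝ E]

/-- A polygonal pattern from `0` to `s • e` with `M` unit edges. -/
structure IsPat (e : E) (M : ℕ) (s : ℝ) (γ : ℕ → E) : Prop where
  zero : γ 0 = 0
  first : γ 1 = e
  last : γ M = s • e
  unit : ∀ d < M, ‖γ (d + 1) - γ d‖ = 1
  dia : ∀ d < M, ∀ T : ℝ, 0 ≤ T → T ≤ 1 → ∃ T' : ℝ, 0 ≤ T' ∧ T' ≤ s ∧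
    ‖γ d + T • (γ (d + 1) - γ d) - T' • e‖ + min T (1 - T) / 4 ≤ min T' (s - T') / 4
  far : ∀ d d', d + 2 ≤ d' → d' < M → ∀ T T' : ℝ, 0 ≤ T → T ≤ 1 → 0 ≤ T' → T' ≤ 1 →
    1 ≤ ‖(γ d + T • (γ (d + 1) - γ d)) - (γ d' + T' • (γ (d' + 1) - γ d'))‖
  adj : ∀ d, d + 1 < M → 0 ≤ inner ℝ (γ (d + 1) - γ d) (γ (d + 1 + 1) - γ (d + 1))
  one_le : 1 ≤ s

/-- A linear isometry sending `e` to `v` (identity when `v = e`). -/
noncomputable def rot (e v : E) : E ≃ₗᵢ[ℝ] E :=
  open Classical in
  if v = e then LinearIsometryEquiv.refl ℝ E else (ℝ ∙ (e - v))ᗮ.reflection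

lemma rot_self (e : E) (x : E) : rot e e x = x := by
  simp [rot]

lemma rot_apply {e v : E} (h : ‖e‖ = ‖v‖) : rot e v e = v := by
  unfold rot
  split_ifs with h1
  · simp [h1]
  · exact Submodule.reflection_sub h

/-- Elementary cone estimate. -/
lemma norm_ge_of_inner {v v' : E} (hv : ‖v‖ = 1) (hv' : ‖v'‖ = 1) (h : 0 ≤ inner ℝ v v')
    {t t' : ℝ} (ht : 0 ≤ t) (ht' : 0 ≤ t') : t ≤ ‖t • v + t' • v'‖ ∧ t' ≤ ‖t • v + t' • v'‖ := by
  have h1 : ‖t • v + t' • v'‖ ^ 2 = t ^ 2 + 2 * (t * t' * inner ℝ v v') + t' ^ 2 := by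
    rw [norm_add_sq_real, norm_smul, norm_smul, hv, hv', real_inner_smul_left,
      real_inner_smul_right]
    simp only [Real.norm_eq_abs, mul_one, sq_abs]
    ring
  have h2 : 0 ≤ t * t' * inner ℝ v v' := by positivity
  constructor
  · apply le_of_sq_le_sq _ (norm_nonneg _) |> fun h => h
    nlinarith [sq_nonneg t']
  · apply le_of_sq_le_sq _ (norm_nonneg _) |> fun h => h
    nlinarith [sq_nonneg t]

lemma cone_sep {v v' z z' : E} (hv : ‖v‖ = 1) (hv' : ‖v'‖ = 1) (h : 0 ≤ inner ℝ v v')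
    {t t' : ℝ} (ht : 0 ≤ t) (ht' : 0 ≤ t') (hz : ‖z + t • v‖ ≤ t / 4)
    (hz' : ‖z' - t' • v'‖ ≤ t' / 4) :
    2 / 5 * ‖z‖ ≤ ‖z' - z‖ ∧ 2 / 5 * ‖z'‖ ≤ ‖z' - z‖ := by
  obtain ⟨h1, h2⟩ := norm_ge_of_inner hv hv' h ht ht'
  have h3 : ‖t • v + t' • v'‖ ≤ ‖z' - z‖ + t / 4 + t' / 4 := by
    have e : t • v + t' • v' = (z' - z) + (z + t • v) - (z' - t' • v') := by abel
    rw [e]
    have h4 := norm_sub_le ((z' - z) + (z + t • v)) (z' - t' • v')
    have h5 := norm_add_le (z' - z) (z + t • v)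
    linarith
  have h6 : ‖z‖ ≤ 5 / 4 * t := by
    have e : z = (z + t • v) - t • v := by abel
    have h7 := norm_sub_le (z + t • v) (t • v)
    rw [← e, norm_smul, hv, Real.norm_of_nonneg ht, mul_one] at h7
    linarith
  have h8 : ‖z'‖ ≤ 5 / 4 * t' := by
    have e : z' = (z' - t' • v') + t' • v' := by abel
    have h7 := norm_add_le (z' - t' • v') (t' • v')
    rw [← e, norm_smul, hv', Real.norm_of_nonneg ht', mul_one] at h7
    linarith
  constructor <;> linarith

namespace IsPat

variable {e : E} {M : ℕ} {s : ℝ} {γ : ℕ → E}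

lemma startfar (h : IsPat e M s γ) (he : ‖e‖ = 1) {d : ℕ} (hd : 1 ≤ d) (hdM : d < M) {T : ℝ}
    (hT : 0 ≤ T) (hT1 : T ≤ 1) : 1 ≤ ‖γ d + T • (γ (d + 1) - γ d)‖ := by
  rcases Nat.lt_or_ge d 2 with h2 | h2
  · obtain rfl : d = 1 := by omega
    have h3 := h.adj 0 (by omega)
    have h4 := h.unit 1 hdM
    simp only [zero_add, h.zero, sub_zero] at h3
    have h5 := (norm_ge_of_inner (by rw [h.first, he]) h4 h3 zero_le_one hT).1
    rwa [one_smul] at h5
  · have h3 := h.far 0 d (by omega) hdM 0 T le_rfl zero_le_one hT hT1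
    rw [h.zero, zero_smul, zero_add, zero_sub, norm_neg] at h3
    exact h3

lemma endfar (h : IsPat e M s γ) {d : ℕ} (hdM : d + 1 < M) {T : ℝ}
    (hT : 0 ≤ T) (hT1 : T ≤ 1) : 1 ≤ ‖s • e - (γ d + T • (γ (d + 1) - γ d))‖ := by
  rcases Nat.lt_or_ge (d + 2) M with h2 | h2
  · obtain ⟨N, rfl⟩ : ∃ N, M = N + 1 := ⟨M - 1, by omega⟩
    have h3 := h.far d N (by omega) (by omega) T 1 hT hT1 zero_le_one le_rfl
    rw [one_smul, add_sub_cancel, h.last, norm_sub_rev] at h3
    exact h3
  · obtain rfl : M = d + 2 := by omega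
    have h3 := h.adj d (by omega)
    have h4 := h.unit d (by omega)
    have h5 := h.unit (d + 1) (by omega)
    have h6 := (norm_ge_of_inner h4 h5 h3 (sub_nonneg.2 hT1) zero_le_one).2
    have e1 : s • e - (γ d + T • (γ (d + 1) - γ d)) =
        (1 - T) • (γ (d + 1) - γ d) + (1 : ℝ) • (γ (d + 1 + 1) - γ (d + 1)) := by
      rw [← h.last, sub_smul, one_smul, one_smul]
      abel
    rw [e1]
    exact h6

end IsPat

/-- The scales. -/
noncomputable def SS (s : ℕ → ℝ) : ℕ → ℝ
  | 0 => 1
  | J + 1 => SS s J * s J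

/-- The finite stage curves. -/
noncomputable def PP (e : E) (M : ℕ) (γ : ℕ → ℕ → E) (S : ℕ → ℝ) : ℕ → ℕ → E
  | 0, n => (n : ℝ) • e
  | J + 1, n => S J • γ J (n / M ^ J) +
      rot e (γ J (n / M ^ J + 1) - γ J (n / M ^ J)) (PP e M γ S J (n % M ^ J))

section main

variable {e : E} {M : ℕ} {s : ℕ → ℝ} {γ : ℕ → ℕ → E}

lemma SS_pos (hpat : ∀ J, IsPat e M (s J) (γ J)) (J : ℕ) : 0 < SS s J := by
  induction J with
  | zero => simp [SS]
  | succ J ih => simp only [SS]; exact mul_pos ih (by linarith [(hpat J).one_le])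

lemma SS_mono (hpat : ∀ J, IsPat e M (s J) (γ J)) : Monotone (SS s) := by
  apply monotone_nat_of_le_succ
  intro J
  simp only [SS]
  have := SS_pos hpat J
  nlinarith [(hpat J).one_le]

lemma decomp {M J n : ℕ} (hM : 1 ≤ M) (hn : n ≤ M ^ (J + 1)) :
    ∃ d < M, ∃ a ≤ M ^ J, n = d * M ^ J + a := by
  have hMJ : 0 < M ^ J := Nat.pow_pos hM
  rcases Nat.lt_or_ge n (M ^ (J + 1)) with h | h
  · refine ⟨n / M ^ J, ?_, n % M ^ J, (Nat.mod_lt _ hMJ).le, ?_⟩
    · rw [Nat.div_lt_iff_lt_mul hMJ]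
      rwa [pow_succ, mul_comm] at h
    · rw [mul_comm]; exact (Nat.div_add_mod n (M ^ J)).symm
  · refine ⟨M - 1, by omega, M ^ J, le_rfl, ?_⟩
    have : n = M ^ (J + 1) := le_antisymm hn h
    rw [this, pow_succ]
    obtain ⟨N, rfl⟩ : ∃ N, M = N + 1 := ⟨M - 1, by omega⟩
    simp only [Nat.add_sub_cancel]
    ring

lemma PP_zero (hpat : ∀ J, IsPat e M (s J) (γ J)) (J : ℕ) : PP e M γ (SS s) J 0 = 0 := by
  induction J with
  | zero => simp [PP]
  | succ J ih => simp [PP, ih, (hpat J).zero]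

lemma PP_end (hM : 1 ≤ M) (hpat : ∀ J, IsPat e M (s J) (γ J)) (J : ℕ) :
    PP e M γ (SS s) J (M ^ J) = SS s J • e := by
  cases J with
  | zero => simp [PP, SS]
  | succ J =>
    have hMJ : 0 < M ^ J := Nat.pow_pos hM
    have h1 : M ^ (J + 1) / M ^ J = M := by
      rw [pow_succ, Nat.mul_div_cancel_left _ hMJ]
    have h2 : M ^ (J + 1) % M ^ J = 0 := by
      rw [pow_succ, Nat.mul_mod_right]
    simp only [PP, h1, h2, PP_zero hpat, map_zero, add_zero, (hpat J).last, SS, smul_smul]

lemma PP_block (he : ‖e‖ = 1) (hM : 1 ≤ M) (hpat : ∀ J, IsPat e M (s J) (γ J)) (J : ℕ)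
    {d a : ℕ} (hd : d < M) (ha : a ≤ M ^ J) :
    PP e M γ (SS s) (J + 1) (d * M ^ J + a) =
      SS s J • γ J d + rot e (γ J (d + 1) - γ J d) (PP e M γ (SS s) J a) := by
  have hMJ : 0 < M ^ J := Nat.pow_pos hM
  rcases Nat.lt_or_ge a (M ^ J) with h | h
  · have h1 : (d * M ^ J + a) / M ^ J = d := by
      rw [mul_comm, Nat.mul_add_div hMJ, Nat.div_eq_of_lt h, add_zero]
    have h2 : (d * M ^ J + a) % M ^ J = a := by
      rw [mul_comm, Nat.mul_add_mod, Nat.mod_eq_of_lt h]
    simp only [PP, h1, h2]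
  · have h0 : a = M ^ J := le_antisymm ha h
    subst h0
    have e0 : d * M ^ J + M ^ J = (d + 1) * M ^ J := by ring
    have h1 : (d * M ^ J + M ^ J) / M ^ J = d + 1 := by
      rw [e0, Nat.mul_div_cancel _ hMJ]
    have h2 : (d * M ^ J + M ^ J) % M ^ J = 0 := by
      rw [e0, Nat.mul_mod_left]
    rw [PP_end hM hpat]
    simp only [PP, h1, h2, PP_zero hpat, map_zero, add_zero, map_smul]
    rw [rot_apply (by rw [he, (hpat J).unit d hd]), ← smul_add]
    congr 1
    abel

lemma PP_ext (he : ‖e‖ = 1) (hM : 1 ≤ M) (hpat : ∀ J, IsPat e M (s J) (γ J)) (J : ℕ)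
    {a : ℕ} (ha : a ≤ M ^ J) : PP e M γ (SS s) (J + 1) a = PP e M γ (SS s) J a := by
  have h1 := PP_block he hM hpat J (d := 0) (by omega) ha
  simp only [zero_mul, zero_add, (hpat J).zero, (hpat J).first, sub_zero, smul_zero,
    rot_self] at h1
  exact h1

lemma PP_stable (he : ‖e‖ = 1) (hM : 1 ≤ M) (hpat : ∀ J, IsPat e M (s J) (γ J)) {J J' : ℕ}
    (hJ : J ≤ J') {a : ℕ} (ha : a ≤ M ^ J) :
    PP e M γ (SS s) J' a = PP e M γ (SS s) J a := by
  induction J', hJ using Nat.le_induction with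
  | base => rfl
  | succ K hK ih =>
    rw [PP_ext he hM hpat K (ha.trans (Nat.pow_le_pow_right hM hK)), ih]

/-- Diamond property. -/
lemma PP_dia (he : ‖e‖ = 1) (hM : 1 ≤ M) (hpat : ∀ J, IsPat e M (s J) (γ J)) (J : ℕ) :
    ∀ a ≤ M ^ J, ∃ T : ℝ, 0 ≤ T ∧ T ≤ SS s J ∧
      ‖PP e M γ (SS s) J a - T • e‖ ≤ min T (SS s J - T) / 4 := by
  induction J with
  | zero =>
    intro a ha
    rw [pow_zero] at ha
    refine ⟨a, by positivity, ?_, ?_⟩
    · simp only [SS]; exact_mod_cast ha
    · simp only [PP, sub_self, norm_zero, SS]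
      have : (a : ℝ) ≤ 1 := by exact_mod_cast ha
      have h2 : 0 ≤ min (a : ℝ) (1 - a) := le_min (by positivity) (by linarith)
      linarith
  | succ J ih =>
    intro n hn
    obtain ⟨d, hd, a, ha, rfl⟩ := decomp hM hn
    rw [PP_block he hM hpat J hd ha]
    obtain ⟨T, hT0, hT1, hT⟩ := ih a ha
    set S := SS s J with hS
    have hS0 : 0 < S := SS_pos hpat J
    set v := γ J (d + 1) - γ J d with hv
    have hv1 : ‖v‖ = 1 := (hpat J).unit d hd
    obtain ⟨T', hT'0, hT'1, hT'⟩ := (hpat J).dia d hd (T / S) (by positivity)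
      (by rw [div_le_one hS0]; exact hT1)
    refine ⟨S * T', by positivity, ?_, ?_⟩
    · simp only [SS]
      exact mul_le_mul_of_nonneg_left hT'1 hS0.le
    · simp only [SS]
      have h1 : ‖rot e v (PP e M γ (SS s) J a) - T • v‖ ≤ min T (S - T) / 4 := by
        have : T • v = rot e v (T • e) := by
          rw [map_smul, rot_apply (by rw [he, hv1])]
        rw [this, ← map_sub, LinearIsometryEquiv.norm_map]
        exact hT
      have h2 : S • γ J d + rot e v (PP e M γ (SS s) J a) - (S * T') • e =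
          S • (γ J d + (T / S) • v - T' • e) + (rot e v (PP e M γ (SS s) J a) - T • v) := by
        rw [smul_sub, smul_add, smul_smul, smul_smul, mul_div_cancel₀ _ hS0.ne']
        abel
      have h3 : min T (S - T) = S * min (T / S) (1 - T / S) := by
        rw [mul_min_of_nonneg _ _ hS0.le]
        congr 1
        · field_simp
        · field_simp
      have h4 : min (S * T') (S * s J - S * T') = S * min T' (s J - T') := by
        rw [mul_min_of_nonneg _ _ hS0.le]
        congr 1
        ring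
      rw [h2, h4]
      refine (norm_add_le _ _).trans ?_
      rw [norm_smul, Real.norm_of_nonneg hS0.le]
      rw [h3] at h1
      have h5 := mul_le_mul_of_nonneg_left hT' hS0.le
      rw [← hv] at h5
      nlinarith

lemma PP_norm_le (he : ‖e‖ = 1) (hM : 1 ≤ M) (hpat : ∀ J, IsPat e M (s J) (γ J)) (J : ℕ)
    {a : ℕ} (ha : a ≤ M ^ J) : ‖PP e M γ (SS s) J a‖ ≤ 5 / 4 * SS s J := by
  obtain ⟨T, hT0, hT1, hT⟩ := PP_dia he hM hpat J a ha
  have h1 := norm_add_le (PP e M γ (SS s) J a - T • e) (T • e)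
  rw [sub_add_cancel, norm_smul, he, Real.norm_of_nonneg hT0, mul_one] at h1
  have h2 := min_le_left T (SS s J - T)
  linarith

/-- The point of a block written as edge point plus small error. -/
lemma PP_edge (he : ‖e‖ = 1) (hM : 1 ≤ M) (hpat : ∀ J, IsPat e M (s J) (γ J)) (J : ℕ)
    {d a : ℕ} (hd : d < M) (ha : a ≤ M ^ J) :
    ∃ T : ℝ, 0 ≤ T ∧ T ≤ 1 ∧
      ‖PP e M γ (SS s) (J + 1) (d * M ^ J + a) -
        SS s J • (γ J d + T • (γ J (d + 1) - γ J d))‖ ≤ SS s J * (min T (1 - T) / 4) := by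
  obtain ⟨T, hT0, hT1, hT⟩ := PP_dia he hM hpat J a ha
  rw [PP_block he hM hpat J hd ha]
  have hv1 : ‖γ J (d + 1) - γ J d‖ = 1 := (hpat J).unit d hd
  set S := SS s J with hS
  have hS0 : 0 < S := SS_pos hpat J
  set v := γ J (d + 1) - γ J d with hv
  refine ⟨T / S, by positivity, by rw [div_le_one hS0]; exact hT1, ?_⟩
  have h2 : S • γ J d + rot e v (PP e M γ (SS s) J a) - S • (γ J d + (T / S) • v) =
      rot e v (PP e M γ (SS s) J a) - T • v := by
    rw [smul_add, smul_smul, mul_div_cancel₀ _ hS0.ne']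
    abel
  have h1 : ‖rot e v (PP e M γ (SS s) J a) - T • v‖ ≤ min T (S - T) / 4 := by
    have : T • v = rot e v (T • e) := by
      rw [map_smul, rot_apply (by rw [he, hv1])]
    rw [this, ← map_sub, LinearIsometryEquiv.norm_map]
    exact hT
  have h3 : min T (S - T) = S * min (T / S) (1 - T / S) := by
    rw [mul_min_of_nonneg _ _ hS0.le]
    congr 1
    · field_simp
    · field_simp
  rw [h2]
  refine h1.trans (le_of_eq ?_)
  rw [h3]; ring

/-- Distance to the start. -/
lemma PP_start (he : ‖e‖ = 1) (hM : 1 ≤ M) (hpat : ∀ J, IsPat e M (s J) (γ J)) (l J : ℕ) :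
    ∀ a ≤ M ^ J, M ^ l ≤ a → 7 / 8 * SS s l ≤ ‖PP e M γ (SS s) J a‖ := by
  induction J with
  | zero =>
    intro a ha hla
    have h1 : 0 < M ^ l := Nat.pow_pos hM
    rw [pow_zero] at ha
    obtain rfl : a = 1 := by omega
    have hl : SS s l = 1 := by
      rcases Nat.eq_zero_or_pos l with rfl | hl
      · simp [SS]
      · have : M = 1 := by
          by_contra hne
          have : 1 < M := by omega
          have := Nat.one_lt_pow (by omega : l ≠ 0) this
          omega
        subst this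
        -- all scales are one since `γ 1 = e = s • e`
        have h2 : ∀ J, s J = 1 := by
          intro J
          have h3 := (hpat J).first
          have h4 := (hpat J).last
          have h5 : ‖s J • e‖ = 1 := by rw [← h4, h3, he]
          rw [norm_smul, he, mul_one, Real.norm_of_nonneg (by linarith [(hpat J).one_le])] at h5
          exact h5
        have h3 : ∀ J, SS s J = 1 := by
          intro J
          induction J with
          | zero => simp [SS]
          | succ J ih => simp [SS, ih, h2]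
        exact h3 l
    simp only [PP, Nat.cast_one, one_smul, he, hl]
    norm_num
  | succ J ih =>
    intro n hn hln
    rcases Nat.lt_or_ge (M ^ J) n with hlt | hle
    · have hl : SS s l ≤ SS s (J + 1) ∧ (l ≤ J ∨ n = M ^ (J + 1)) := by
        have h2 : M ^ l ≤ M ^ (J + 1) := hln.trans hn
        rcases Nat.lt_or_ge 1 M with h1 | h1
        · have h3 : l ≤ J + 1 := (Nat.pow_le_pow_iff_right h1).1 h2
          refine ⟨SS_mono hpat h3, ?_⟩
          rcases Nat.lt_or_ge l (J + 1) with h4 | h4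
          · left; omega
          · right
            have : l = J + 1 := by omega
            subst this
            omega
        · have : M = 1 := by omega
          subst this
          simp at hlt hn
          omega
      rcases hl.2 with hlJ | hnn
      · obtain ⟨d, hd, a, ha, rfl⟩ := decomp hM hn
        have hd1 : 1 ≤ d := by
          by_contra h0
          have : d = 0 := by omega
          subst this
          omega
        obtain ⟨T, hT0, hT1, hT⟩ := PP_edge he hM hpat J hd ha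
        have h3 := (hpat J).startfar he hd1 hd hT0 hT1
        have hS0 : 0 < SS s J := SS_pos hpat J
        have hlJ' := SS_mono hpat hlJ
        have h4 : SS s J ≤ ‖SS s J • (γ J d + T • (γ J (d + 1) - γ J d))‖ := by
          rw [norm_smul, Real.norm_of_nonneg hS0.le]
          nlinarith
        have h5 := norm_sub_norm_le (SS s J • (γ J d + T • (γ J (d + 1) - γ J d)))
          (PP e M γ (SS s) (J + 1) (d * M ^ J + a))
        rw [norm_sub_rev] at h5
        have h6 : min T (1 - T) ≤ 1 / 2 := by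
          rcases le_total T (1 / 2) with h7 | h7
          · exact (min_le_left _ _).trans h7
          · exact (min_le_right _ _).trans (by linarith)
        nlinarith
      · rw [hnn, PP_end hM hpat, norm_smul, he, mul_one,
          Real.norm_of_nonneg (SS_pos hpat _).le]
        have := SS_pos hpat (J + 1)
        linarith [hl.1, SS_pos hpat l]
    · rw [PP_ext he hM hpat J hle]
      exact ih n hle hln

/-- Distance to the end. -/
lemma PP_finish (he : ‖e‖ = 1) (hM : 2 ≤ M) (hpat : ∀ J, IsPat e M (s J) (γ J)) (l J : ℕ) :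
    ∀ a ≤ M ^ J, a + M ^ l ≤ M ^ J → 7 / 8 * SS s l ≤ ‖SS s J • e - PP e M γ (SS s) J a‖ := by
  have hM1 : 1 ≤ M := by omega
  induction J with
  | zero =>
    intro a ha hla
    have h1 : 0 < M ^ l := Nat.pow_pos hM1
    rw [pow_zero] at ha hla
    obtain rfl : a = 0 := by omega
    have hl0 : l = 0 := by
      by_contra hne
      have := Nat.one_lt_pow hne (by omega : 1 < M)
      omega
    subst hl0
    simp only [PP, SS, Nat.cast_zero, zero_smul, sub_zero, one_smul, he]
    norm_num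
  | succ J ih =>
    intro n hn hln
    obtain ⟨d, hd, a, ha, rfl⟩ := decomp hM1 hn
    have hlJ1 : l ≤ J + 1 := by
      have h2 : M ^ l ≤ M ^ (J + 1) := by omega
      exact (Nat.pow_le_pow_iff_right (by omega)).1 h2
    rcases Nat.lt_or_ge (d + 1) M with hdM | hdM
    · rcases Nat.lt_or_ge J l with hJl | hJl
      · -- l = J + 1, so n = 0
        have : l = J + 1 := by omega
        subst this
        have hz : d * M ^ J + a = 0 := by omega
        rw [hz, PP_zero hpat, sub_zero, norm_smul, he, mul_one,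
          Real.norm_of_nonneg (SS_pos hpat _).le]
        linarith [SS_pos hpat (J + 1)]
      · obtain ⟨T, hT0, hT1, hT⟩ := PP_edge he hM1 hpat J hd ha
        have h3 := (hpat J).endfar hdM hT0 hT1
        have hS0 : 0 < SS s J := SS_pos hpat J
        have hlJ' := SS_mono hpat hJl
        have e1 : SS s (J + 1) • e = SS s J • (s J • e) := by rw [smul_smul]; rfl
        have h4 : SS s J ≤ ‖SS s (J + 1) • e - SS s J • (γ J d + T • (γ J (d + 1) - γ J d))‖ := by
          rw [e1, ← smul_sub, norm_smul, Real.norm_of_nonneg hS0.le]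
          nlinarith
        have h5 := norm_sub_norm_le (SS s (J + 1) • e - SS s J • (γ J d + T • (γ J (d + 1) - γ J d)))
          (SS s (J + 1) • e - PP e M γ (SS s) (J + 1) (d * M ^ J + a))
        rw [sub_sub_sub_cancel_left] at h5
        have h6 : min T (1 - T) ≤ 1 / 2 := by
          rcases le_total T (1 / 2) with h7 | h7
          · exact (min_le_left _ _).trans h7
          · exact (min_le_right _ _).trans (by linarith)
        nlinarith
    · -- the last block
      have hd' : M = d + 1 := by omega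
      have h1 : a + M ^ l ≤ M ^ J := by
        have e2 : M ^ (J + 1) = d * M ^ J + M ^ J := by
          rw [pow_succ]; nth_rewrite 2 [hd']; ring
        omega
      have h2 := ih a ha h1
      have h3 := PP_block he hM1 hpat J hd ha
      have h4 := PP_block he hM1 hpat J hd (le_refl (M ^ J))
      have e2 : d * M ^ J + M ^ J = M ^ (J + 1) := by
        rw [pow_succ]; nth_rewrite 4 [hd']; ring
      rw [e2, PP_end hM1 hpat, PP_end hM1 hpat] at h4
      rw [h3, h4, add_sub_add_left_eq_sub, ← map_sub, LinearIsometryEquiv.norm_map]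
      exact h2

end main

end curve

end Pool.Agent.H61.SD
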