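import Mathlib
import Pool.Agent.H61.SDCurve

set_option autoImplicit false

open Metric Set

namespace Pool.Agent.H61.SD

section curve2

variable {E : Type*} [NormedAddCommGroup E] [InnerProductSpace ℝ E]
variable {e : E} {M : ℕ} {s : ℕ → ℝ} {γ : ℕ → ℕ → E}

lemma min_half (T : ℝ) : min T (1 - T) ≤ 1 / 2 := by
  rcases le_total T (1 / 2) with h7 | h7
  · exact (min_le_left _ _).trans h7
  · exact (min_le_right _ _).trans (by linarith)

/-- Lower bound. -/
lemma PP_lower (he : ‖e‖ = 1) (hM : 2 ≤ M) (hpat : ∀ J, IsPat e M (s J) (γ J)) (l J : ℕ) :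
    ∀ i i', i' ≤ M ^ J → i + 2 * M ^ l ≤ i' →
      SS s l / 3 ≤ ‖PP e M γ (SS s) J i' - PP e M γ (SS s) J i‖ := by
  have hM1 : 1 ≤ M := by omega
  have hMl : 0 < M ^ l := Nat.pow_pos hM1
  have hSl := SS_pos hpat l
  induction J with
  | zero =>
    intro i i' hi' hii
    rw [pow_zero] at hi'
    omega
  | succ J ih =>
    intro n n' hn' hnn
    have hn : n ≤ M ^ (J + 1) := by omega
    have hlJ : l ≤ J := by
      by_contra hlt
      push Not at hlt
      have : M ^ (J + 1) ≤ M ^ l := Nat.pow_le_pow_right hM1 hlt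
      omega
    have hSlJ := SS_mono hpat hlJ
    have hS0 : 0 < SS s J := SS_pos hpat J
    obtain ⟨d, hd, a, ha, rfl⟩ := decomp hM1 hn
    obtain ⟨d', hd', a', ha', rfl⟩ := decomp hM1 hn'
    have hMJ : 0 < M ^ J := Nat.pow_pos hM1
    rcases lt_trichotomy d' d with h1 | h1 | h1
    · exfalso
      have : (d' + 1) * M ^ J ≤ d * M ^ J := Nat.mul_le_mul_right _ h1
      have e1 : (d' + 1) * M ^ J = d' * M ^ J + M ^ J := by ring
      omega
    · subst h1
      rw [PP_block he hM1 hpat J hd ha, PP_block he hM1 hpat J hd ha', add_sub_add_left_eq_sub,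
        ← map_sub, LinearIsometryEquiv.norm_map]
      exact ih a a' ha' (by omega)
    · rcases Nat.lt_or_ge (d + 1) d' with h2 | h2
      · obtain ⟨T, hT0, hT1, hT⟩ := PP_edge he hM1 hpat J hd ha
        obtain ⟨T', hT0', hT1', hT'⟩ := PP_edge he hM1 hpat J hd' ha'
        have h3 := (hpat J).far d d' (by omega) hd' T T' hT0 hT1 hT0' hT1'
        set x := γ J d + T • (γ J (d + 1) - γ J d)
        set x' := γ J d' + T' • (γ J (d' + 1) - γ J d')
        set y := PP e M γ (SS s) (J + 1) (d * M ^ J + a)
        set y' := PP e M γ (SS s) (J + 1) (d' * M ^ J + a')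
        have h4 : SS s J ≤ ‖SS s J • x - SS s J • x'‖ := by
          rw [← smul_sub, norm_smul, Real.norm_of_nonneg hS0.le]
          nlinarith
        have h5 : ‖SS s J • x - SS s J • x'‖ ≤ ‖y' - y‖ + ‖y - SS s J • x‖ + ‖y' - SS s J • x'‖ := by
          have e1 : SS s J • x - SS s J • x' = (y' - SS s J • x') - (y' - y) - (y - SS s J • x) := by
            abel
          rw [e1]
          have h6 := norm_sub_le ((y' - SS s J • x') - (y' - y)) (y - SS s J • x)
          have h7 := norm_sub_le (y' - SS s J • x') (y' - y)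
          linarith
        have h6 := min_half T
        have h7 := min_half T'
        nlinarith
      · obtain rfl : d' = d + 1 := by omega
        obtain ⟨T, hT0, hT1, hT⟩ := PP_dia he hM1 hpat J a ha
        obtain ⟨T', hT0', hT1', hT'⟩ := PP_dia he hM1 hpat J a' ha'
        have hv := (hpat J).unit d hd
        have hv' := (hpat J).unit (d + 1) hd'
        have hvv := (hpat J).adj d (by omega)
        have hb := PP_block he hM1 hpat J hd ha
        have hb' := PP_block he hM1 hpat J hd' ha'
        set S := SS s J with hS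
        set v := γ J (d + 1) - γ J d with hvdef
        set v' := γ J (d + 1 + 1) - γ J (d + 1) with hvdef'
        set y := PP e M γ (SS s) J a with hy
        set y' := PP e M γ (SS s) J a' with hy'
        have hve : rot e v e = v := rot_apply (by rw [he, hv])
        have hve' : rot e v' e = v' := rot_apply (by rw [he, hv'])
        have hz : S • γ J d + rot e v y - S • γ J (d + 1) = rot e v (y - S • e) := by
          rw [map_sub, map_smul, hve, hvdef, smul_sub]; abel
        have hz' : S • γ J (d + 1) + rot e v' y' - S • γ J (d + 1) = rot e v' y' := by abel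
        have hc := cone_sep (z := rot e v (y - S • e)) (z' := rot e v' y') hv hv' hvv
          (t := S - T) (t' := T') (by linarith) hT0' (by
            have : rot e v (y - S • e) + (S - T) • v = rot e v (y - T • e) := by
              rw [map_sub, map_sub, map_smul, map_smul, hve, sub_smul]; abel
            rw [this, LinearIsometryEquiv.norm_map]
            exact hT.trans (by linarith [min_le_right T (S - T)])) (by
            have : rot e v' y' - T' • v' = rot e v' (y' - T' • e) := by
              rw [map_sub, map_smul, hve']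
            rw [this, LinearIsometryEquiv.norm_map]
            exact hT'.trans (by linarith [min_le_left T' (S - T')]))
        have hdiff : PP e M γ (SS s) (J + 1) ((d + 1) * M ^ J + a') -
            PP e M γ (SS s) (J + 1) (d * M ^ J + a) = rot e v' y' - rot e v (y - S • e) := by
          rw [hb, hb', ← hz]; abel
        rw [hdiff]
        rw [LinearIsometryEquiv.norm_map, LinearIsometryEquiv.norm_map] at hc
        have e1 : (d + 1) * M ^ J = d * M ^ J + M ^ J := by ring
        rcases Nat.lt_or_ge a' (M ^ l) with h8 | h8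
        · have h9 := PP_finish he hM hpat l J a ha (by omega)
          rw [norm_sub_rev] at h9
          linarith [hc.1]
        · have h9 := PP_start he hM1 hpat l J a' ha' h8
          linarith [hc.2]

/-- Upper bound within a block of level `l`. -/
lemma PP_upper (he : ‖e‖ = 1) (hM : 2 ≤ M) (hpat : ∀ J, IsPat e M (s J) (γ J)) (l J : ℕ) :
    ∀ b a, a ≤ M ^ l → b * M ^ l + a ≤ M ^ J →
      ‖PP e M γ (SS s) J (b * M ^ l + a) - PP e M γ (SS s) J (b * M ^ l)‖ ≤ 5 / 4 * SS s l := by
  have hM1 : 1 ≤ M := by omega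
  have hMl : 0 < M ^ l := Nat.pow_pos hM1
  have hSl := SS_pos hpat l
  rcases Nat.lt_or_ge J l with hJl | hlJ
  · intro b a ha hba
    have h1 : M ^ J < M ^ l := Nat.pow_lt_pow_right (by omega) hJl
    have hb : b = 0 := by
      by_contra hne
      have : 1 * M ^ l ≤ b * M ^ l := Nat.mul_le_mul_right _ (by omega)
      omega
    subst hb
    rw [zero_mul, zero_add] at *
    rw [PP_zero hpat, sub_zero]
    refine (PP_norm_le he hM1 hpat J hba).trans ?_
    have := SS_mono hpat hJl.le
    linarith
  induction J, hlJ using Nat.le_induction with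
  | base =>
    intro b a ha hba
    rcases Nat.eq_zero_or_pos b with rfl | hb
    · rw [zero_mul, zero_add, PP_zero hpat, sub_zero]
      exact PP_norm_le he hM1 hpat l ha
    · have : 1 * M ^ l ≤ b * M ^ l := Nat.mul_le_mul_right _ hb
      have h0 : a = 0 := by omega
      subst h0
      simp only [add_zero, sub_self, norm_zero]
      positivity
  | succ J hlJ ih =>
    intro b a ha hba
    have hMJ : 0 < M ^ J := Nat.pow_pos hM1
    rcases Nat.eq_zero_or_pos a with rfl | ha0
    · simp only [add_zero, sub_self, norm_zero]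
      positivity
    obtain ⟨r, hr⟩ : ∃ r, M ^ J = r * M ^ l :=
      ⟨M ^ (J - l), by rw [← pow_add, Nat.sub_add_cancel hlJ]⟩
    have hr0 : 0 < r := by
      rcases Nat.eq_zero_or_pos r with rfl | h
      · simp at hr; omega
      · exact h
    set d := b / r with hd
    set b' := b % r with hb'
    have hbd : r * d + b' = b := Nat.div_add_mod b r
    have hb'r : b' < r := Nat.mod_lt _ hr0
    have e1 : b * M ^ l = d * M ^ J + b' * M ^ l := by
      rw [← hbd, hr]; ring
    have hb1 : (b' + 1) * M ^ l ≤ r * M ^ l := Nat.mul_le_mul_right _ hb'r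
    have e2 : (b' + 1) * M ^ l = b' * M ^ l + M ^ l := by ring
    have hin : b' * M ^ l + a ≤ M ^ J := by rw [hr]; omega
    have hin' : b' * M ^ l ≤ M ^ J := by omega
    have hdM : d < M := by
      by_contra hge
      push Not at hge
      have h1 : M * M ^ J ≤ d * M ^ J := Nat.mul_le_mul_right _ hge
      have h2 : M ^ (J + 1) = M * M ^ J := by rw [pow_succ]; ring
      omega
    rw [e1, add_assoc, PP_block he hM1 hpat J hdM hin, PP_block he hM1 hpat J hdM hin',
      add_sub_add_left_eq_sub, ← map_sub, LinearIsometryEquiv.norm_map]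
    exact ih b' a ha hin

/-- The limit curve. -/
theorem exists_curve (he : ‖e‖ = 1) (hM : 2 ≤ M) (hpat : ∀ J, IsPat e M (s J) (γ J)) :
    ∃ p : ℕ → E, p 0 = 0 ∧ (∀ n, ∃ t : ℝ, 0 ≤ t ∧ ‖p n - t • e‖ ≤ t / 4) ∧
      (∀ l i i', i + 2 * M ^ l ≤ i' → SS s l / 3 ≤ ‖p i' - p i‖) ∧
      (∀ l i i', i ≤ i' → i' ≤ i + M ^ l → ‖p i' - p i‖ ≤ 15 / 4 * SS s l) := by
  have hM1 : 1 ≤ M := by omega
  have hlt : ∀ n, n ≤ M ^ n := fun n => (Nat.lt_pow_self (by omega)).le
  refine ⟨fun n => PP e M γ (SS s) n n, by simp [PP], ?_, ?_, ?_⟩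
  · intro n
    obtain ⟨T, hT0, hT1, hT⟩ := PP_dia he hM1 hpat n n (hlt n)
    exact ⟨T, hT0, hT.trans (by linarith [min_le_left T (SS s n - T)])⟩
  · intro l i i' hii
    have h1 : PP e M γ (SS s) i' i = PP e M γ (SS s) i i :=
      PP_stable he hM1 hpat (by omega) (hlt i)
    have h2 := PP_lower he hM hpat l i' i i' (hlt i') hii
    rw [h1] at h2
    exact h2
  · intro l i i' hii hii'
    have hMl : 0 < M ^ l := Nat.pow_pos hM1
    have hSl := SS_pos hpat l
    obtain ⟨K, hK⟩ : ∃ K, K = i' + 2 * M ^ l := ⟨_, rfl⟩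
    have hKp := hlt K
    have h1 : PP e M γ (SS s) K i = PP e M γ (SS s) i i :=
      PP_stable he hM1 hpat (by omega) (hlt i)
    have h2 : PP e M γ (SS s) K i' = PP e M γ (SS s) i' i' :=
      PP_stable he hM1 hpat (by omega) (hlt i')
    simp only
    rw [← h1, ← h2]
    obtain ⟨b, a, e1, hml⟩ : ∃ b a : ℕ, i = b * M ^ l + a ∧ a < M ^ l :=
      ⟨i / M ^ l, i % M ^ l, by rw [mul_comm]; exact (Nat.div_add_mod i (M ^ l)).symm,
        Nat.mod_lt i hMl⟩
    have h3 := PP_upper he hM hpat l K b a hml.le (by omega)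
    rw [← e1] at h3
    have e2 : (b + 1) * M ^ l = b * M ^ l + M ^ l := by ring
    rcases Nat.lt_or_ge i' ((b + 1) * M ^ l) with h4 | h4
    · obtain ⟨a', ha'⟩ : ∃ a', i' = b * M ^ l + a' := ⟨i' - b * M ^ l, by omega⟩
      have h5 := PP_upper he hM hpat l K b a' (by omega) (by omega)
      rw [← ha'] at h5
      have h6 := norm_sub_le (PP e M γ (SS s) K i' - PP e M γ (SS s) K (b * M ^ l))
        (PP e M γ (SS s) K i - PP e M γ (SS s) K (b * M ^ l))
      rw [sub_sub_sub_cancel_right] at h6
      linarith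
    · obtain ⟨a', ha'⟩ : ∃ a', i' = (b + 1) * M ^ l + a' := ⟨i' - (b + 1) * M ^ l, by omega⟩
      have h5 := PP_upper he hM hpat l K (b + 1) a' (by omega) (by omega)
      rw [← ha'] at h5
      have h7 := PP_upper he hM hpat l K b (M ^ l) le_rfl (by omega)
      rw [← e2] at h7
      have h6 := norm_sub_le (PP e M γ (SS s) K i' - PP e M γ (SS s) K (b * M ^ l))
        (PP e M γ (SS s) K i - PP e M γ (SS s) K (b * M ^ l))
      rw [sub_sub_sub_cancel_right] at h6
      have h8 := norm_add_le (PP e M γ (SS s) K i' - PP e M γ (SS s) K ((b + 1) * M ^ l))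
        (PP e M γ (SS s) K ((b + 1) * M ^ l) - PP e M γ (SS s) K (b * M ^ l))
      rw [sub_add_sub_cancel] at h8
      linarith

end curve2

end Pool.Agent.H61.SD
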