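import Mathlib
import Pool.Agent.H61.SDDefs

set_option autoImplicit false

open MeasureTheory Metric Set

namespace Pool.Agent.H61.SD

section vol

variable {k : ℕ}

/-- Volume of the open `r`-neighbourhood of a finite set. -/
noncomputable def V (P : Finset (EuclideanSpace ℝ (Fin k))) (r : ℝ) : ℝ :=
  (volume (⋃ x ∈ P, ball x r)).toReal

/-- Volume of the unit ball. -/
noncomputable def vb (k : ℕ) : ℝ :=
  (volume (ball (0 : EuclideanSpace ℝ (Fin k)) 1)).toReal

lemma vb_pos : 0 < vb k := by
  unfold vb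
  apply ENNReal.toReal_pos
  · exact (measure_ball_pos _ _ one_pos).ne'
  · exact measure_ball_lt_top.ne

lemma vol_ball (x : EuclideanSpace ℝ (Fin k)) {r : ℝ} (hr : 0 < r) :
    (volume (ball x r)).toReal = r ^ k * vb k := by
  rw [Measure.addHaar_ball_of_pos volume x hr, ENNReal.toReal_mul, ENNReal.toReal_ofReal
    (by positivity)]
  simp [vb]

lemma union_ne_top (P : Finset (EuclideanSpace ℝ (Fin k))) (r : ℝ) :
    volume (⋃ x ∈ P, ball x r) ≠ ⊤ := by
  have : volume (⋃ x ∈ P, ball x r) ≤ ∑ x ∈ P, volume (ball x r) :=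
    measure_biUnion_finset_le _ _
  refine (this.trans_lt ?_).ne
  exact ENNReal.sum_lt_top.2 (fun x _ => measure_ball_lt_top)

lemma V_nonneg (P : Finset (EuclideanSpace ℝ (Fin k))) (r : ℝ) : 0 ≤ V P r :=
  ENNReal.toReal_nonneg

lemma V_mono (P : Finset (EuclideanSpace ℝ (Fin k))) {r s : ℝ} (h : r ≤ s) : V P r ≤ V P s := by
  unfold V
  apply ENNReal.toReal_mono (union_ne_top P s)
  apply measure_mono
  exact iUnion₂_mono (fun x _ => ball_subset_ball h)

lemma V_disj (X : Finset (EuclideanSpace ℝ (Fin k))) {ρ : ℝ} (hρ : 0 < ρ)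
    (hs : ∀ x ∈ X, ∀ y ∈ X, x ≠ y → 2 * ρ ≤ dist x y) :
    V X ρ = X.card * (ρ ^ k * vb k) := by
  unfold V
  rw [measure_biUnion_finset]
  · rw [ENNReal.toReal_sum (fun x _ => measure_ball_lt_top.ne)]
    rw [Finset.sum_congr rfl (fun x _ => vol_ball x hρ)]
    simp
  · intro x hx y hy hxy
    apply ball_disjoint_ball
    linarith [hs x hx y hy hxy]
  · intro x _
    exact measurableSet_ball

lemma V_le (X : Finset (EuclideanSpace ℝ (Fin k))) {ρ : ℝ} (hρ : 0 < ρ) :
    V X ρ ≤ X.card * (ρ ^ k * vb k) := by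
  unfold V
  have h1 : volume (⋃ x ∈ X, ball x ρ) ≤ ∑ x ∈ X, volume (ball x ρ) :=
    measure_biUnion_finset_le _ _
  have h2 := ENNReal.toReal_mono (ENNReal.sum_lt_top.2 (fun x _ => measure_ball_lt_top)).ne h1
  rw [ENNReal.toReal_sum (fun x _ => measure_ball_lt_top.ne)] at h2
  rw [Finset.sum_congr rfl (fun x _ => vol_ball x hρ)] at h2
  simpa using h2

/-- If all points of `P` are within `R` of `a` then `V P r ≤ (R + r)^k * vb k`. -/
lemma V_le_ball (P : Finset (EuclideanSpace ℝ (Fin k))) (a : EuclideanSpace ℝ (Fin k)) {R r : ℝ}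
    (hR : 0 ≤ R) (hr : 0 < r) (hP : ∀ x ∈ P, dist x a ≤ R) :
    V P r ≤ (R + r) ^ k * vb k := by
  rw [← vol_ball a (by linarith : 0 < R + r)]
  unfold V
  apply ENNReal.toReal_mono measure_ball_lt_top.ne
  apply measure_mono
  intro y hy
  simp only [mem_iUnion] at hy
  obtain ⟨x, hx, hy⟩ := hy
  rw [mem_ball] at hy ⊢
  have := dist_triangle y x a
  have := hP x hx
  linarith

/-- Existence of maximal separated subsets. -/
lemma exists_sep (P : Finset (EuclideanSpace ℝ (Fin k))) {r : ℝ} :
    ∃ X : Finset (EuclideanSpace ℝ (Fin k)), X ⊆ P ∧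
      (∀ x ∈ X, ∀ y ∈ X, x ≠ y → r ≤ dist x y) ∧
      ∀ p ∈ P, p ∈ X ∨ ∃ x ∈ X, dist p x < r := by
  classical
  induction P using Finset.induction_on with
  | empty => exact ⟨∅, by simp, by simp, by simp⟩
  | insert a P ha ih =>
    obtain ⟨X, hXP, hsep, hmax⟩ := ih
    by_cases h : ∃ x ∈ X, dist a x < r
    · refine ⟨X, hXP.trans (Finset.subset_insert _ _), hsep, ?_⟩
      intro p hp
      rw [Finset.mem_insert] at hp
      rcases hp with rfl | hp
      · exact Or.inr h
      · exact hmax p hp
    · push Not at h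
      refine ⟨insert a X, Finset.insert_subset_insert _ hXP, ?_, ?_⟩
      · intro x hx y hy hxy
        rw [Finset.mem_insert] at hx hy
        rcases hx with rfl | hx <;> rcases hy with rfl | hy
        · exact absurd rfl hxy
        · exact h y hy
        · rw [dist_comm]; exact h x hx
        · exact hsep x hx y hy hxy
      · intro p hp
        rw [Finset.mem_insert] at hp
        rcases hp with rfl | hp
        · left; simp
        · rcases hmax p hp with h1 | ⟨x, hx, h1⟩
          · left; simp [h1]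
          · right; exact ⟨x, by simp [hx], h1⟩

/-- The volume decay step. -/
lemma decay (P : Finset (EuclideanSpace ℝ (Fin k))) {r η : ℝ} (hr : 0 < r) (hη : 0 < η)
    (hη1 : η ≤ 1)
    (hole : ∀ x ∈ P, ∃ y, dist y x = r / 4 ∧ ∀ z ∈ P, η * (r / 4) ≤ dist z y) :
    V P (η / 8 * r) ≤ (1 - (η / 16) ^ k) * V P r := by
  classical
  obtain ⟨X, hXP, hsep, hmax⟩ := exists_sep P (r := r)
  choose! y hy1 hy2 using hole
  -- covering bound
  have hcov : V P r ≤ X.card * ((2 * r) ^ k * vb k) := by
    refine le_trans ?_ (V_le X (by linarith : 0 < 2 * r))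
    unfold V
    apply ENNReal.toReal_mono (union_ne_top X _)
    apply measure_mono
    intro z hz
    simp only [mem_iUnion] at hz ⊢
    obtain ⟨x, hx, hz⟩ := hz
    rw [mem_ball] at hz
    rcases hmax x hx with h1 | ⟨w, hw, h1⟩
    · exact ⟨x, h1, by rw [mem_ball]; linarith⟩
    · refine ⟨w, hw, ?_⟩
      rw [mem_ball]
      have := dist_triangle z x w
      linarith
  -- the removed balls
  set Y : Set (EuclideanSpace ℝ (Fin k)) := ⋃ x ∈ X, ball (y x) (η / 8 * r) with hY
  have hη8 : 0 < η / 8 * r := by positivity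
  have hYvol : (volume Y).toReal = X.card * ((η / 8 * r) ^ k * vb k) := by
    rw [hY, measure_biUnion_finset]
    · rw [ENNReal.toReal_sum (fun x _ => measure_ball_lt_top.ne)]
      rw [Finset.sum_congr rfl (fun x _ => vol_ball (y x) hη8)]
      simp
    · intro x hx x' hx' hxx
      apply ball_disjoint_ball
      have h1 := hsep x hx x' hx' hxx
      have h2 := hy1 x (hXP hx)
      have h3 := hy1 x' (hXP hx')
      have h4 : dist x x' ≤ dist x (y x) + dist (y x) (y x') + dist (y x') x' :=
        dist_triangle4 _ _ _ _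
      rw [dist_comm x (y x)] at h4
      nlinarith
    · intro x _
      exact measurableSet_ball
  have hdisj : Disjoint (⋃ x ∈ P, ball x (η / 8 * r)) Y := by
    rw [Set.disjoint_left]
    intro z hz hz'
    simp only [hY, mem_iUnion] at hz hz'
    obtain ⟨x, hx, hz⟩ := hz
    obtain ⟨x', hx', hz'⟩ := hz'
    rw [mem_ball] at hz hz'
    have h1 := hy2 x' (hXP hx') x hx
    have h2 := dist_triangle x z (y x')
    rw [dist_comm x z] at h2
    linarith
  have hsub : (⋃ x ∈ P, ball x (η / 8 * r)) ∪ Y ⊆ ⋃ x ∈ P, ball x r := by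
    apply union_subset
    · apply iUnion₂_mono
      intro x _
      apply ball_subset_ball
      nlinarith
    · intro z hz
      simp only [hY, mem_iUnion] at hz ⊢
      obtain ⟨x, hx, hz⟩ := hz
      refine ⟨x, hXP hx, ?_⟩
      rw [mem_ball] at hz ⊢
      have := dist_triangle z (y x) x
      have := hy1 x (hXP hx)
      nlinarith
  have hYm : MeasurableSet Y := by
    rw [hY]
    exact Finset.measurableSet_biUnion _ (fun x _ => measurableSet_ball)
  have hYtop : volume Y ≠ ⊤ := by
    refine ((measure_mono (subset_union_right.trans hsub)).trans_lt ?_).ne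
    exact lt_top_iff_ne_top.2 (union_ne_top P r)
  have hsum : V P (η / 8 * r) + X.card * ((η / 8 * r) ^ k * vb k) ≤ V P r := by
    rw [← hYvol]
    unfold V
    rw [← ENNReal.toReal_add (union_ne_top P _) hYtop, ← measure_union hdisj hYm]
    exact ENNReal.toReal_mono (union_ne_top P r) (measure_mono hsub)
  have hkey : (η / 16) ^ k * V P r ≤ X.card * ((η / 8 * r) ^ k * vb k) := by
    calc (η / 16) ^ k * V P r ≤ (η / 16) ^ k * (X.card * ((2 * r) ^ k * vb k)) := by
          gcongr
      _ = X.card * ((η / 16 * (2 * r)) ^ k * vb k) := by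
          rw [mul_pow (η / 16) (2 * r) k]; ring
      _ = _ := by congr 3; ring
  linarith

end vol

end Pool.Agent.H61.SD
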