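import Mathlib
import Pool.Agent.H61.SDVol

set_option autoImplicit false

open MeasureTheory Metric Set

namespace Pool.Agent.H61.SD

section nec

variable {k : ℕ}

/-- Working hypotheses: `p` is `f`-distorted on the up-closed index set `I ⊇ {1, 2, ...}`. -/
structure Dst (I : Set ℤ) (f : ℕ → ℝ) (p : ℤ → EuclideanSpace ℝ (Fin k)) (A B : ℝ) (N₀ : ℕ) :
    Prop where
  rate : IsRateFunction f
  one : ∀ n : ℤ, 1 ≤ n → n ∈ I
  up : ∀ n ∈ I, ∀ m : ℤ, n ≤ m → m ∈ I
  A0 : 0 < A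
  B0 : 0 < B
  N0 : 1 ≤ N₀
  d : ∀ m ∈ I, ∀ n ∈ I, N₀ ≤ (n - m).natAbs →
    A * f (n - m).natAbs ≤ dist (p n) (p m) ∧ dist (p n) (p m) ≤ B * f (n - m).natAbs

namespace Dst

variable {I : Set ℤ} {f : ℕ → ℝ} {p : ℤ → EuclideanSpace ℝ (Fin k)} {A B : ℝ} {N₀ : ℕ}

lemma fwd (h : Dst I f p A B N₀) {a : ℤ} (ha : a ∈ I) {j : ℕ} (hj : N₀ ≤ j) :
    A * f j ≤ dist (p (a + j)) (p a) ∧ dist (p (a + j)) (p a) ≤ B * f j := by
  have h1 := h.d a ha (a + j) (h.up a ha _ (by omega))
  have e : (a + (j : ℤ) - a).natAbs = j := by simp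
  rw [e] at h1
  exact h1 hj

lemma AB (h : Dst I f p A B N₀) : A ≤ B := by
  have h1 := h.fwd (h.one 1 le_rfl) (le_refl N₀)
  have h2 := h.rate.pos N₀ h.N0
  have h3 : A * f N₀ ≤ B * f N₀ := h1.1.trans h1.2
  exact le_of_mul_le_mul_right h3 h2

/-- Step bound. -/
lemma step (h : Dst I f p A B N₀) {a : ℤ} (ha : a ∈ I) :
    dist (p (a + 1)) (p a) ≤ B * f N₀ + B * f (N₀ + 1) := by
  have h1 := (h.fwd (h.up a ha (a + 1) (by omega)) (le_refl N₀)).2
  have h2 := (h.fwd ha (Nat.le_succ N₀)).2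
  have e : a + 1 + (N₀ : ℤ) = a + ((N₀ + 1 : ℕ) : ℤ) := by push_cast; ring
  rw [e] at h1
  have h3 := dist_triangle (p (a + 1)) (p (a + ((N₀ + 1 : ℕ) : ℤ))) (p a)
  rw [dist_comm (p (a + 1)) (p (a + ((N₀ + 1 : ℕ) : ℤ)))] at h3
  have e2 : N₀.succ = N₀ + 1 := rfl
  rw [e2] at h2
  linarith

lemma D_pos (h : Dst I f p A B N₀) : 0 < B * f N₀ + B * f (N₀ + 1) := by
  have h1 := h.rate.pos N₀ h.N0
  have h2 := h.rate.pos (N₀ + 1) (by omega)
  have := h.B0
  positivity

lemma lip (h : Dst I f p A B N₀) {a : ℤ} (ha : a ∈ I) (j : ℕ) :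
    dist (p (a + j)) (p a) ≤ (B * f N₀ + B * f (N₀ + 1)) * j := by
  induction j with
  | zero => simp
  | succ j ih =>
    have h1 := h.step (h.up a ha (a + j) (by omega))
    have h3 := dist_triangle (p (a + ((j + 1 : ℕ) : ℤ))) (p (a + j)) (p a)
    have e : a + ((j + 1 : ℕ) : ℤ) = a + j + 1 := by push_cast; ring
    rw [e] at h3 ⊢
    push_cast
    linarith

lemma chain (h : Dst I f p A B N₀) {a : ℤ} (ha : a ∈ I) {m : ℕ} (hm : N₀ ≤ m) (q : ℕ) :
    dist (p (a + (q * m : ℕ))) (p a) ≤ q * (B * f m) := by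
  induction q with
  | zero => simp
  | succ q ih =>
    have h1 := (h.fwd (h.up a ha (a + (q * m : ℕ)) (by omega)) hm).2
    have e : a + ((q * m : ℕ) : ℤ) + (m : ℤ) = a + (((q + 1) * m : ℕ) : ℤ) := by
      push_cast; ring
    rw [e] at h1
    have h3 := dist_triangle (p (a + (((q + 1) * m : ℕ) : ℤ))) (p (a + (q * m : ℕ))) (p a)
    push_cast at *
    linarith

lemma dbl (h : Dst I f p A B N₀) {m : ℕ} (hm : N₀ ≤ m) : f (2 * m) ≤ 2 * B / A * f m := by
  have h1 := h.chain (h.one 1 le_rfl) hm 2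
  have h2 := (h.fwd (h.one 1 le_rfl) (by omega : N₀ ≤ 2 * m)).1
  have hA := h.A0
  rw [div_mul_eq_mul_div, le_div_iff₀ hA]
  push_cast at *
  linarith

/-- The upper growth bound. -/
lemma upper (h : Dst I f p A B N₀) {m n : ℕ} (hm : N₀ ≤ m) (hmn : m ≤ n) :
    f n ≤ (B / A + 2 * B ^ 2 / A ^ 2) * ((n : ℝ) / m) * f m := by
  have hA := h.A0
  have hB := h.B0
  have hN := h.N0
  have hm0 : 0 < m := by omega
  have hfm := h.rate.pos m (by omega)
  obtain ⟨q', r, hqr, hrm⟩ : ∃ q' r : ℕ, m * (q' + 1) + r = n ∧ r < m := by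
    have h1 : m * (n / m) + n % m = n := Nat.div_add_mod n m
    have h2 : 1 ≤ n / m := (Nat.one_le_div_iff hm0).2 hmn
    refine ⟨n / m - 1, n % m, ?_, Nat.mod_lt _ hm0⟩
    rw [Nat.sub_add_cancel h2]; exact h1
  have h1 := h.chain (h.one 1 le_rfl) hm q'
  have hI : (1 : ℤ) + ((q' * m : ℕ) : ℤ) ∈ I := h.one _ (by omega)
  have h2 := (h.fwd hI (by omega : N₀ ≤ m + r)).2
  have e : (1 : ℤ) + ((q' * m : ℕ) : ℤ) + ((m + r : ℕ) : ℤ) = 1 + (n : ℤ) := by
    rw [← hqr]; push_cast; ring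
  rw [e] at h2
  have h3 := dist_triangle (p (1 + (n : ℤ))) (p (1 + (q' * m : ℕ))) (p 1)
  have h4 := (h.fwd (h.one 1 le_rfl) (by omega : N₀ ≤ n)).1
  have h5 : f (m + r) ≤ f (2 * m) := h.rate.mono _ _ (by omega) (by omega)
  have h6 := h.dbl hm
  have h7 : A * f n ≤ q' * (B * f m) + B * (2 * B / A * f m) := by
    have : B * f (m + r) ≤ B * (2 * B / A * f m) := by
      apply mul_le_mul_of_nonneg_left (h5.trans h6) hB.le
    linarith
  have hqn : ((q' : ℝ) + 1) ≤ (n : ℝ) / m := by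
    rw [le_div_iff₀ (by exact_mod_cast hm0)]
    have : (q' + 1) * m ≤ n := by
      rw [← hqr]; nlinarith
    exact_mod_cast this
  have hq0 : (0 : ℝ) ≤ q' := Nat.cast_nonneg _
  have h8 : A * f n ≤ ((q' : ℝ) + 1) * (B + 2 * B ^ 2 / A) * f m := by
    refine h7.trans ?_
    have : B * (2 * B / A * f m) = 2 * B ^ 2 / A * f m := by field_simp
    rw [this]
    have h9 : 0 ≤ (q' : ℝ) * (2 * B ^ 2 / A * f m) := by positivity
    have h10 : 0 ≤ B * f m := by positivity
    nlinarith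
  have h11 : A * f n ≤ ((n : ℝ) / m) * (B + 2 * B ^ 2 / A) * f m := by
    refine h8.trans ?_
    gcongr
  have h12 : f n ≤ (((n : ℝ) / m) * (B + 2 * B ^ 2 / A) * f m) / A := by
    rw [le_div_iff₀ hA]; linarith
  refine h12.trans (le_of_eq ?_)
  field_simp

/-- The separated set of points `p (a + i m)`, `i < q`. -/
noncomputable def pts (p : ℤ → EuclideanSpace ℝ (Fin k)) (a : ℤ) (m q : ℕ) :
    Finset (EuclideanSpace ℝ (Fin k)) :=
  open Classical in (Finset.range q).image (fun i : ℕ => p (a + (i * m : ℕ)))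

lemma mem_pts {a : ℤ} {m q : ℕ} {x : EuclideanSpace ℝ (Fin k)} :
    x ∈ pts p a m q ↔ ∃ i < q, p (a + (i * m : ℕ)) = x := by
  classical
  simp [pts]

lemma sep (h : Dst I f p A B N₀) {a : ℤ} (ha : a ∈ I) {m : ℕ} (hm : N₀ ≤ m) {i j : ℕ}
    (hij : i < j) : A * f m ≤ dist (p (a + (j * m : ℕ))) (p (a + (i * m : ℕ))) := by
  have hN := h.N0
  obtain ⟨l, rfl⟩ : ∃ l, j = i + (l + 1) := ⟨j - i - 1, by omega⟩
  have h1 := (h.fwd (h.up a ha (a + (i * m : ℕ)) (by omega))
    (show N₀ ≤ (l + 1) * m by nlinarith)).1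
  have e : a + ((i * m : ℕ) : ℤ) + (((l + 1) * m : ℕ) : ℤ) = a + (((i + (l + 1)) * m : ℕ) : ℤ) := by
    push_cast; ring
  rw [e] at h1
  have h2 : f m ≤ f ((l + 1) * m) := h.rate.mono _ _ (by omega) (by nlinarith)
  have := h.A0
  nlinarith

lemma pts_sep (h : Dst I f p A B N₀) {a : ℤ} (ha : a ∈ I) {m : ℕ} (hm : N₀ ≤ m) (q : ℕ) :
    ∀ x ∈ pts p a m q, ∀ y ∈ pts p a m q, x ≠ y → A * f m ≤ dist x y := by
  intro x hx y hy hxy
  rw [mem_pts] at hx hy
  obtain ⟨i, _, rfl⟩ := hx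
  obtain ⟨j, _, rfl⟩ := hy
  rcases lt_trichotomy i j with hij | rfl | hij
  · rw [dist_comm]; exact h.sep ha hm hij
  · exact absurd rfl hxy
  · exact h.sep ha hm hij

lemma pts_card (h : Dst I f p A B N₀) {a : ℤ} (ha : a ∈ I) {m : ℕ} (hm : N₀ ≤ m) (q : ℕ) :
    (pts p a m q).card = q := by
  classical
  unfold pts
  rw [Finset.card_image_of_injective, Finset.card_range]
  intro i j hij
  have hN := h.N0
  have hfm := h.rate.pos m (by omega)
  have hA := h.A0
  by_contra hne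
  have hpos : 0 < A * f m := by positivity
  rcases lt_or_gt_of_ne hne with h1 | h1
  · have h2 := h.sep ha hm h1
    simp only at hij
    rw [hij, dist_self] at h2
    linarith
  · have h2 := h.sep ha hm h1
    simp only at hij
    rw [hij, dist_self] at h2
    linarith

lemma pts_vol (h : Dst I f p A B N₀) {a : ℤ} (ha : a ∈ I) {m : ℕ} (hm : N₀ ≤ m) (q : ℕ) :
    V (pts p a m q) (A * f m / 2) = q * ((A * f m / 2) ^ k * vb k) := by
  have hN := h.N0
  have hfm := h.rate.pos m (by omega)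
  have hA := h.A0
  rw [V_disj _ (by positivity), h.pts_card ha hm]
  intro x hx y hy hxy
  have := h.pts_sep ha hm q x hx y hy hxy
  linarith

lemma pts_dist (h : Dst I f p A B N₀) {a : ℤ} (ha : a ∈ I) {m : ℕ} (hm : N₀ ≤ m) {q n : ℕ}
    (hn1 : 1 ≤ n) (hq : ∀ i < q, i * m ≤ n) : ∀ x ∈ pts p a m q, dist x (p a) ≤ B * f n := by
  intro x hx
  rw [mem_pts] at hx
  obtain ⟨i, hi, rfl⟩ := hx
  have hN := h.N0
  have hB := h.B0
  have hfn := h.rate.pos n hn1
  rcases Nat.eq_zero_or_pos i with rfl | hi0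
  · simp only [zero_mul, Nat.cast_zero, add_zero, dist_self]
    positivity
  · have h1 := (h.fwd ha (show N₀ ≤ i * m by nlinarith)).2
    have h2 : f (i * m) ≤ f n := h.rate.mono _ _ (by nlinarith) (hq i hi)
    nlinarith

/-- Packing. -/
lemma packing (h : Dst I f p A B N₀) {m n : ℕ} (hm : N₀ ≤ m) (hmn : m ≤ n) :
    ((n / m : ℕ) + 1 : ℝ) * (A * f m / 2) ^ k ≤ (B * f n + A * f m / 2) ^ k := by
  have hN := h.N0
  have hA := h.A0
  have hB := h.B0
  have hfm := h.rate.pos m (by omega)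
  have hfn := h.rate.pos n (by omega)
  have h1 := h.pts_vol (h.one 1 le_rfl) hm (n / m + 1)
  have h2 := V_le_ball (pts p 1 m (n / m + 1)) (p 1) (R := B * f n) (r := A * f m / 2)
    (by positivity) (by positivity) (h.pts_dist (h.one 1 le_rfl) hm (by omega) (by
      intro i hi
      have : i ≤ n / m := by omega
      calc i * m ≤ n / m * m := Nat.mul_le_mul_right _ this
        _ ≤ n := Nat.div_mul_le_self _ _))
  rw [h1] at h2
  have hv := vb_pos (k := k)
  have h3 : ((n / m : ℕ) + 1 : ℝ) * (A * f m / 2) ^ k * vb k ≤ (B * f n + A * f m / 2) ^ k * vb k := by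
    push_cast at h2 ⊢
    linarith
  exact le_of_mul_le_mul_right h3 hv

lemma floor_bound {m n : ℕ} (hm : 0 < m) (hmn : m ≤ n) :
    (n : ℝ) / m ≤ 2 * ((n / m : ℕ) : ℝ) := by
  have h1 : 1 ≤ n / m := (Nat.one_le_div_iff hm).2 hmn
  have h2 : n < m * (n / m + 1) := Nat.lt_mul_div_succ n hm
  rw [div_le_iff₀ (by exact_mod_cast hm)]
  have : n ≤ 2 * (n / m) * m := by nlinarith
  exact_mod_cast this

end Dst

/-- Radial projection. -/
lemma radial {E : Type*} [NormedAddCommGroup E] [NormedSpace ℝ E] (x z : E) {r : ℝ} (hr : 0 < r)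
    (hz : r ≤ dist z x) : ∃ y, dist y x = r ∧ dist z y = dist z x - r := by
  have hρ : 0 < ‖z - x‖ := by rw [← dist_eq_norm]; linarith
  rw [dist_eq_norm] at hz
  refine ⟨x + (r / ‖z - x‖) • (z - x), ?_, ?_⟩
  · rw [dist_eq_norm, add_sub_cancel_left, norm_smul, Real.norm_of_nonneg (by positivity)]
    field_simp
  · rw [dist_eq_norm, dist_eq_norm]
    have e : z - (x + (r / ‖z - x‖) • (z - x)) = (1 - r / ‖z - x‖) • (z - x) := by
      rw [sub_smul, one_smul]; abel
    rw [e, norm_smul, Real.norm_of_nonneg]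
    · field_simp
    · rw [sub_nonneg, div_le_one hρ]; exact hz

namespace Dst

variable {I : Set ℤ} {f : ℕ → ℝ} {p : ℤ → EuclideanSpace ℝ (Fin k)} {A B : ℝ} {N₀ : ℕ}

/-- Existence of holes. -/
lemma hole (h : Dst I f p A B N₀) (hk : 2 ≤ k) :
    ∃ rs : ℝ, 0 < rs ∧ ∀ c ∈ I, ∀ r : ℝ, rs ≤ r → (∃ n ∈ I, n < c ∧ r ≤ dist (p n) (p c)) →
      ∃ y, dist y (p c) = r ∧ ∀ n ∈ I, A / (16 * B) * r ≤ dist (p n) y := by
  have hA := h.A0
  have hB := h.B0
  have hAB := h.AB
  set D := B * f N₀ + B * f (N₀ + 1) with hD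
  have hD0 : 0 < D := h.D_pos
  set η := A / (16 * B) with hη
  have hη0 : 0 < η := by positivity
  have hη1 : η ≤ 1 / 16 := by
    rw [hη, div_le_iff₀ (by positivity)]; linarith
  refine ⟨2 * D * N₀ + 1 + D / η, by positivity, ?_⟩
  intro c hc r hr hn
  have hr1 : D * N₀ < r / 2 := by
    have : 0 < D / η := by positivity
    linarith
  have hr2 : D < η * r := by
    have h1 : D / η < r := by
      have : (0 : ℝ) ≤ 2 * D * N₀ := by positivity
      linarith
    rw [div_lt_iff₀ hη0] at h1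
    linarith
  have hr0 : 0 < r := by
    have : (0 : ℝ) ≤ D * N₀ := by positivity
    linarith
  by_contra hcon
  push Not at hcon
  have hcov : sphere (p c) r ⊆ {y | ∃ n ∈ I, n ≤ c ∧ dist (p n) y < η * r} ∪
      {y | ∃ n ∈ I, c ≤ n ∧ dist (p n) y < η * r} := by
    intro y hy
    rw [mem_sphere] at hy
    obtain ⟨n, hn, hny⟩ := hcon y hy
    rcases le_total n c with h1 | h1
    · left; exact ⟨n, hn, h1, hny⟩
    · right; exact ⟨n, hn, h1, hny⟩
  have hopen : ∀ S : Set ℤ, IsOpen {y | ∃ n ∈ I, n ∈ S ∧ dist (p n) y < η * r} := by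
    intro S
    have : {y | ∃ n ∈ I, n ∈ S ∧ dist (p n) y < η * r} = ⋃ n ∈ I, ⋃ (_ : n ∈ S),
        ball (p n) (η * r) := by
      ext y
      simp only [Set.mem_ofPred_eq, mem_iUnion, mem_ball, dist_comm y, exists_prop]
    rw [this]
    exact isOpen_biUnion (fun n _ => isOpen_iUnion (fun _ => isOpen_ball))
  have hrank : 1 < Module.rank ℝ (EuclideanSpace ℝ (Fin k)) := by
    rw [← Module.finrank_eq_rank, finrank_euclideanSpace_fin]
    exact_mod_cast hk
  have hconn := isPreconnected_sphere hrank (p c) r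
  have hUm : (sphere (p c) r ∩ {y | ∃ n ∈ I, n ≤ c ∧ dist (p n) y < η * r}).Nonempty := by
    obtain ⟨n, hnI, hnc, hnr⟩ := hn
    have hex : ∃ j : ℕ, c - (j : ℤ) ∈ I ∧ r ≤ dist (p (c - j)) (p c) := by
      refine ⟨(c - n).toNat, ?_⟩
      have : c - (((c - n).toNat : ℕ) : ℤ) = n := by
        rw [Int.toNat_of_nonneg (by omega)]; ring
      rw [this]
      exact ⟨hnI, hnr⟩
    classical
    have hj := Nat.find_spec hex
    have hjmin := fun {m : ℕ} (hm : m < Nat.find hex) => Nat.find_min hex hm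
    set j := Nat.find hex with hjdef
    have hj0 : j ≠ 0 := by
      intro h0
      rw [h0] at hj
      simp only [Nat.cast_zero, sub_zero, dist_self] at hj
      linarith [hj.2]
    obtain ⟨j', hj'⟩ : ∃ j', j = j' + 1 := ⟨j - 1, by omega⟩
    have hI' : c - (j' : ℤ) ∈ I := h.up _ hj.1 _ (by omega)
    have h1 : dist (p (c - j')) (p c) < r := by
      by_contra h2
      push Not at h2
      exact hjmin (by omega : j' < j) ⟨hI', h2⟩
    have h2 := h.step hj.1
    have e : c - (j : ℤ) + 1 = c - (j' : ℤ) := by rw [hj']; push_cast; ring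
    rw [e] at h2
    obtain ⟨y, hy1, hy2⟩ := radial (p c) (p (c - j)) hr0 hj.2
    refine ⟨y, hy1, c - j, hj.1, by omega, ?_⟩
    have h3 := dist_triangle (p (c - j)) (p (c - j')) (p c)
    rw [dist_comm (p (c - j)) (p (c - j'))] at h3
    rw [hy2]
    linarith
  have hUp : (sphere (p c) r ∩ {y | ∃ n ∈ I, c ≤ n ∧ dist (p n) y < η * r}).Nonempty := by
    have hex : ∃ j : ℕ, r ≤ dist (p (c + j)) (p c) := by
      obtain ⟨j0, hj0, hj1⟩ := h.rate.unbounded (r / A)
      refine ⟨max j0 N₀, ?_⟩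
      have h1 := (h.fwd hc (le_max_right j0 N₀)).1
      have h2 := h.rate.mono j0 (max j0 N₀) hj0 (le_max_left _ _)
      rw [div_lt_iff₀ hA] at hj1
      nlinarith
    classical
    have hj := Nat.find_spec hex
    have hjmin := fun {m : ℕ} (hm : m < Nat.find hex) => Nat.find_min hex hm
    set j := Nat.find hex with hjdef
    have hj0 : j ≠ 0 := by
      intro h0
      rw [h0] at hj
      simp only [Nat.cast_zero, add_zero, dist_self] at hj
      linarith
    obtain ⟨j', hj'⟩ : ∃ j', j = j' + 1 := ⟨j - 1, by omega⟩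
    have h1 : dist (p (c + j')) (p c) < r := by
      by_contra h2
      push Not at h2
      exact hjmin (by omega : j' < j) h2
    have h2 := h.step (h.up c hc (c + j') (by omega))
    have e : c + (j' : ℤ) + 1 = c + (j : ℤ) := by rw [hj']; push_cast; ring
    rw [e] at h2
    obtain ⟨y, hy1, hy2⟩ := radial (p c) (p (c + j)) hr0 hj
    refine ⟨y, hy1, c + j, h.up c hc _ (by omega), by omega, ?_⟩
    have h3 := dist_triangle (p (c + j)) (p (c + j')) (p c)
    rw [hy2]
    linarith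
  obtain ⟨y, hy, hym, hyp⟩ := hconn _ _ (hopen {n | n ≤ c}) (hopen {n | c ≤ n}) hcov hUm hUp
  rw [mem_sphere] at hy
  obtain ⟨n, hnI, hnc, hny⟩ := hym
  obtain ⟨n', hnI', hnc', hny'⟩ := hyp
  simp only [Set.mem_ofPred_eq] at hnc hnc'
  -- indices
  obtain ⟨j, hj⟩ : ∃ j : ℕ, c = n + j := ⟨(c - n).toNat, by omega⟩
  obtain ⟨j', hj'⟩ : ∃ j' : ℕ, n' = c + j' := ⟨(n' - c).toNat, by omega⟩
  have h1 : r / 2 ≤ dist (p n') (p c) := by
    have := dist_triangle_left y (p c) (p n')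
    nlinarith
  have hj'N : N₀ ≤ j' := by
    by_contra hlt
    push Not at hlt
    have h2 := h.lip hc j'
    rw [← hj', ← hD] at h2
    have : D * j' ≤ D * N₀ := by
      apply mul_le_mul_of_nonneg_left _ hD0.le
      exact_mod_cast hlt.le
    linarith
  have h2 := (h.fwd hc hj'N).2
  rw [← hj'] at h2
  have h3 := (h.fwd hnI (show N₀ ≤ j + j' by omega)).1
  have e : n + ((j + j' : ℕ) : ℤ) = n' := by rw [hj', hj]; push_cast; ring
  rw [e] at h3
  have h4 : f j' ≤ f (j + j') := h.rate.mono _ _ (by have := h.N0; omega) (by omega)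
  have h5 : dist (p n') (p n) < 2 * (η * r) := by
    have := dist_triangle_right (p n') (p n) y
    linarith
  have h6 : A * (r / 2) ≤ A * (B * f j') := mul_le_mul_of_nonneg_left (h1.trans h2) hA.le
  have h7 : A * f j' ≤ A * f (j + j') := mul_le_mul_of_nonneg_left h4 hA.le
  have h8 : η * (16 * B) = A := by rw [hη]; field_simp
  -- A f j' ≥ 8 η r
  have h9 : 8 * (η * r) ≤ A * f j' := by
    have : B * (8 * (η * r)) ≤ B * (A * f j') := by nlinarith
    exact le_of_mul_le_mul_left this hB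
  have : 0 < η * r := by positivity
  linarith

/-- Iterated decay. -/
lemma iter (h : Dst I f p A B N₀) (hk : 2 ≤ k) :
    ∃ N₁ : ℕ, ∀ m n : ℕ, N₁ ≤ m → 1 ≤ m → m ≤ n → ∀ J : ℕ,
      f m ≤ (A / (16 * B) / 8) ^ J * f n →
      ((n / m : ℕ) : ℝ) * (A * f m / 2) ^ k ≤
        (1 - (A / (16 * B) / 16) ^ k) ^ J * (5 * B * f n) ^ k := by
  have hA := h.A0
  have hB := h.B0
  have hAB := h.AB
  have hN := h.N0
  obtain ⟨rs, hrs, hhole⟩ := h.hole hk
  set η := A / (16 * B) with hη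
  have hη0 : 0 < η := by positivity
  have hη1 : η ≤ 1 / 16 := by
    rw [hη, div_le_iff₀ (by positivity)]; linarith
  obtain ⟨N₂, hN₂, hN₂'⟩ := h.rate.unbounded (rs / A)
  rw [div_lt_iff₀ hA] at hN₂'
  refine ⟨max N₀ N₂, ?_⟩
  intro m n hm hm1 hmn
  have hmN : N₀ ≤ m := (le_max_left _ _).trans hm
  have hfm := h.rate.pos m hm1
  have hfn := h.rate.pos n (by omega)
  have hrsm : rs ≤ A * f m := by
    have := h.rate.mono N₂ m hN₂ ((le_max_right _ _).trans hm)
    nlinarith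
  have haI : ((n : ℤ) + 1) ∈ I := h.one _ (by omega)
  set P := pts p ((n : ℤ) + 1) m (n / m) with hP
  have hδ0 : 0 ≤ 1 - (η / 16) ^ k := by
    have : (η / 16) ^ k ≤ 1 := pow_le_one₀ (by positivity) (by linarith)
    linarith
  have hV : ∀ J : ℕ, f m ≤ (η / 8) ^ J * f n →
      V P ((η / 8) ^ J * (4 * (A * f n))) ≤ (1 - (η / 16) ^ k) ^ J * V P (4 * (A * f n)) := by
    intro J
    induction J with
    | zero => intro _; simp
    | succ J ih =>
      intro hJ
      have hJ' : f m ≤ (η / 8) ^ J * f n := by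
        refine hJ.trans ?_
        rw [pow_succ]
        have : 0 < (η / 8) ^ J * f n := by positivity
        nlinarith
      have ih' := ih hJ'
      have hstep : V P (η / 8 * ((η / 8) ^ J * (4 * (A * f n)))) ≤
          (1 - (η / 16) ^ k) * V P ((η / 8) ^ J * (4 * (A * f n))) := by
        apply decay P (by positivity) hη0 (by linarith)
        intro x hx
        rw [hP, mem_pts] at hx
        obtain ⟨i, hi, rfl⟩ := hx
        have hcI : (n : ℤ) + 1 + (i * m : ℕ) ∈ I := h.one _ (by omega)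
        have hc1 : (1 : ℤ) + (i * m : ℕ) ∈ I := h.one _ (by omega)
        have e4 : (η / 8) ^ J * (4 * (A * f n)) / 4 = (η / 8) ^ J * (A * f n) := by ring
        have hr1 : rs ≤ (η / 8) ^ J * (A * f n) := by
          refine hrsm.trans ?_
          calc A * f m ≤ A * ((η / 8) ^ J * f n) := by gcongr
            _ = _ := by ring
        have hr2 : (η / 8) ^ J * (A * f n) ≤ A * f n := by
          have : (η / 8) ^ J ≤ 1 := pow_le_one₀ (by positivity) (by linarith)
          have h0 : 0 < A * f n := by positivity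
          nlinarith
        obtain ⟨y, hy1, hy2⟩ := hhole _ hcI _ hr1 ⟨1 + (i * m : ℕ), hc1, by omega, by
          refine hr2.trans ?_
          have h1 := (h.fwd hc1 (show N₀ ≤ n by omega)).1
          have e : (1 : ℤ) + (i * m : ℕ) + (n : ℤ) = (n : ℤ) + 1 + (i * m : ℕ) := by ring
          rw [e, dist_comm] at h1
          exact h1⟩
        refine ⟨y, by rw [hy1, e4], ?_⟩
        intro z hz
        rw [hP, mem_pts] at hz
        obtain ⟨i', hi', rfl⟩ := hz
        rw [e4]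
        exact hy2 _ (h.one _ (by omega))
      calc V P ((η / 8) ^ (J + 1) * (4 * (A * f n)))
          = V P (η / 8 * ((η / 8) ^ J * (4 * (A * f n)))) := by congr 1; ring
        _ ≤ (1 - (η / 16) ^ k) * V P ((η / 8) ^ J * (4 * (A * f n))) := hstep
        _ ≤ (1 - (η / 16) ^ k) * ((1 - (η / 16) ^ k) ^ J * V P (4 * (A * f n))) := by
            gcongr
        _ = _ := by ring
  intro J hJ
  have h1 := h.pts_vol haI hmN (n / m)
  have h2 : V P (A * f m / 2) ≤ V P ((η / 8) ^ J * (4 * (A * f n))) := by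
    apply V_mono
    have : A * f m ≤ (η / 8) ^ J * (A * f n) := by
      calc A * f m ≤ A * ((η / 8) ^ J * f n) := by gcongr
        _ = _ := by ring
    have h0 : 0 < A * f m := by positivity
    nlinarith
  have h3 := hV J hJ
  have h4 : V P (4 * (A * f n)) ≤ (B * f n + 4 * (A * f n)) ^ k * vb k := by
    apply V_le_ball P (p ((n : ℤ) + 1)) (by positivity) (by positivity)
    apply h.pts_dist haI hmN (by omega)
    intro i hi
    calc i * m ≤ n / m * m := Nat.mul_le_mul_right _ hi.le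
      _ ≤ n := Nat.div_mul_le_self _ _
  have h5 : (B * f n + 4 * (A * f n)) ^ k ≤ (5 * B * f n) ^ k := by
    apply pow_le_pow_left₀ (by positivity)
    nlinarith
  have hv := vb_pos (k := k)
  have h6 : ((n / m : ℕ) : ℝ) * (A * f m / 2) ^ k * vb k ≤
      (1 - (η / 16) ^ k) ^ J * (5 * B * f n) ^ k * vb k := by
    have h7 : (1 - (η / 16) ^ k) ^ J * V P (4 * (A * f n)) ≤
        (1 - (η / 16) ^ k) ^ J * ((5 * B * f n) ^ k * vb k) := by
      apply mul_le_mul_of_nonneg_left _ (pow_nonneg hδ0 J)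
      exact h4.trans (mul_le_mul_of_nonneg_right h5 hv.le)
    rw [← hP] at h1
    rw [h1] at h2
    calc ((n / m : ℕ) : ℝ) * (A * f m / 2) ^ k * vb k
        = ((n / m : ℕ) : ℝ) * ((A * f m / 2) ^ k * vb k) := by ring
      _ ≤ _ := h2.trans (h3.trans h7)
      _ = _ := by ring
  exact le_of_mul_le_mul_right h6 hv

end Dst

end nec

end Pool.Agent.H61.SD
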