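import Mathlib
import Pool.Agent.H61.SDNec

set_option autoImplicit false

open MeasureTheory Metric Set

namespace Pool.Agent.H61.SD

namespace Dst

variable {k : ℕ} {I : Set ℤ} {f : ℕ → ℝ} {p : ℤ → EuclideanSpace ℝ (Fin k)} {A B : ℝ} {N₀ : ℕ}

/-- Necessity, dimension at least two. -/
theorem growth (h : Dst I f p A B N₀) (hk : 2 ≤ k) : GrowthBetween (1 / (k : ℝ)) f := by
  have hA := h.A0
  have hB := h.B0
  have hAB := h.AB
  have hN := h.N0
  obtain ⟨N₁, hiter⟩ := h.iter hk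
  set η := A / (16 * B) with hη
  have hη0 : 0 < η := by positivity
  have hη1 : η ≤ 1 / 16 := by
    rw [hη, div_le_iff₀ (by positivity)]; linarith
  set θ := η / 8 with hθ
  have hθ0 : 0 < θ := by positivity
  have hθ1 : θ < 1 / 2 := by rw [hθ]; linarith
  set b := 1 - (η / 16) ^ k with hb
  have hkR : (2 : ℝ) ≤ k := by exact_mod_cast hk
  have hδ0 : 0 < (η / 16) ^ k := by positivity
  have hδ1 : (η / 16) ^ k ≤ 1 / 2 := by
    calc (η / 16) ^ k ≤ (η / 16) ^ 1 := by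
          apply pow_le_pow_of_le_one (by positivity) (by linarith) (by omega)
      _ ≤ 1 / 2 := by rw [pow_one]; linarith
  have hb1 : b < 1 := by rw [hb]; linarith
  have hb2 : 1 / 2 ≤ b := by rw [hb]; linarith
  have hb0 : 0 < b := by linarith
  have hlogθ : Real.log θ < 0 := Real.log_neg hθ0 (by linarith)
  have hlogb : Real.log b < 0 := Real.log_neg hb0 hb1
  set ε := Real.log b / Real.log θ with hε
  have hε0 : 0 < ε := div_pos_of_neg_of_neg hlogb hlogθ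
  have hε1 : ε < 1 := by
    rw [hε, div_lt_one_of_neg hlogθ]
    exact Real.log_lt_log hθ0 (by linarith)
  have hθε : θ ^ ε = b := by
    rw [Real.rpow_def_of_pos hθ0, hε, mul_div_cancel₀ _ hlogθ.ne, Real.exp_log hb0]
  have hkε : 0 < (k : ℝ) - ε := by linarith
  set K := (10 * B / A) ^ k / b with hK
  have hK0 : 0 < K := by positivity
  refine ⟨1 / (k - ε), ?_, ((2 * K) ^ (1 / ((k : ℝ) - ε)))⁻¹, B / A + 2 * B ^ 2 / A ^ 2,
    by positivity, max N₀ N₁, ?_⟩
  · apply one_div_lt_one_div_of_lt hkε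
    linarith
  intro m n hm1 hm hmn
  have hmN : N₀ ≤ m := (le_max_left _ _).trans hm
  refine ⟨?_, h.upper hmN hmn⟩
  have hfm := h.rate.pos m hm1
  have hfn := h.rate.pos n (by omega)
  set x := f n / f m with hx
  have hx1 : 1 ≤ x := by
    rw [hx, le_div_iff₀ hfm, one_mul]; exact h.rate.mono _ _ hm1 hmn
  have hx0 : 0 < x := by linarith
  have hy1 : 1 < θ⁻¹ := by
    rw [one_lt_inv₀ hθ0]; linarith
  obtain ⟨J, hJ1, hJ2⟩ := exists_nat_pow_near hx1 hy1
  have hJ : f m ≤ θ ^ J * f n := by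
    rw [hx, le_div_iff₀ hfm, inv_pow, inv_mul_le_iff₀ (by positivity)] at hJ1
    exact hJ1
  have h1 := hiter m n ((le_max_right _ _).trans hm) hm1 hmn J hJ
  -- b^{J+1} x^ε ≤ 1
  have h2 : b ^ (J + 1) * x ^ ε ≤ 1 := by
    have h3 : x ^ ε ≤ ((θ⁻¹) ^ (J + 1)) ^ ε := Real.rpow_le_rpow hx0.le hJ2.le hε0.le
    have h4 : ((θ⁻¹) ^ (J + 1)) ^ ε = (b ^ (J + 1))⁻¹ := by
      rw [← hθε, inv_pow, Real.inv_rpow (by positivity), ← Real.rpow_natCast, ← Real.rpow_natCast,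
        ← Real.rpow_mul hθ0.le, ← Real.rpow_mul hθ0.le, mul_comm ε]
    rw [h4] at h3
    calc b ^ (J + 1) * x ^ ε ≤ b ^ (J + 1) * (b ^ (J + 1))⁻¹ := by gcongr
      _ = 1 := by field_simp
  have h5 : ((n / m : ℕ) : ℝ) ≤ b ^ J * ((10 * B / A) ^ k * x ^ k) := by
    have h6 : (A * f m / 2) ^ k > 0 := by positivity
    rw [← div_le_div_iff_of_pos_right h6] at h1
    rw [mul_div_assoc, div_self h6.ne', mul_one] at h1
    refine h1.trans (le_of_eq ?_)
    rw [mul_div_assoc, ← div_pow, ← mul_pow]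
    congr 2
    rw [hx]
    field_simp
    ring
  have h7 : ((n / m : ℕ) : ℝ) ≤ K * x ^ ((k : ℝ) - ε) := by
    rw [Real.rpow_sub hx0, Real.rpow_natCast, hK]
    have hxε : 0 < x ^ ε := Real.rpow_pos_of_pos hx0 _
    rw [div_mul_div_comm, le_div_iff₀ (by positivity)]
    calc ((n / m : ℕ) : ℝ) * (b * x ^ ε) ≤ (b ^ J * ((10 * B / A) ^ k * x ^ k)) * (b * x ^ ε) := by
          gcongr
      _ = (b ^ (J + 1) * x ^ ε) * ((10 * B / A) ^ k * x ^ k) := by ring
      _ ≤ 1 * ((10 * B / A) ^ k * x ^ k) := by gcongr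
      _ = _ := one_mul _
  have h8 : (n : ℝ) / m ≤ 2 * K * x ^ ((k : ℝ) - ε) := by
    have := floor_bound (by omega : 0 < m) hmn
    linarith
  have h9 : ((n : ℝ) / m) ^ (1 / ((k : ℝ) - ε)) ≤ (2 * K) ^ (1 / ((k : ℝ) - ε)) * x := by
    calc ((n : ℝ) / m) ^ (1 / ((k : ℝ) - ε))
        ≤ (2 * K * x ^ ((k : ℝ) - ε)) ^ (1 / ((k : ℝ) - ε)) := by
          apply Real.rpow_le_rpow (by positivity) h8 (by positivity)
      _ = (2 * K) ^ (1 / ((k : ℝ) - ε)) * x := by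
          rw [Real.mul_rpow (by positivity) (by positivity), ← Real.rpow_mul hx0.le,
            mul_one_div_cancel hkε.ne', Real.rpow_one]
  have h10 : 0 < (2 * K) ^ (1 / ((k : ℝ) - ε)) := by positivity
  calc ((2 * K) ^ (1 / ((k : ℝ) - ε)))⁻¹ * ((n : ℝ) / m) ^ (1 / ((k : ℝ) - ε)) * f m
      ≤ ((2 * K) ^ (1 / ((k : ℝ) - ε)))⁻¹ * ((2 * K) ^ (1 / ((k : ℝ) - ε)) * x) * f m := by
        gcongr
    _ = x * f m := by field_simp
    _ = f n := by rw [hx]; field_simp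

/-- Necessity, dimension one. -/
theorem linear {p : ℤ → EuclideanSpace ℝ (Fin 1)} (h : Dst I f p A B N₀) : LinearGrowth f := by
  have hA := h.A0
  have hB := h.B0
  have hN := h.N0
  have hf0 := h.rate.pos N₀ hN
  have hN0 : (0 : ℝ) < N₀ := by exact_mod_cast (by omega : 0 < N₀)
  refine ⟨A / (4 * B) * (f N₀ / N₀), (B / A + 2 * B ^ 2 / A ^ 2) * (f N₀ / N₀), by positivity, N₀, ?_⟩
  intro n hn1 hn
  constructor
  · have h1 := h.packing (le_refl N₀) hn
    rw [pow_one, pow_one] at h1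
    have h2 := floor_bound (by omega : 0 < N₀) hn
    have h3 : ((n / N₀ : ℕ) : ℝ) * (A * f N₀ / 2) ≤ B * f n := by linarith
    have h4 : (n : ℝ) / N₀ * (A * f N₀ / 2) ≤ 2 * (B * f n) := by
      calc (n : ℝ) / N₀ * (A * f N₀ / 2) ≤ 2 * ((n / N₀ : ℕ) : ℝ) * (A * f N₀ / 2) := by gcongr
        _ ≤ _ := by linarith
    have h5 : A / (4 * B) * (f N₀ / N₀) * n = ((n : ℝ) / N₀ * (A * f N₀ / 2)) / (2 * B) := by
      field_simp; ring
    rw [h5, div_le_iff₀ (by positivity)]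
    linarith
  · have h1 := h.upper (le_refl N₀) hn
    refine h1.trans (le_of_eq ?_)
    ring

end Dst

/-- Transfer from the public definition. -/
theorem dst_of_isDistorted {k : ℕ} {I : Set ℤ} (hI : I = indexN ∨ I = indexZ) {f : ℕ → ℝ}
    (hf : IsRateFunction f) (hR : Realizable I f (EuclideanSpace ℝ (Fin k))) :
    ∃ (p : ℤ → EuclideanSpace ℝ (Fin k)) (A B : ℝ) (N₀ : ℕ), Dst I f p A B N₀ := by
  obtain ⟨p, A, B, hA, hB, N₀, hN, hd⟩ := hR
  refine ⟨p, A, B, N₀, hf, ?_, ?_, hA, hB, hN, hd⟩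
  · rcases hI with rfl | rfl
    · intro n hn; exact hn
    · intro n _; exact mem_univ n
  · rcases hI with rfl | rfl
    · intro n hn m hm; exact le_trans (show (1 : ℤ) ≤ n from hn) hm
    · intro n _ m _; exact mem_univ m

end Pool.Agent.H61.SD
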