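import Mathlib
import Pool.Agent.H61.SDCurve

set_option autoImplicit false

open Metric Set

namespace Pool.Agent.H61.SD

section pat

variable {n : ℕ}

/-- Integer vector as a point of Euclidean space. -/
noncomputable def toE (z : Fin (n + 1) → ℤ) : EuclideanSpace ℝ (Fin (n + 1)) :=
  WithLp.toLp 2 (fun i => (z i : ℝ))

@[simp] lemma toE_apply (z : Fin (n + 1) → ℤ) (i : Fin (n + 1)) : (toE z) i = (z i : ℝ) := rfl

/-- The basis vector `e`. -/
noncomputable def eb (n : ℕ) : EuclideanSpace ℝ (Fin (n + 1)) := EuclideanSpace.single 0 1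

lemma eb_norm : ‖eb n‖ = 1 := by
  unfold eb
  rw [EuclideanSpace.norm_eq]
  simp

lemma eb_apply (i : Fin (n + 1)) : (eb n) i = if i = 0 then 1 else 0 := by
  simp [eb]

/-- Unit steps between integer vectors. -/
def Stp (x y : Fin (n + 1) → ℤ) : Prop :=
  ∃ i : Fin (n + 1), ∃ σ : ℤ, (σ = 1 ∨ σ = -1) ∧ y = x + Pi.single i σ

lemma Stp.symm {x y : Fin (n + 1) → ℤ} (h : Stp x y) : Stp y x := by
  obtain ⟨i, σ, hσ, rfl⟩ := h
  refine ⟨i, -σ, by omega, ?_⟩
  rw [Pi.single_neg]
  abel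

lemma Stp.add {x y : Fin (n + 1) → ℤ} (h : Stp x y) (w : Fin (n + 1) → ℤ) :
    Stp (x + w) (y + w) := by
  obtain ⟨i, σ, hσ, rfl⟩ := h
  exact ⟨i, σ, hσ, by abel⟩

/-- Axis vertex. -/
def IsAx (s : ℤ) (z : Fin (n + 1) → ℤ) : Prop := (∀ j, j ≠ 0 → z j = 0) ∧ 0 ≤ z 0 ∧ z 0 ≤ s

/-- Vertex well inside the diamond. -/
def IsMg (s : ℤ) (z : Fin (n + 1) → ℤ) : Prop :=
  (∀ j, j ≠ 0 → 4 * (n + 1) * |z j| + 1 ≤ z 0 ∧ 4 * (n + 1) * |z j| + 1 ≤ s - z 0) ∧
    1 ≤ z 0 ∧ 1 ≤ s - z 0

/-- Lattice pattern. -/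
structure LPat (n M s : ℕ) (g : ℕ → Fin (n + 1) → ℤ) : Prop where
  zero : g 0 = 0
  first : g 1 = Pi.single 0 1
  last : g M = Pi.single 0 (s : ℤ)
  inj : ∀ i j, i < j → j ≤ M → g i ≠ g j
  stp : ∀ d < M, Stp (g d) (g (d + 1))
  mg : ∀ d < M, (IsAx s (g d) ∧ IsAx s (g (d + 1))) ∨ (IsMg s (g d) ∧ IsMg s (g (d + 1)))
  one_le : 1 ≤ s

lemma norm_le_of_coord {v : EuclideanSpace ℝ (Fin (n + 1))} {c : ℝ} (hc : 0 ≤ c)
    (h : ∀ j, |v j| ≤ c) : ‖v‖ ≤ (n + 1) * c := by
  have h1 : ‖v‖ ^ 2 ≤ ((n + 1) * c) ^ 2 := by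
    rw [EuclideanSpace.real_norm_sq_eq]
    have h2 : ∑ i, v i ^ 2 ≤ ∑ _i : Fin (n + 1), c ^ 2 := by
      apply Finset.sum_le_sum
      intro i _
      rw [← sq_abs]
      exact pow_le_pow_left₀ (abs_nonneg _) (h i) 2
    refine h2.trans ?_
    simp only [Finset.sum_const, Finset.card_univ, Fintype.card_fin, nsmul_eq_mul]
    push_cast
    have h3 : (0 : ℝ) ≤ n := Nat.cast_nonneg n
    have h4 : 0 ≤ c ^ 2 := sq_nonneg c
    nlinarith [mul_nonneg h3 h4, mul_nonneg (mul_nonneg h3 h3) h4]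
  exact abs_le_of_sq_le_sq' h1 (by positivity) |>.2

lemma coord_le_norm (v : EuclideanSpace ℝ (Fin (n + 1))) (j : Fin (n + 1)) : |v j| ≤ ‖v‖ := by
  have := PiLp.norm_apply_le v j
  rwa [Real.norm_eq_abs] at this

/-- Intervals with integer endpoints and no common endpoint. -/
lemma interval_sep {a b a' b' : ℤ} (h1 : |a - b| ≤ 1) (h2 : |a' - b'| ≤ 1) (h3 : a ≠ a')
    (h4 : a ≠ b') (h5 : b ≠ a') (h6 : b ≠ b') {T T' : ℝ} (hT0 : 0 ≤ T) (hT1 : T ≤ 1)
    (hT0' : 0 ≤ T') (hT1' : T' ≤ 1) :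
    1 ≤ |((a : ℝ) + T * (b - a)) - (a' + T' * (b' - a'))| := by
  rw [abs_le] at h1 h2
  have h : (a + 1 ≤ a' ∧ a + 1 ≤ b' ∧ b + 1 ≤ a' ∧ b + 1 ≤ b') ∨
      (a' + 1 ≤ a ∧ a' + 1 ≤ b ∧ b' + 1 ≤ a ∧ b' + 1 ≤ b) := by omega
  rcases h with ⟨p1, p2, p3, p4⟩ | ⟨p1, p2, p3, p4⟩
  · have q1 : (a : ℝ) + 1 ≤ a' := by exact_mod_cast p1
    have q2 : (a : ℝ) + 1 ≤ b' := by exact_mod_cast p2
    have q3 : (b : ℝ) + 1 ≤ a' := by exact_mod_cast p3
    have q4 : (b : ℝ) + 1 ≤ b' := by exact_mod_cast p4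
    rw [le_abs]; right
    have r1 : (a : ℝ) + T * (b - a) + 1 ≤ a' := by nlinarith
    have r2 : (a : ℝ) + T * (b - a) + 1 ≤ b' := by nlinarith
    nlinarith
  · have q1 : (a' : ℝ) + 1 ≤ a := by exact_mod_cast p1
    have q2 : (a' : ℝ) + 1 ≤ b := by exact_mod_cast p2
    have q3 : (b' : ℝ) + 1 ≤ a := by exact_mod_cast p3
    have q4 : (b' : ℝ) + 1 ≤ b := by exact_mod_cast p4
    rw [le_abs]; left
    have r1 : (a' : ℝ) + T' * (b' - a') + 1 ≤ a := by nlinarith
    have r2 : (a' : ℝ) + T' * (b' - a') + 1 ≤ b := by nlinarith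
    nlinarith

lemma stp_abs {x y : Fin (n + 1) → ℤ} (h : Stp x y) (l : Fin (n + 1)) : |x l - y l| ≤ 1 := by
  obtain ⟨i, σ, hσ, rfl⟩ := h
  rw [Pi.add_apply, Pi.single_apply]
  rw [abs_le]
  split_ifs <;> omega

/-- A vector all of whose coordinates are coordinates of the ends of an edge is an end. -/
lemma stp_mem {x y w : Fin (n + 1) → ℤ} (h : Stp x y) (hw : ∀ l, w l = x l ∨ w l = y l) :
    w = x ∨ w = y := by
  obtain ⟨i, σ, hσ, rfl⟩ := h
  have hl : ∀ l, l ≠ i → w l = x l := by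
    intro l hl
    rcases hw l with h1 | h1
    · exact h1
    · rw [h1, Pi.add_apply, Pi.single_apply, if_neg hl, add_zero]
  rcases hw i with h1 | h1
  · left
    ext l
    by_cases hli : l = i
    · rw [hli, h1]
    · exact hl l hli
  · right
    ext l
    by_cases hli : l = i
    · rw [hli, h1]
    · rw [hl l hli, Pi.add_apply, Pi.single_apply, if_neg hli, add_zero]

theorem LPat.isPat {M s : ℕ} {g : ℕ → Fin (n + 1) → ℤ} (h : LPat n M s g) :
    IsPat (eb n) M (s : ℝ) (fun d => toE (g d)) where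
  zero := by
    ext i; simp [h.zero]
  first := by
    ext i
    simp only [toE_apply, h.first, eb_apply, Pi.single_apply]
    split_ifs <;> simp
  last := by
    ext i
    simp only [toE_apply, h.last, PiLp.smul_apply, eb_apply, Pi.single_apply, smul_eq_mul]
    split_ifs <;> simp
  unit := by
    intro d hd
    obtain ⟨i, σ, hσ, he⟩ := h.stp d hd
    rw [EuclideanSpace.norm_eq, Real.sqrt_eq_one]
    rw [Finset.sum_eq_single i]
    · simp only [he, PiLp.sub_apply, toE_apply, Pi.add_apply, Pi.single_eq_same]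
      rcases hσ with rfl | rfl <;> simp
    · intro j _ hj
      simp [he, hj]
    · simp
  dia := by
    intro d hd T hT0 hT1
    obtain ⟨i, σ, hσ, he⟩ := h.stp d hd
    have hs : ∀ j, |g d j - g (d + 1) j| ≤ 1 := stp_abs (h.stp d hd)
    rcases h.mg d hd with ⟨ha, hb⟩ | ⟨ha, hb⟩
    · -- axis
      obtain ⟨ha1, ha2, ha3⟩ := ha
      obtain ⟨hb1, hb2, hb3⟩ := hb
      have hi : i = 0 := by
        by_contra hi
        have h1 := hb1 i hi
        have h2 := ha1 i hi
        rw [he, Pi.add_apply, Pi.single_eq_same] at h1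
        omega
      subst hi
      have h0 : g (d + 1) 0 = g d 0 + σ := by rw [he, Pi.add_apply, Pi.single_eq_same]
      have hnorm : toE (g d) + T • (toE (g (d + 1)) - toE (g d)) -
          ((g d 0 : ℝ) + T * σ) • eb n = 0 := by
        ext j
        simp only [PiLp.sub_apply, PiLp.add_apply, PiLp.smul_apply, toE_apply, eb_apply,
          smul_eq_mul, PiLp.zero_apply]
        by_cases hj : j = 0
        · subst hj
          rw [h0]; push_cast; simp
        · rw [ha1 j hj, hb1 j hj]; simp [hj]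
      have e0 : ((g (d + 1) 0 : ℤ) : ℝ) = (g d 0 : ℝ) + σ := by rw [h0]; push_cast; ring
      have c1 : (0 : ℝ) ≤ (g d 0 : ℝ) := by exact_mod_cast ha2
      have c2 : (g d 0 : ℝ) ≤ s := by exact_mod_cast ha3
      have c3 : (0 : ℝ) ≤ (g d 0 : ℝ) + σ := by rw [← e0]; exact_mod_cast hb2
      have c4 : (g d 0 : ℝ) + σ ≤ s := by rw [← e0]; exact_mod_cast hb3
      refine ⟨(g d 0 : ℝ) + T * σ, ?_, ?_, ?_⟩
      · nlinarith
      · nlinarith
      · rw [hnorm, norm_zero, zero_add]
        have m1 := min_le_left T (1 - T)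
        have m2 := min_le_right T (1 - T)
        apply div_le_div_of_nonneg_right _ (by norm_num)
        rcases hσ with rfl | rfl
        · push_cast at *
          apply le_min <;> linarith
        · push_cast at *
          apply le_min <;> linarith
    · -- margin
      obtain ⟨ha1, ha2, ha3⟩ := ha
      obtain ⟨hb1, hb2, hb3⟩ := hb
      set y0 : ℝ := (1 - T) * (g d 0 : ℝ) + T * (g (d + 1) 0 : ℝ) with hy0
      have r1 : (1 : ℝ) ≤ (g d 0 : ℝ) := by exact_mod_cast ha2
      have r2 : (1 : ℝ) ≤ s - (g d 0 : ℝ) := by exact_mod_cast ha3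
      have r3 : (1 : ℝ) ≤ (g (d + 1) 0 : ℝ) := by exact_mod_cast hb2
      have r4 : (1 : ℝ) ≤ s - (g (d + 1) 0 : ℝ) := by exact_mod_cast hb3
      have hm1 : 1 ≤ y0 := by rw [hy0]; nlinarith
      have hm2 : 1 ≤ s - y0 := by rw [hy0]; nlinarith
      have hm : 1 ≤ min y0 (s - y0) := le_min hm1 hm2
      refine ⟨y0, by linarith, by linarith, ?_⟩
      have hnorm : ‖toE (g d) + T • (toE (g (d + 1)) - toE (g d)) - y0 • eb n‖ ≤
          (n + 1) * ((min y0 (s - y0) - 1) / (4 * (n + 1))) := by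
        apply norm_le_of_coord
        · apply div_nonneg (by linarith) (by positivity)
        intro j
        simp only [PiLp.sub_apply, PiLp.add_apply, PiLp.smul_apply, toE_apply, eb_apply,
          smul_eq_mul]
        by_cases hj : j = 0
        · subst hj
          have : (g d 0 : ℝ) + T * ((g (d + 1) 0 : ℝ) - (g d 0 : ℝ)) - y0 * (if (0 : Fin (n + 1)) = 0
              then 1 else 0) = 0 := by
            rw [if_pos rfl, hy0]; ring
          rw [this, abs_zero]
          apply div_nonneg (by linarith) (by positivity)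
        · rw [if_neg hj, mul_zero, sub_zero, le_div_iff₀ (by positivity)]
          obtain ⟨p1, p2⟩ := ha1 j hj
          obtain ⟨p3, p4⟩ := hb1 j hj
          have q1 : 4 * ((n : ℝ) + 1) * |(g d j : ℝ)| + 1 ≤ (g d 0 : ℝ) := by exact_mod_cast p1
          have q2 : 4 * ((n : ℝ) + 1) * |(g d j : ℝ)| + 1 ≤ s - (g d 0 : ℝ) := by
            exact_mod_cast p2
          have q3 : 4 * ((n : ℝ) + 1) * |(g (d + 1) j : ℝ)| + 1 ≤ (g (d + 1) 0 : ℝ) := by
            exact_mod_cast p3
          have q4 : 4 * ((n : ℝ) + 1) * |(g (d + 1) j : ℝ)| + 1 ≤ s - (g (d + 1) 0 : ℝ) := by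
            exact_mod_cast p4
          have habs : |(g d j : ℝ) + T * ((g (d + 1) j : ℝ) - (g d j : ℝ))| ≤
              (1 - T) * |(g d j : ℝ)| + T * |(g (d + 1) j : ℝ)| := by
            have e1 : (g d j : ℝ) + T * ((g (d + 1) j : ℝ) - (g d j : ℝ)) =
                (1 - T) * (g d j : ℝ) + T * (g (d + 1) j : ℝ) := by ring
            rw [e1]
            refine (abs_add_le _ _).trans ?_
            rw [abs_mul, abs_mul, abs_of_nonneg hT0, abs_of_nonneg (sub_nonneg.2 hT1)]
          have hn0 : (0 : ℝ) ≤ 4 * ((n : ℝ) + 1) := by positivity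
          have h1T : 0 ≤ 1 - T := by linarith
          have s1 : (1 - T) * (4 * ((n : ℝ) + 1) * |(g d j : ℝ)| + 1) +
              T * (4 * ((n : ℝ) + 1) * |(g (d + 1) j : ℝ)| + 1) ≤ y0 := by
            rw [hy0]
            exact add_le_add (mul_le_mul_of_nonneg_left q1 h1T) (mul_le_mul_of_nonneg_left q3 hT0)
          have s2 : (1 - T) * (4 * ((n : ℝ) + 1) * |(g d j : ℝ)| + 1) +
              T * (4 * ((n : ℝ) + 1) * |(g (d + 1) j : ℝ)| + 1) ≤ s - y0 := by
            have := add_le_add (mul_le_mul_of_nonneg_left q2 h1T)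
              (mul_le_mul_of_nonneg_left q4 hT0)
            refine this.trans (le_of_eq ?_)
            rw [hy0]; ring
          have s3 := le_min s1 s2
          have s4 := mul_le_mul_of_nonneg_left habs hn0
          nlinarith
      have hhalf : min T (1 - T) ≤ 1 := (min_le_left _ _).trans hT1
      have e2 : ((n : ℝ) + 1) * ((min y0 (s - y0) - 1) / (4 * (n + 1))) =
          (min y0 (s - y0) - 1) / 4 := by
        field_simp
      rw [e2] at hnorm
      linarith
  far := by
    intro d d' hdd hd' T T' hT0 hT1 hT0' hT1'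
    have hs := h.stp d (by omega)
    have hs' := h.stp d' hd'
    have hex : ∃ l, g d l ≠ g d' l ∧ g d l ≠ g (d' + 1) l ∧ g (d + 1) l ≠ g d' l ∧
        g (d + 1) l ≠ g (d' + 1) l := by
      by_contra hcon
      push Not at hcon
      have h1 : ∀ l, ∃ w : ℤ, (w = g d l ∨ w = g (d + 1) l) ∧ (w = g d' l ∨ w = g (d' + 1) l) := by
        intro l
        by_cases c1 : g d l = g d' l
        · exact ⟨g d l, Or.inl rfl, Or.inl c1⟩
        · by_cases c2 : g d l = g (d' + 1) l
          · exact ⟨g d l, Or.inl rfl, Or.inr c2⟩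
          · by_cases c3 : g (d + 1) l = g d' l
            · exact ⟨g (d + 1) l, Or.inr rfl, Or.inl c3⟩
            · exact ⟨g (d + 1) l, Or.inr rfl, Or.inr (hcon l c1 c2 c3)⟩
      choose w hw1 hw2 using h1
      rcases stp_mem hs hw1 with e1 | e1 <;> rcases stp_mem hs' hw2 with e2 | e2
      · exact h.inj d d' (by omega) (by omega) (e1.symm.trans e2)
      · exact h.inj d (d' + 1) (by omega) (by omega) (e1.symm.trans e2)
      · exact h.inj (d + 1) d' (by omega) (by omega) (e1.symm.trans e2)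
      · exact h.inj (d + 1) (d' + 1) (by omega) (by omega) (e1.symm.trans e2)
    obtain ⟨l, l1, l2, l3, l4⟩ := hex
    refine le_trans ?_ (coord_le_norm _ l)
    simp only [PiLp.sub_apply, PiLp.add_apply, PiLp.smul_apply, toE_apply, smul_eq_mul]
    exact interval_sep (stp_abs hs l) (stp_abs hs' l) l1 l2 l3 l4 hT0 hT1 hT0' hT1'
  adj := by
    intro d hd
    obtain ⟨i, σ, hσ, he⟩ := h.stp d (by omega)
    obtain ⟨i', σ', hσ', he'⟩ := h.stp (d + 1) hd
    have e1 : toE (g (d + 1)) - toE (g d) = EuclideanSpace.single i (σ : ℝ) := by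
      ext j
      simp only [PiLp.sub_apply, toE_apply, he, Pi.add_apply, Pi.single_apply,
        PiLp.single_apply]
      split_ifs <;> simp
    have e2 : toE (g (d + 1 + 1)) - toE (g (d + 1)) = EuclideanSpace.single i' (σ' : ℝ) := by
      ext j
      simp only [PiLp.sub_apply, toE_apply, he', Pi.add_apply, Pi.single_apply,
        PiLp.single_apply]
      split_ifs <;> simp
    rw [e1, e2, EuclideanSpace.inner_single_left, PiLp.single_apply]
    by_cases hii : i = i'
    · subst hii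
      rw [if_pos rfl]
      have hne : g d ≠ g (d + 1 + 1) := h.inj d (d + 1 + 1) (by omega) (by omega)
      have : σ' ≠ -σ := by
        intro h1
        apply hne
        rw [he', he, h1, Pi.single_neg]
        abel
      have : σ' = σ := by omega
      subst this
      simp only [conj_trivial]
      exact mul_self_nonneg _
    · rw [if_neg hii]; simp
  one_le := by exact_mod_cast h.one_le

/-- The straight pattern. -/
lemma straight (M : ℕ) (hM : 1 ≤ M) :
    LPat n M M (fun d => Pi.single 0 (d : ℤ)) where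
  zero := by simp
  first := by simp
  last := rfl
  inj := by
    intro i j hij _ h
    have := congrFun h 0
    simp at this
    omega
  stp := by
    intro d _
    refine ⟨0, 1, Or.inl rfl, ?_⟩
    rw [← Pi.single_add]; push_cast; rfl
  mg := by
    intro d hd
    left
    refine ⟨⟨?_, ?_, ?_⟩, ⟨?_, ?_, ?_⟩⟩
    · intro j hj; simp [hj]
    · simp
    · simp; omega
    · intro j hj; simp [hj]
    · simp; omega
    · simp; omega
  one_le := hM

end pat

end Pool.Agent.H61.SD
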