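import Mathlib
import Pool.Agent.H61.SDPat

set_option autoImplicit false

open Metric Set

namespace Pool.Agent.H61.SD

section snake

variable {n : ℕ}

/-- Stack of `2 * m` translated copies of a list, alternately reversed. -/
def stk (i : Fin (n + 1)) (L : List (Fin (n + 1) → ℤ)) : ℕ → List (Fin (n + 1) → ℤ)
  | 0 => []
  | m + 1 => stk i L m ++ (L.map (fun x => x + Pi.single i (2 * (m : ℤ))) ++
      L.reverse.map (fun x => x + Pi.single i (2 * (m : ℤ) + 1)))

lemma stk_length (i : Fin (n + 1)) (L : List (Fin (n + 1) → ℤ)) (m : ℕ) :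
    (stk i L m).length = 2 * m * L.length := by
  induction m with
  | zero => simp [stk]
  | succ m ih => simp [stk, ih]; ring

lemma stk_mem (i : Fin (n + 1)) (L : List (Fin (n + 1) → ℤ)) (m : ℕ) :
    ∀ x ∈ stk i L m, ∃ y ∈ L, ∃ t : ℤ, 0 ≤ t ∧ t < 2 * m ∧ x = y + Pi.single i t := by
  induction m with
  | zero => intro x hx; simp [stk] at hx
  | succ m ih =>
    intro x hx
    simp only [stk, List.mem_append, List.mem_map, List.mem_reverse] at hx
    rcases hx with hx | ⟨y, hy, rfl⟩ | ⟨y, hy, rfl⟩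
    · obtain ⟨y, hy, t, ht0, ht1, rfl⟩ := ih x hx
      exact ⟨y, hy, t, ht0, by push_cast; omega, rfl⟩
    · exact ⟨y, hy, 2 * m, by omega, by push_cast; omega, rfl⟩
    · exact ⟨y, hy, 2 * m + 1, by omega, by push_cast; omega, rfl⟩

lemma stk_head (i : Fin (n + 1)) {L : List (Fin (n + 1) → ℤ)} {z : Fin (n + 1) → ℤ}
    (hz : L.head? = some z) (m : ℕ) : (stk i L (m + 1)).head? = some z := by
  induction m with
  | zero => simp [stk, hz]
  | succ m ih =>
    rw [stk, List.head?_append, ih]; rfl

lemma stk_last (i : Fin (n + 1)) {L : List (Fin (n + 1) → ℤ)} {z : Fin (n + 1) → ℤ}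
    (hz : L.head? = some z) (m : ℕ) :
    (stk i L (m + 1)).getLast? = some (z + Pi.single i (2 * (m : ℤ) + 1)) := by
  rw [stk, List.getLast?_append, List.getLast?_append, List.getLast?_map, List.getLast?_reverse, hz]
  rfl

lemma stk_chain (i : Fin (n + 1)) {L : List (Fin (n + 1) → ℤ)} {z : Fin (n + 1) → ℤ}
    (hz : L.head? = some z) (hc : L.IsChain Stp) (m : ℕ) : (stk i L m).IsChain Stp := by
  have hmap : ∀ w : Fin (n + 1) → ℤ, (L.map (fun x => x + w)).IsChain Stp := by
    intro w
    rw [List.isChain_map]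
    exact hc.imp (fun a b h => h.add w)
  have hmapr : ∀ w : Fin (n + 1) → ℤ, (L.reverse.map (fun x => x + w)).IsChain Stp := by
    intro w
    rw [List.isChain_map, List.isChain_reverse]
    exact hc.imp (fun a b h => h.symm.add w)
  induction m with
  | zero => simp [stk]
  | succ m ih =>
    rw [stk, List.isChain_append]
    refine ⟨ih, ?_, ?_⟩
    · rw [List.isChain_append]
      refine ⟨hmap _, hmapr _, ?_⟩
      intro x hx y hy
      rw [List.getLast?_map] at hx
      rw [List.head?_map, List.head?_reverse] at hy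
      cases hL : L.getLast? with
      | none => rw [hL] at hx; simp at hx
      | some u =>
        rw [hL] at hx hy
        simp only [Option.map_some, Option.mem_some_iff] at hx hy
        subst hx; subst hy
        refine ⟨i, 1, Or.inl rfl, ?_⟩
        rw [add_assoc, ← Pi.single_add]
    · intro x hx y hy
      cases m with
      | zero => simp [stk] at hx
      | succ m =>
        rw [stk_last i hz m] at hx
        rw [List.head?_append, List.head?_map, hz] at hy
        simp only [Option.map_some, Option.some_or, Option.mem_some_iff] at hx hy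
        subst hx; subst hy
        refine ⟨i, 1, Or.inl rfl, ?_⟩
        rw [add_assoc, ← Pi.single_add]
        congr 2

lemma stk_nodup (i : Fin (n + 1)) {L : List (Fin (n + 1) → ℤ)}
    (hi : ∀ x ∈ L, x i = 0) (hn : L.Nodup) (m : ℕ) : (stk i L m).Nodup := by
  have hinj : ∀ w : Fin (n + 1) → ℤ, Function.Injective (fun x : Fin (n + 1) → ℤ => x + w) :=
    fun w => add_left_injective w
  induction m with
  | zero => simp [stk]
  | succ m ih =>
    rw [stk, List.nodup_append]
    refine ⟨ih, ?_, ?_⟩
    · rw [List.nodup_append]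
      refine ⟨hn.map (hinj _), (List.nodup_reverse.2 hn).map (hinj _), ?_⟩
      intro x hx y hy hxy
      simp only [List.mem_map, List.mem_reverse] at hx hy
      obtain ⟨x', hx', rfl⟩ := hx
      obtain ⟨y', hy', rfl⟩ := hy
      have h1 := congrFun hxy i
      simp only [Pi.add_apply, Pi.single_eq_same, hi x' hx', hi y' hy'] at h1
      omega
    · intro x hx y hy hxy
      obtain ⟨x', hx', t, ht0, ht1, rfl⟩ := stk_mem i L m x hx
      simp only [List.mem_append, List.mem_map, List.mem_reverse] at hy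
      rcases hy with ⟨y', hy', rfl⟩ | ⟨y', hy', rfl⟩
      · have h1 := congrFun hxy i
        simp only [Pi.add_apply, Pi.single_eq_same, hi x' hx', hi y' hy'] at h1
        omega
      · have h1 := congrFun hxy i
        simp only [Pi.add_apply, Pi.single_eq_same, hi x' hx', hi y' hy'] at h1
        omega

/-- Hamiltonian paths in transversal boxes. -/
lemma exists_snake (a : ℕ) (ha : 1 ≤ a) (j : ℕ) (hj : j ≤ n) :
    ∃ L : List (Fin (n + 1) → ℤ), L.head? = some 0 ∧ L.IsChain Stp ∧ L.Nodup ∧
      L.length = (2 * a) ^ j ∧ ∀ x ∈ L, x 0 = 0 ∧ ∀ l : Fin (n + 1), 0 ≤ x l ∧ x l < 2 * a ∧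
        (j < l.val → x l = 0) := by
  induction j with
  | zero =>
    refine ⟨[0], by simp, by simp, by simp, by simp, ?_⟩
    intro x hx
    simp only [List.mem_singleton] at hx
    subst hx
    refine ⟨rfl, fun l => ⟨le_rfl, ?_, fun _ => rfl⟩⟩
    simp only [Pi.zero_apply]; omega
  | succ j ih =>
    obtain ⟨L, h1, h2, h3, h4, h5⟩ := ih (by omega)
    set i : Fin (n + 1) := ⟨j + 1, by omega⟩ with hi
    have hi0 : i ≠ 0 := by rw [hi]; intro h; simp [Fin.ext_iff] at h
    obtain ⟨a', rfl⟩ : ∃ a', a = a' + 1 := ⟨a - 1, by omega⟩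
    refine ⟨stk i L (a' + 1), stk_head i h1 a', stk_chain i h1 h2 _, stk_nodup i ?_ h3 _, ?_, ?_⟩
    · intro x hx
      exact ((h5 x hx).2 i).2.2 (by simp [hi])
    · rw [stk_length, h4, pow_succ]; ring
    · intro x hx
      obtain ⟨y, hy, t, ht0, ht1, rfl⟩ := stk_mem i L _ x hx
      obtain ⟨h6, h7⟩ := h5 y hy
      refine ⟨?_, ?_⟩
      · rw [Pi.add_apply, h6, Pi.single_apply, if_neg (Ne.symm hi0), add_zero]
      · intro l
        by_cases hl : l = i
        · subst hl
          have h8 := (h7 i).2.2 (by simp [hi])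
          rw [Pi.add_apply, h8, Pi.single_eq_same, zero_add]
          refine ⟨ht0, by push_cast at *; omega, ?_⟩
          intro h9
          simp [hi] at h9
        · rw [Pi.add_apply, Pi.single_apply, if_neg hl, add_zero]
          refine ⟨(h7 l).1, (h7 l).2.1, fun h9 => (h7 l).2.2 (by omega)⟩

/-- Segment of the axis. -/
def axl (n : ℕ) (c : ℤ) : ℕ → List (Fin (n + 1) → ℤ)
  | 0 => []
  | l + 1 => axl n c l ++ [Pi.single 0 (c + l)]

lemma axl_length (c : ℤ) (l : ℕ) : (axl n c l).length = l := by
  induction l with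
  | zero => rfl
  | succ l ih => simp [axl, ih]

lemma axl_mem (c : ℤ) (l : ℕ) : ∀ x ∈ axl n c l, ∃ t : ℤ, c ≤ t ∧ t < c + l ∧
    x = Pi.single 0 t := by
  induction l with
  | zero => intro x hx; simp [axl] at hx
  | succ l ih =>
    intro x hx
    simp only [axl, List.mem_append, List.mem_singleton] at hx
    rcases hx with hx | rfl
    · obtain ⟨t, h1, h2, rfl⟩ := ih x hx
      exact ⟨t, h1, by push_cast; omega, rfl⟩
    · exact ⟨c + l, by omega, by push_cast; omega, rfl⟩

lemma axl_last (c : ℤ) (l : ℕ) : (axl n c (l + 1)).getLast? = some (Pi.single 0 (c + l)) := by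
  simp [axl]

lemma axl_head (c : ℤ) (l : ℕ) : (axl n c (l + 1)).head? = some (Pi.single 0 c) := by
  induction l with
  | zero => simp [axl]
  | succ l ih => rw [axl, List.head?_append, ih]; rfl

lemma axl_chain (c : ℤ) (l : ℕ) : (axl n c l).IsChain Stp := by
  induction l with
  | zero => simp [axl]
  | succ l ih =>
    rw [axl, List.isChain_append]
    refine ⟨ih, by simp, ?_⟩
    intro x hx y hy
    cases l with
    | zero => simp [axl] at hx
    | succ l =>
      rw [axl_last] at hx
      simp only [Option.mem_some_iff, List.head?_cons] at hx hy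
      subst hx; subst hy
      refine ⟨0, 1, Or.inl rfl, ?_⟩
      rw [← Pi.single_add]
      congr 1
      push_cast
      ring

lemma axl_nodup (c : ℤ) (l : ℕ) : (axl n c l).Nodup := by
  induction l with
  | zero => simp [axl]
  | succ l ih =>
    rw [axl, List.nodup_append]
    refine ⟨ih, by simp, ?_⟩
    intro x hx y hy hxy
    obtain ⟨t, h1, h2, rfl⟩ := axl_mem c l x hx
    simp only [List.mem_singleton] at hy
    subst hy
    have h3 := congrFun hxy 0
    simp only [Pi.single_eq_same] at h3
    omega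

/-- The dense pattern. -/
theorem exists_dense (n a : ℕ) (ha : 1 ≤ a) :
    ∃ (M : ℕ) (g : ℕ → Fin (n + 1) → ℤ), a ^ (n + 1) ≤ M ∧ 2 ≤ M ∧
      LPat n M (16 * (n + 1) * a + 4 + 2 * a) g := by
  obtain ⟨L, h1, h2, h3, h4, h5⟩ := exists_snake (n := n) a ha n le_rfl
  obtain ⟨a', rfl⟩ : ∃ a', a = a' + 1 := ⟨a - 1, by omega⟩
  obtain ⟨b', hb'⟩ : ∃ b', b' = 8 * (n + 1) * (a' + 1) := ⟨_, rfl⟩
  set K := (stk 0 L (a' + 1)).map (fun x => x + Pi.single 0 ((b' : ℤ) + 2)) with hK
  set A1 := axl n 0 (b' + 2) with hA1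
  set A2 := axl n ((b' : ℤ) + 2 + 2 * ((a' : ℤ) + 1)) (b' + 3) with hA2
  set P := A1 ++ (K ++ A2) with hP
  set s := 16 * (n + 1) * (a' + 1) + 4 + 2 * (a' + 1) with hs
  have hs' : (s : ℤ) = 2 * (b' + 2) + 2 * (a' + 1) := by
    rw [hs, hb']; push_cast; ring
  -- members
  have hKmem : ∀ x ∈ K, (b' : ℤ) + 2 ≤ x 0 ∧ x 0 < (b' : ℤ) + 2 + 2 * (a' + 1) ∧
      ∀ j, j ≠ 0 → 0 ≤ x j ∧ x j ≤ 2 * ((a' : ℤ) + 1) := by
    intro x hx
    simp only [hK, List.mem_map] at hx
    obtain ⟨y, hy, rfl⟩ := hx
    obtain ⟨w, hw, t, ht0, ht1, rfl⟩ := stk_mem 0 L _ y hy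
    obtain ⟨h6, h7⟩ := h5 w hw
    refine ⟨?_, ?_, ?_⟩
    · simp only [Pi.add_apply, Pi.single_eq_same, h6]; omega
    · simp only [Pi.add_apply, Pi.single_eq_same, h6]; push_cast at *; omega
    · intro j hj
      simp only [Pi.add_apply, Pi.single_apply, if_neg hj, add_zero]
      have := h7 j
      push_cast at this
      exact ⟨this.1, by omega⟩
  have hA1mem : ∀ x ∈ A1, 0 ≤ x 0 ∧ x 0 < (b' : ℤ) + 2 ∧ ∀ j, j ≠ 0 → x j = 0 := by
    intro x hx
    obtain ⟨t, ht0, ht1, rfl⟩ := axl_mem _ _ x hx
    refine ⟨by simpa using ht0, ?_, fun j hj => by simp [hj]⟩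
    simp only [Pi.single_eq_same]; push_cast at ht1; omega
  have hA2mem : ∀ x ∈ A2, (b' : ℤ) + 2 + 2 * (a' + 1) ≤ x 0 ∧ x 0 ≤ s ∧
      ∀ j, j ≠ 0 → x j = 0 := by
    intro x hx
    obtain ⟨t, ht0, ht1, rfl⟩ := axl_mem _ _ x hx
    refine ⟨by simpa using ht0, ?_, fun j hj => by simp [hj]⟩
    simp only [Pi.single_eq_same]; push_cast at ht1; omega
  have hall : ∀ x ∈ P, (IsAx s x ∨ ((b' : ℤ) + 2 ≤ x 0 ∧ x 0 < (b' : ℤ) + 2 + 2 * (a' + 1))) ∧
      ∀ j, j ≠ 0 → 0 ≤ x j ∧ x j ≤ 2 * ((a' : ℤ) + 1) := by
    intro x hx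
    simp only [hP, List.mem_append] at hx
    rcases hx with hx | hx | hx
    · obtain ⟨p1, p2, p3⟩ := hA1mem x hx
      refine ⟨Or.inl ⟨p3, p1, by omega⟩, fun j hj => ?_⟩
      rw [p3 j hj]; omega
    · obtain ⟨p1, p2, p3⟩ := hKmem x hx
      exact ⟨Or.inr ⟨p1, p2⟩, p3⟩
    · obtain ⟨p1, p2, p3⟩ := hA2mem x hx
      refine ⟨Or.inl ⟨p3, by omega, p2⟩, fun j hj => ?_⟩
      rw [p3 j hj]; omega
  have hmg : ∀ x : Fin (n + 1) → ℤ, (∀ j, j ≠ 0 → 0 ≤ x j ∧ x j ≤ 2 * ((a' : ℤ) + 1)) →
      (b' : ℤ) + 1 ≤ x 0 → x 0 ≤ (b' : ℤ) + 2 + 2 * (a' + 1) → IsMg s x := by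
    intro x hx h6 h7
    refine ⟨?_, by omega, by omega⟩
    intro j hj
    obtain ⟨h8, h9⟩ := hx j hj
    rw [abs_of_nonneg h8]
    have h10 : 4 * ((n : ℤ) + 1) * x j ≤ 4 * ((n : ℤ) + 1) * (2 * ((a' : ℤ) + 1)) :=
      mul_le_mul_of_nonneg_left h9 (by positivity)
    have h11 : 4 * ((n : ℤ) + 1) * (2 * ((a' : ℤ) + 1)) = b' := by
      rw [hb']; push_cast; ring
    rw [h11] at h10
    constructor <;> omega
  -- lengths
  have hlenK : K.length = 2 * (a' + 1) * (2 * (a' + 1)) ^ n := by
    rw [hK, List.length_map, stk_length, h4]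
  have hlen : P.length = (b' + 2) + (2 * (a' + 1) * (2 * (a' + 1)) ^ n + (b' + 3)) := by
    rw [hP, List.length_append, List.length_append, hlenK, hA1, hA2, axl_length, axl_length]
  -- chain
  have hKhead : K.head? = some (Pi.single 0 ((b' : ℤ) + 2)) := by
    rw [hK, List.head?_map, stk_head 0 h1]; simp
  have hKlast : K.getLast? = some (Pi.single 0 (2 * (a' : ℤ) + 1 + ((b' : ℤ) + 2))) := by
    rw [hK, List.getLast?_map, stk_last 0 h1]
    simp only [Option.map_some, zero_add, ← Pi.single_add]
  have hchain : P.IsChain Stp := by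
    rw [hP, List.isChain_append]
    refine ⟨axl_chain _ _, ?_, ?_⟩
    · rw [List.isChain_append]
      refine ⟨?_, axl_chain _ _, ?_⟩
      · rw [hK, List.isChain_map]
        exact (stk_chain 0 h1 h2 _).imp (fun a b h => h.add _)
      · intro x hx y hy
        rw [hKlast] at hx
        rw [hA2, axl_head] at hy
        simp only [Option.mem_some_iff] at hx hy
        subst hx; subst hy
        refine ⟨0, 1, Or.inl rfl, ?_⟩
        rw [← Pi.single_add]; congr 1; ring
    · intro x hx y hy
      rw [hA1, axl_last] at hx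
      rw [List.head?_append, hKhead] at hy
      simp only [Option.some_or, Option.mem_some_iff] at hx hy
      subst hx; subst hy
      refine ⟨0, 1, Or.inl rfl, ?_⟩
      rw [← Pi.single_add]; congr 1; push_cast; ring
  have hnodup : P.Nodup := by
    rw [hP, List.nodup_append]
    refine ⟨axl_nodup _ _, ?_, ?_⟩
    · rw [List.nodup_append]
      refine ⟨?_, axl_nodup _ _, ?_⟩
      · rw [hK]
        exact (stk_nodup 0 (fun x hx => (h5 x hx).1) h3 _).map (add_left_injective _)
      · rintro x hx y hy rfl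
        have := (hKmem x hx).2.1
        have := (hA2mem x hy).1
        omega
    · rintro x hx y hy rfl
      have q1 := (hA1mem x hx).2.1
      rw [List.mem_append] at hy
      rcases hy with hy | hy
      · have := (hKmem x hy).1
        omega
      · have := (hA2mem x hy).1
        omega
  obtain ⟨M, hM⟩ : ∃ M, P.length = M + 1 := ⟨P.length - 1, by omega⟩
  have hM' : M = 2 * b' + 4 + 2 * (a' + 1) * (2 * (a' + 1)) ^ n := by omega
  have hget : ∀ d, (hd : d < P.length) → P.getD d 0 = P[d] := fun d hd =>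
    List.getD_eq_getElem _ _ hd
  refine ⟨M, fun d => P.getD d 0, ?_, by omega, ?_⟩
  · rw [hM', pow_succ]
    have h6 : (a' + 1) ^ n ≤ (2 * (a' + 1)) ^ n := Nat.pow_le_pow_left (by omega) n
    have h7 : (a' + 1) ^ n * (a' + 1) ≤ (2 * (a' + 1)) ^ n * (2 * (a' + 1)) :=
      Nat.mul_le_mul h6 (by omega)
    have h8 : (2 * (a' + 1)) ^ n * (2 * (a' + 1)) = 2 * (a' + 1) * (2 * (a' + 1)) ^ n := by ring
    omega
  · constructor
    · -- zero
      have : P.head? = some 0 := by
        rw [hP, List.head?_append, hA1, axl_head]; simp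
      simp only [List.getD_eq_getElem?_getD]
      rw [← List.head?_eq_getElem?, this]; rfl
    · -- first
      have e1 : axl n 0 (b' + 2) = [0, Pi.single 0 1] ++ (axl n 0 (b' + 2)).drop 2 := by
        have : (axl n 0 (b' + 2)).take 2 = [0, Pi.single 0 1] := by
          clear_value P K A1 A2
          clear hP hK hA1 hA2 hall hKmem hA1mem hA2mem hlenK hlen hKhead hKlast hchain hnodup
            hget hM hM' hmg hs' hb'
          induction b' with
          | zero => simp [axl]
          | succ c ih =>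
            rw [axl, List.take_append_of_le_length (by rw [axl_length]; omega)]
            exact ih
        rw [← this, List.take_append_drop]
      simp only [hP, hA1]
      rw [e1]
      simp
    · -- last
      have : P.getLast? = some (Pi.single 0 (s : ℤ)) := by
        rw [hP, List.getLast?_append, List.getLast?_append, hA2, axl_last]
        simp only [Option.some_or, Option.some.injEq]
        congr 1
        push_cast
        omega
      rw [List.getLast?_eq_getElem?, hM, Nat.add_sub_cancel] at this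
      simp only [List.getD_eq_getElem?_getD, this]
      rfl
    · -- inj
      intro i j hij hj
      rw [hget i (by omega), hget j (by omega)]
      intro h
      rw [hnodup.getElem_inj_iff] at h
      omega
    · -- steps
      intro d hd
      rw [hget d (by omega), hget (d + 1) (by omega)]
      exact (List.isChain_iff_getElem.1 hchain) d (by omega)
    · intro d hd
      rw [hget d (by omega), hget (d + 1) (by omega)]
      have hstp := (List.isChain_iff_getElem.1 hchain) d (by omega)
      have m1 := hall _ (List.getElem_mem (show d < P.length by omega))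
      have m2 := hall _ (List.getElem_mem (show d + 1 < P.length by omega))
      have habs := stp_abs hstp 0
      rw [abs_le] at habs
      obtain ⟨m11, m12⟩ := m1
      obtain ⟨m21, m22⟩ := m2
      rcases m11 with m11 | m11
      · rcases m21 with m21 | m21
        · left; exact ⟨m11, m21⟩
        · right
          exact ⟨hmg _ m12 (by omega) (by omega), hmg _ m22 (by omega) (by omega)⟩
      · right
        exact ⟨hmg _ m12 (by omega) (by omega), hmg _ m22 (by omega) (by omega)⟩
    · omega

end snake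

end Pool.Agent.H61.SD
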