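import Mathlib
import Pool.Agent.H61.SDCurve2
import Pool.Agent.H61.SDSnake

set_option autoImplicit false

open Metric Set Filter Topology

namespace Pool.Agent.H61.SD

section suff

/-- Choice of the size of the dense pattern. -/
lemma exists_size (n : ℕ) {α : ℝ} (hα : 1 / ((n + 1 : ℕ) : ℝ) < α) :
    ∃ (M s : ℕ) (g : ℕ → Fin (n + 1) → ℤ), 2 ≤ M ∧ LPat n M s g ∧ (s : ℝ) ≤ (M : ℝ) ^ α := by
  have hn : (0 : ℝ) < ((n + 1 : ℕ) : ℝ) := by positivity
  have hα0 : 0 < α := lt_trans (by positivity) hα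
  have hβ : 0 < ((n + 1 : ℕ) : ℝ) * α - 1 := by
    rw [div_lt_iff₀ hn] at hα
    linarith
  have hlim : Tendsto (fun a : ℕ => ((a : ℝ)) ^ (((n + 1 : ℕ) : ℝ) * α - 1)) atTop atTop :=
    (tendsto_rpow_atTop hβ).comp tendsto_natCast_atTop_atTop
  obtain ⟨a, ha1, ha2⟩ := ((eventually_ge_atTop 1).and
    (hlim.eventually_ge_atTop (16 * (n + 1) + 6 : ℝ))).exists
  obtain ⟨M, g, hM1, hM2, hg⟩ := exists_dense n a ha1
  refine ⟨M, _, g, hM2, hg, ?_⟩
  have ha0 : (1 : ℝ) ≤ a := by exact_mod_cast ha1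
  have h1 : ((a : ℝ) ^ (n + 1)) ≤ M := by exact_mod_cast hM1
  have h2 : ((a : ℝ) ^ (n + 1)) ^ α ≤ (M : ℝ) ^ α := Real.rpow_le_rpow (by positivity) h1 hα0.le
  have h3 : ((a : ℝ) ^ (n + 1)) ^ α = a * (a : ℝ) ^ (((n + 1 : ℕ) : ℝ) * α - 1) := by
    rw [← Real.rpow_natCast, ← Real.rpow_mul (by positivity), Real.rpow_sub (by positivity),
      Real.rpow_one]
    field_simp
  rw [h3] at h2
  refine le_trans ?_ h2
  push_cast
  have h4 : (a : ℝ) * (16 * (n + 1) + 6) ≤ a * (a : ℝ) ^ (((n + 1 : ℕ) : ℝ) * α - 1) := by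
    gcongr
  push_cast at h4 ⊢
  nlinarith

/-- Greedy scales. -/
noncomputable def gr (F : ℕ → ℝ) (M s₀ : ℝ) : ℕ → ℝ
  | 0 => 1
  | l + 1 => open Classical in if gr F M s₀ l ≤ F l then gr F M s₀ l * M else gr F M s₀ l * s₀

lemma gr_pos {F : ℕ → ℝ} {M s₀ : ℝ} (hM : 0 < M) (hs : 0 < s₀) (l : ℕ) : 0 < gr F M s₀ l := by
  induction l with
  | zero => simp [gr]
  | succ l ih =>
    rw [gr]
    split_ifs <;> positivity

lemma gr_upper {F : ℕ → ℝ} {M s₀ c : ℝ} (hM : 1 ≤ M) (hs : 1 ≤ s₀) (hc : 0 < c) {l₀ : ℕ}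
    (hF : ∀ l, l₀ ≤ l → 0 < F l) (hmono : ∀ l, l₀ ≤ l → F l ≤ F (l + 1))
    (hlow : ∀ l i, l₀ ≤ l → c * s₀ ^ i * F l ≤ F (l + i)) :
    ∃ K : ℝ, 0 < K ∧ ∀ l, l₀ ≤ l → gr F M s₀ l ≤ K * F l := by
  have hM0 : 0 < M := by linarith
  have hs0 : 0 < s₀ := by linarith
  set K := max M (gr F M s₀ l₀ / F l₀) with hK
  have hK0 : 0 < K := lt_of_lt_of_le hM0 (le_max_left _ _)
  have hinv : ∀ l, l₀ ≤ l → ∃ l', l₀ ≤ l' ∧ ∃ i, l = l' + i ∧ gr F M s₀ l ≤ K * s₀ ^ i * F l' := by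
    intro l hl
    induction l, hl using Nat.le_induction with
    | base =>
      refine ⟨l₀, le_rfl, 0, rfl, ?_⟩
      have := hF l₀ le_rfl
      rw [pow_zero, mul_one, ← div_le_iff₀ this]
      exact le_max_right _ _
    | succ l hl ih =>
      obtain ⟨l', hl', i, hi, h⟩ := ih
      rw [gr]
      split_ifs with hc1
      · refine ⟨l + 1, by omega, 0, rfl, ?_⟩
        have h1 := hmono l hl
        have h2 := hF l hl
        rw [pow_zero, mul_one]
        calc gr F M s₀ l * M ≤ F (l + 1) * M := by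
              apply mul_le_mul_of_nonneg_right (hc1.trans h1) hM0.le
          _ = M * F (l + 1) := mul_comm _ _
          _ ≤ K * F (l + 1) := by
              apply mul_le_mul_of_nonneg_right (le_max_left _ _) (by linarith)
      · refine ⟨l', hl', i + 1, by omega, ?_⟩
        calc gr F M s₀ l * s₀ ≤ K * s₀ ^ i * F l' * s₀ := by
              apply mul_le_mul_of_nonneg_right h hs0.le
          _ = _ := by ring
  refine ⟨K / c, by positivity, ?_⟩
  intro l hl
  obtain ⟨l', hl', i, rfl, h⟩ := hinv l hl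
  have h1 := hlow l' i hl'
  calc gr F M s₀ (l' + i) ≤ K * s₀ ^ i * F l' := h
    _ = K / c * (c * s₀ ^ i * F l') := by field_simp
    _ ≤ K / c * F (l' + i) := by gcongr

lemma gr_lower {F : ℕ → ℝ} {M s₀ C : ℝ} (hM : 1 ≤ M) (hs : 1 ≤ s₀) (hC : 0 < C) {l₀ : ℕ}
    (hF : ∀ l, l₀ ≤ l → 0 < F l)
    (hup : ∀ l i, l₀ ≤ l → F (l + i) ≤ C * M ^ i * F l) :
    ∃ K : ℝ, 0 < K ∧ ∀ l, l₀ ≤ l → K * F l ≤ gr F M s₀ l := by
  have hM0 : 0 < M := by linarith
  have hs0 : 0 < s₀ := by linarith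
  set K := min (1 / (C * M)) (gr F M s₀ l₀ / F l₀) with hK
  have hg0 := gr_pos (F := F) hM0 hs0
  have hK0 : 0 < K := lt_min (by positivity) (div_pos (hg0 _) (hF _ le_rfl))
  have hinv : ∀ l, l₀ ≤ l → ∃ l', l₀ ≤ l' ∧ ∃ i, l = l' + i ∧ K * M ^ i * F l' ≤ gr F M s₀ l := by
    intro l hl
    induction l, hl using Nat.le_induction with
    | base =>
      refine ⟨l₀, le_rfl, 0, rfl, ?_⟩
      have := hF l₀ le_rfl
      rw [pow_zero, mul_one, ← le_div_iff₀ this]
      exact min_le_right _ _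
    | succ l hl ih =>
      obtain ⟨l', hl', i, hi, h⟩ := ih
      rw [gr]
      split_ifs with hc1
      · refine ⟨l', hl', i + 1, by omega, ?_⟩
        calc K * M ^ (i + 1) * F l' = K * M ^ i * F l' * M := by ring
          _ ≤ _ := mul_le_mul_of_nonneg_right h hM0.le
      · refine ⟨l + 1, by omega, 0, rfl, ?_⟩
        push Not at hc1
        have h1 := hup l 1 hl
        rw [pow_one] at h1
        have h2 := hF l hl
        rw [pow_zero, mul_one]
        have h3 := hF (l + 1) (by omega)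
        calc K * F (l + 1) ≤ 1 / (C * M) * F (l + 1) := by
              apply mul_le_mul_of_nonneg_right (min_le_left _ _) h3.le
          _ ≤ 1 / (C * M) * (C * M * F l) := by gcongr
          _ = F l := by field_simp
          _ ≤ gr F M s₀ l := hc1.le
          _ ≤ gr F M s₀ l * s₀ := by
              have := hg0 l
              nlinarith
  refine ⟨K / C, by positivity, ?_⟩
  intro l hl
  obtain ⟨l', hl', i, rfl, h⟩ := hinv l hl
  have h1 := hup l' i hl'
  calc K / C * F (l' + i) ≤ K / C * (C * M ^ i * F l') := by gcongr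
    _ = K * M ^ i * F l' := by field_simp
    _ ≤ _ := h

/-- The one-sided sequence. -/
theorem exists_seq {n : ℕ} {f : ℕ → ℝ} (hf : IsRateFunction f)
    (hG : GrowthBetween (1 / ((n + 1 : ℕ) : ℝ)) f) :
    ∃ (p : ℕ → EuclideanSpace ℝ (Fin (n + 1))) (A B : ℝ) (N₁ : ℕ), 0 < A ∧ 0 < B ∧ 1 ≤ N₁ ∧
      p 0 = 0 ∧ (∀ j, ∃ t : ℝ, 0 ≤ t ∧ ‖p j - t • eb n‖ ≤ t / 4) ∧
      (∀ i N, N₁ ≤ N → A * f N ≤ ‖p (i + N) - p i‖) ∧
      (∀ i i' N, N₁ ≤ N → i ≤ i' → i' ≤ i + N → ‖p i' - p i‖ ≤ B * f N) := by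
  obtain ⟨α, hα, c, C, hc, N₀, hb⟩ := hG
  obtain ⟨M, s, g, hM, hg, hsM⟩ := exists_size n hα
  have hn : (0 : ℝ) < ((n + 1 : ℕ) : ℝ) := by positivity
  have hα0 : 0 < α := lt_trans (by positivity) hα
  have hM1 : 1 ≤ M := by omega
  have hMR : (1 : ℝ) ≤ M := by exact_mod_cast hM1
  have hM0 : (0 : ℝ) < M := by linarith
  have hsR : (1 : ℝ) ≤ s := by exact_mod_cast hg.one_le
  set F : ℕ → ℝ := fun l => f (M ^ l) with hFdef
  have hMl : ∀ l, 1 ≤ M ^ l := fun l => Nat.one_le_pow _ _ hM1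
  have hF : ∀ l, 0 < F l := fun l => hf.pos _ (hMl l)
  have hmono : ∀ l, F l ≤ F (l + 1) := fun l =>
    hf.mono _ _ (hMl l) (Nat.pow_le_pow_right hM1 (Nat.le_succ l))
  obtain ⟨l₀, hl₀⟩ : ∃ l₀, N₀ ≤ M ^ l₀ := ⟨N₀, (Nat.lt_pow_self (by omega)).le⟩
  have hbl : ∀ l i, l₀ ≤ l → c * ((M : ℝ) ^ i) ^ α * F l ≤ F (l + i) ∧
      F (l + i) ≤ C * (M : ℝ) ^ i * F l := by
    intro l i hl
    have h1 := hb (M ^ l) (M ^ (l + i)) (hMl l) (hl₀.trans (Nat.pow_le_pow_right hM1 hl))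
      (Nat.pow_le_pow_right hM1 (by omega))
    have h2 : ((M ^ (l + i) : ℕ) : ℝ) / ((M ^ l : ℕ) : ℝ) = (M : ℝ) ^ i := by
      push_cast
      rw [pow_add]
      field_simp
    rw [h2] at h1
    exact h1
  have hC1 : 1 ≤ C := by
    have h1 := (hbl l₀ 0 le_rfl).2
    rw [pow_zero, mul_one, add_zero] at h1
    have h2 := hF l₀
    by_contra hlt
    push Not at hlt
    nlinarith
  have hC0 : 0 < C := by linarith
  have hlow : ∀ l i, l₀ ≤ l → c * (s : ℝ) ^ i * F l ≤ F (l + i) := by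
    intro l i hl
    refine le_trans ?_ (hbl l i hl).1
    have h1 : (s : ℝ) ^ i ≤ ((M : ℝ) ^ i) ^ α := by
      calc (s : ℝ) ^ i ≤ ((M : ℝ) ^ α) ^ i := pow_le_pow_left₀ (by positivity) hsM i
        _ = ((M : ℝ) ^ i) ^ α := by
          rw [← Real.rpow_natCast, ← Real.rpow_natCast, ← Real.rpow_mul hM0.le,
            ← Real.rpow_mul hM0.le, mul_comm]
    have := hF l
    gcongr
  obtain ⟨K2, hK2, hS2⟩ := gr_upper (F := F) (M := M) (s₀ := s) hMR hsR hc (l₀ := l₀)
    (fun l _ => hF l) (fun l _ => hmono l) hlow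
  obtain ⟨K1, hK1, hS1⟩ := gr_lower (F := F) (M := M) (s₀ := s) hMR hsR hC0 (l₀ := l₀)
    (fun l _ => hF l) (fun l i hl => (hbl l i hl).2)
  -- the patterns
  set S := gr F (M : ℝ) (s : ℝ) with hSdef
  classical
  set sq : ℕ → ℝ := fun l => if S l ≤ F l then (M : ℝ) else (s : ℝ) with hsq
  set γ : ℕ → ℕ → EuclideanSpace ℝ (Fin (n + 1)) := fun l d =>
    if S l ≤ F l then toE (Pi.single 0 (d : ℤ)) else toE (g d) with hγ
  have hpat : ∀ J, IsPat (eb n) M (sq J) (γ J) := by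
    intro J
    by_cases h : S J ≤ F J
    · have e1 : sq J = (M : ℝ) := by simp [hsq, h]
      have e2 : γ J = fun d : ℕ => toE (Pi.single 0 (d : ℤ)) := by
        funext d; simp [hγ, h]
      rw [e1, e2]
      exact (straight M hM1).isPat
    · have e1 : sq J = (s : ℝ) := by simp [hsq, h]
      have e2 : γ J = fun d : ℕ => toE (g d) := by
        funext d; simp [hγ, h]
      rw [e1, e2]
      exact hg.isPat
  have hSS : ∀ l, SS sq l = S l := by
    intro l
    induction l with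
    | zero => simp [SS, hSdef, gr]
    | succ l ih =>
      rw [SS, ih]
      simp only [hsq, hSdef]
      rw [gr]
      split_ifs <;> rfl
  obtain ⟨p, hp0, hcone, hL, hU⟩ := exists_curve (eb_norm (n := n)) hM hpat
  simp only [hSS] at hL hU
  -- scale selection
  have hscale : ∀ N, 2 * M ^ l₀ ≤ N → ∃ l, l₀ ≤ l ∧ 2 * M ^ l ≤ N ∧ N ≤ M ^ (l + 2) := by
    intro N hN
    have hN2 : N / 2 ≠ 0 := by
      have := hMl l₀
      omega
    refine ⟨Nat.log M (N / 2), ?_, ?_, ?_⟩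
    · apply (Nat.le_log_iff_pow_le (by omega) hN2).2
      omega
    · have := Nat.pow_log_le_self M hN2
      omega
    · have h1 := Nat.lt_pow_succ_log_self (by omega : 1 < M) (N / 2)
      have h2 : M ^ (Nat.log M (N / 2) + 2) = M ^ (Nat.log M (N / 2)).succ * M := by
        rw [Nat.succ_eq_add_one]; ring
      have h3 : M ^ (Nat.log M (N / 2)).succ * 2 ≤ M ^ (Nat.log M (N / 2)).succ * M :=
        Nat.mul_le_mul_left _ hM
      omega
  refine ⟨p, K1 / (3 * (C * M ^ 2)), 15 / 4 * K2 * (C * M ^ 2), 2 * M ^ l₀, by positivity,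
    by positivity, by have := hMl l₀; omega, hp0, hcone, ?_, ?_⟩
  · intro i N hN
    obtain ⟨l, hl, h1, h2⟩ := hscale N hN
    have h3 := hL l i (i + N) (by omega)
    have h4 := hS1 l hl
    have h5 : f N ≤ C * (M : ℝ) ^ 2 * F l :=
      (hf.mono N (M ^ (l + 2)) (by have := hMl l; omega) h2).trans (hbl l 2 hl).2
    calc K1 / (3 * (C * M ^ 2)) * f N ≤ K1 / (3 * (C * M ^ 2)) * (C * (M : ℝ) ^ 2 * F l) := by
          gcongr
      _ = K1 * F l / 3 := by field_simp
      _ ≤ S l / 3 := by linarith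
      _ ≤ _ := h3
  · intro i i' N hN hii hii'
    obtain ⟨l, hl, h1, h2⟩ := hscale N hN
    have h3 := hU (l + 2) i i' hii (by omega)
    have h4 := hS2 (l + 2) (by omega)
    have h5 := (hbl l 2 hl).2
    have h6 : F l ≤ f N := hf.mono _ _ (hMl l) (by omega)
    calc ‖p i' - p i‖ ≤ 15 / 4 * S (l + 2) := h3
      _ ≤ 15 / 4 * (K2 * F (l + 2)) := by gcongr
      _ ≤ 15 / 4 * (K2 * (C * (M : ℝ) ^ 2 * F l)) := by gcongr
      _ ≤ 15 / 4 * (K2 * (C * (M : ℝ) ^ 2 * f N)) := by gcongr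
      _ = _ := by ring

/-- The two-sided sequence. -/
theorem realizable_of_growth {n : ℕ} {f : ℕ → ℝ} (hf : IsRateFunction f)
    (hG : GrowthBetween (1 / ((n + 1 : ℕ) : ℝ)) f) (I : Set ℤ) :
    Realizable I f (EuclideanSpace ℝ (Fin (n + 1))) := by
  obtain ⟨p, A, B, N₁, hA, hB, hN₁, hp0, hcone, hL, hU⟩ := exists_seq hf hG
  obtain ⟨α, hα, c, C, hc, N₀, hb⟩ := hG
  -- comparison of `f N` with `f a` for `N ≤ 2 a`
  have hcmp : ∀ a N, 1 ≤ a → N₀ ≤ a → a ≤ N → N ≤ 2 * a → f N ≤ 2 * |C| * f a := by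
    intro a N ha ha0 haN hN2
    have h1 := (hb a N ha ha0 haN).2
    have h2 := hf.pos a ha
    have h3 : (N : ℝ) / a ≤ 2 := by
      rw [div_le_iff₀ (by exact_mod_cast ha)]
      exact_mod_cast hN2
    have h4 : 0 ≤ (N : ℝ) / a := by positivity
    calc f N ≤ C * ((N : ℝ) / a) * f a := h1
      _ ≤ |C| * 2 * f a := by
        apply mul_le_mul_of_nonneg_right _ h2.le
        calc C * ((N : ℝ) / a) ≤ |C| * ((N : ℝ) / a) :=
              mul_le_mul_of_nonneg_right (le_abs_self C) h4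
          _ ≤ |C| * 2 := mul_le_mul_of_nonneg_left h3 (abs_nonneg C)
      _ = _ := by ring
  have hC0 : 0 ≤ |C| := abs_nonneg C
  set N₂ := 2 * (N₁ + N₀) with hN₂
  -- mixed lower bound
  have hmix : ∀ a b, N₂ ≤ a + b → A / (4 * (|C| + 1)) * f (a + b) ≤ ‖p a + p b‖ := by
    have key : ∀ a b, N₂ ≤ a + b → b ≤ a → A / (4 * (|C| + 1)) * f (a + b) ≤ ‖p a + p b‖ := by
      intro a b hab hba
      obtain ⟨t, ht, h1⟩ := hcone a
      obtain ⟨t', ht', h2⟩ := hcone b
      have h3 := hL 0 a (by omega)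
      rw [zero_add, hp0, sub_zero] at h3
      have h4 := hcmp a (a + b) (by omega) (by omega) (by omega) (by omega)
      have h5 : ‖p a‖ ≤ 5 / 4 * t := by
        have h6 := norm_add_le (p a - t • eb n) (t • eb n)
        rw [sub_add_cancel, norm_smul, eb_norm, mul_one, Real.norm_of_nonneg ht] at h6
        linarith
      have h7 : t + t' ≤ ‖p a + p b‖ + t / 4 + t' / 4 := by
        have e1 : (t + t') • eb n = (p a + p b) - (p a - t • eb n) - (p b - t' • eb n) := by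
          rw [add_smul]; abel
        have h8 := norm_sub_le ((p a + p b) - (p a - t • eb n)) (p b - t' • eb n)
        have h9 := norm_sub_le (p a + p b) (p a - t • eb n)
        rw [← e1, norm_smul, eb_norm, mul_one, Real.norm_of_nonneg (by linarith)] at h8
        linarith
      have h10 : 3 / 5 * (A * f a) ≤ ‖p a + p b‖ := by linarith
      have hfa := hf.pos a (by omega)
      have h11 : A / (4 * (|C| + 1)) * f (a + b) ≤ A / (4 * (|C| + 1)) * (2 * |C| * f a) := by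
        gcongr
      have h12 : A / (4 * (|C| + 1)) * (2 * |C| * f a) ≤ 1 / 2 * (A * f a) := by
        rw [div_mul_eq_mul_div, div_le_iff₀ (by positivity)]
        have : 0 < A * f a := by positivity
        nlinarith
      have : 0 < A * f a := by positivity
      linarith
    intro a b hab
    rcases le_total b a with h | h
    · exact key a b hab h
    · rw [add_comm a b, add_comm (p a)]
      exact key b a (by omega) h
  -- ordinary lower bound
  have hord : ∀ i N, N₂ ≤ N → A / (4 * (|C| + 1)) * f N ≤ ‖p (i + N) - p i‖ := by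
    intro i N hN
    refine le_trans ?_ (hL i N (by omega))
    have hfN := hf.pos N (by omega)
    apply mul_le_mul_of_nonneg_right _ hfN.le
    rw [div_le_iff₀ (by positivity)]
    nlinarith
  set q : ℤ → EuclideanSpace ℝ (Fin (n + 1)) := fun m =>
    if 0 ≤ m then p m.toNat else - p (-m).toNat with hq
  have hqp : ∀ a : ℕ, q a = p a := by
    intro a; simp [hq]
  have hqn : ∀ a : ℕ, q (-(a : ℤ)) = - p a := by
    intro a
    rcases Nat.eq_zero_or_pos a with rfl | ha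
    · simp [hq, hp0]
    · have : ¬ (0 ≤ -(a : ℤ)) := by omega
      simp only [hq, if_neg this, neg_neg, Int.toNat_natCast]
  have main : ∀ (m : ℤ) (N : ℕ), N₂ ≤ N → A / (4 * (|C| + 1)) * f N ≤ ‖q (m + N) - q m‖ ∧
      ‖q (m + N) - q m‖ ≤ 2 * B * f N := by
    intro m N hN
    have hfN := hf.pos N (by omega)
    have hBf : 0 < B * f N := by positivity
    rcases le_or_gt 0 m with hm | hm
    · obtain ⟨a, rfl⟩ := Int.eq_ofNat_of_zero_le hm
      have e1 : ((a : ℤ) + (N : ℤ)) = ((a + N : ℕ) : ℤ) := by push_cast; ring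
      rw [e1, hqp, hqp]
      refine ⟨hord a N hN, ?_⟩
      have := hU a (a + N) N (by omega) (by omega) le_rfl
      linarith
    · obtain ⟨a, ha⟩ : ∃ a : ℕ, m = -(a : ℤ) := ⟨(-m).toNat, by omega⟩
      subst ha
      rcases le_or_gt N a with hNa | hNa
      · obtain ⟨b, rfl⟩ : ∃ b, a = b + N := ⟨a - N, by omega⟩
        have e1 : (-((b + N : ℕ) : ℤ) + (N : ℤ)) = -(b : ℤ) := by push_cast; ring
        rw [e1, hqn, hqn, neg_sub_neg]
        refine ⟨hord b N hN, ?_⟩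
        have := hU b (b + N) N (by omega) (by omega) le_rfl
        linarith
      · obtain ⟨b, rfl⟩ : ∃ b, N = b + a := ⟨N - a, by omega⟩
        have e1 : (-(a : ℤ) + ((b + a : ℕ) : ℤ)) = (b : ℤ) := by push_cast; ring
        rw [e1, hqn, hqp, sub_neg_eq_add]
        refine ⟨hmix b a hN, ?_⟩
        have h1 := hU 0 b (b + a) (by omega) (by omega) (by omega)
        have h2 := hU 0 a (b + a) (by omega) (by omega) (by omega)
        rw [hp0, sub_zero] at h1 h2
        have h3 := norm_add_le (p b) (p a)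
        linarith
  refine ⟨q, A / (4 * (|C| + 1)), 2 * B, by positivity, by positivity, N₂, by omega, ?_⟩
  intro m _ m' _ hN
  rcases le_total m m' with h | h
  · obtain ⟨N, hNN⟩ : ∃ N : ℕ, m' = m + N := ⟨(m' - m).toNat, by omega⟩
    have e1 : (m' - m).natAbs = N := by omega
    rw [e1] at hN ⊢
    rw [hNN, dist_eq_norm]
    exact main m N hN
  · obtain ⟨N, hNN⟩ : ∃ N : ℕ, m = m' + N := ⟨(m - m').toNat, by omega⟩
    have e1 : (m' - m).natAbs = N := by omega
    rw [e1] at hN ⊢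
    rw [hNN, dist_comm, dist_eq_norm]
    exact main m' N hN

end suff

end Pool.Agent.H61.SD
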