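import Mathlib
import Pool.Agent.H61.SDNec2
import Pool.Agent.H61.SDSuff

set_option autoImplicit false

open Metric Set Filter Topology

namespace Pool.Agent.H61.SD

lemma rateLE_refl {f : ℕ → ℝ} : RateLE f f :=
  ⟨1, le_rfl, 1, le_rfl, 0, fun N _ _ => by rw [one_mul, one_mul]; linarith⟩

lemma rateLE_bound {f g : ℕ → ℝ} (hg : IsRateFunction g) (h : RateLE f g) :
    ∃ K : ℝ, 0 < K ∧ ∃ N₀ : ℕ, ∀ N : ℕ, 1 ≤ N → N₀ ≤ N → f N ≤ K * g N := by
  obtain ⟨C, hC, M, hM, N₀, h⟩ := h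
  obtain ⟨c', C', hc', hcC', N₁, h'⟩ := hg.scaling M hM
  obtain ⟨N₂, hN₂, hN₂'⟩ := hg.unbounded 1
  have hC' : 0 < C' := by linarith
  refine ⟨C * C' + C, by positivity, max N₀ (max N₁ N₂), ?_⟩
  intro N hN hN'
  have h1 := h N hN ((le_max_left _ _).trans hN')
  have h2 := (h' N hN (((le_max_left _ _).trans (le_max_right _ _)).trans hN')).2
  have h3 := hg.mono N₂ N hN₂ (((le_max_right _ _).trans (le_max_right _ _)).trans hN')
  have h4 : 1 ≤ g N := by linarith
  calc f N ≤ C * g (M * N) + C := h1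
    _ ≤ C * (C' * g N) + C * g N := by nlinarith
    _ = _ := by ring

lemma realizable_of_equiv {f g : ℕ → ℝ} (hf : IsRateFunction f) (hg : IsRateFunction g)
    (h : RateEquiv f g) {I : Set ℤ} {X : Type*} [MetricSpace X] (hR : Realizable I g X) :
    Realizable I f X := by
  obtain ⟨K1, hK1, N1, h1⟩ := rateLE_bound hg h.1
  obtain ⟨K2, hK2, N2, h2⟩ := rateLE_bound hf h.2
  obtain ⟨p, A, B, hA, hB, N₀, hN₀, hd⟩ := hR
  refine ⟨p, A / K1, B * K2, by positivity, by positivity, max N₀ (max N1 N2),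
    hN₀.trans (le_max_left _ _), ?_⟩
  intro m hm n hn hN
  have e0 : N₀ ≤ (n - m).natAbs := (le_max_left _ _).trans hN
  obtain ⟨h3, h4⟩ := hd m hm n hn e0
  have h5 := h1 (n - m).natAbs (hN₀.trans e0) (((le_max_left _ _).trans (le_max_right _ _)).trans hN)
  have h6 := h2 (n - m).natAbs (hN₀.trans e0) (((le_max_right _ _).trans (le_max_right _ _)).trans hN)
  constructor
  · refine le_trans ?_ h3
    rw [div_mul_eq_mul_div, div_le_iff₀ hK1]
    nlinarith
  · refine h4.trans ?_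
    rw [mul_assoc]
    exact mul_le_mul_of_nonneg_left h6 hB.le

lemma inSpectrum_iff {f : ℕ → ℝ} (hf : IsRateFunction f) {I : Set ℤ} {X : Type*}
    [MetricSpace X] : InSpectrum I f X ↔ Realizable I f X := by
  constructor
  · rintro ⟨g, hg, he, hR⟩
    exact realizable_of_equiv hf hg he hR
  · intro h
    exact ⟨f, hf, ⟨rateLE_refl, rateLE_refl⟩, h⟩

/-- Dimension one. -/
theorem realizable_one {f : ℕ → ℝ} (hf : IsRateFunction f) {I : Set ℤ}
    (hI : I = indexN ∨ I = indexZ) :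
    Realizable I f (EuclideanSpace ℝ (Fin 1)) ↔ LinearGrowth f := by
  constructor
  · intro h
    obtain ⟨p, A, B, N₀, hD⟩ := dst_of_isDistorted hI hf h
    exact hD.linear
  · rintro ⟨c, C, hc, N₀, h⟩
    have hC : 0 < C := by
      have h1 := h (N₀ + 1) (by omega) (by omega)
      have h2 : (0 : ℝ) < ((N₀ + 1 : ℕ) : ℝ) := by positivity
      have h3 := h1.1.trans h1.2
      have h4 : c ≤ C := le_of_mul_le_mul_right h3 h2
      linarith
    refine ⟨fun m => EuclideanSpace.single 0 (m : ℝ), 1 / C, 1 / c, by positivity, by positivity,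
      N₀ + 1, by omega, ?_⟩
    intro m _ n _ hN
    have h1 := h (n - m).natAbs (by omega) (by omega)
    have h2 : dist (EuclideanSpace.single (0 : Fin 1) (n : ℝ)) (EuclideanSpace.single 0 (m : ℝ)) =
        (((n - m).natAbs : ℕ) : ℝ) := by
      rw [EuclideanSpace.dist_eq]
      simp only [Finset.univ_unique, Fin.default_eq_zero, Finset.sum_singleton,
        PiLp.single_apply, if_true]
      rw [Real.sqrt_sq dist_nonneg, Real.dist_eq, Nat.cast_natAbs]
      push_cast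
      rfl
    rw [h2]
    constructor
    · rw [div_mul_eq_mul_div, one_mul, div_le_iff₀ hC]; linarith [h1.2]
    · rw [div_mul_eq_mul_div, one_mul, le_div_iff₀ hc]; linarith [h1.1]

/-- Dimension at least two. -/
theorem realizable_ge_two {k : ℕ} (hk : 2 ≤ k) {f : ℕ → ℝ} (hf : IsRateFunction f) {I : Set ℤ}
    (hI : I = indexN ∨ I = indexZ) :
    Realizable I f (EuclideanSpace ℝ (Fin k)) ↔ GrowthBetween (1 / (k : ℝ)) f := by
  constructor
  · intro h
    obtain ⟨p, A, B, N₀, hD⟩ := dst_of_isDistorted hI hf h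
    exact hD.growth hk
  · intro h
    obtain ⟨n, rfl⟩ : ∃ n, k = n + 1 := ⟨k - 1, by omega⟩
    exact realizable_of_growth hf h I

/-- The rate `N ^ (1 / k) * log (N + 1)`. -/
noncomputable def logRate (k : ℕ) (N : ℕ) : ℝ := (N : ℝ) ^ (1 / (k : ℝ)) * Real.log (N + 1)

lemma logRate_rate {k : ℕ} (hk : 2 ≤ k) : IsRateFunction (logRate k) where
  pos := by
    intro n hn
    have h1 : (0 : ℝ) < n := by exact_mod_cast hn
    have h2 : 0 < Real.log ((n : ℝ) + 1) := Real.log_pos (by linarith)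
    unfold logRate
    positivity
  mono := by
    intro m n hm hmn
    have h1 : (0 : ℝ) < m := by exact_mod_cast hm
    have h2 : (m : ℝ) ≤ n := by exact_mod_cast hmn
    unfold logRate
    have h3 : (m : ℝ) ^ (1 / (k : ℝ)) ≤ (n : ℝ) ^ (1 / (k : ℝ)) :=
      Real.rpow_le_rpow h1.le h2 (by positivity)
    have h4 : Real.log ((m : ℝ) + 1) ≤ Real.log (n + 1) := Real.log_le_log (by linarith) (by linarith)
    have h5 : 0 < Real.log ((m : ℝ) + 1) := Real.log_pos (by linarith)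
    have h6 : 0 ≤ (n : ℝ) ^ (1 / (k : ℝ)) := by positivity
    exact mul_le_mul h3 h4 h5.le h6
  unbounded := by
    intro R
    have h1 : Tendsto (fun n : ℕ => Real.log ((n : ℝ) + 1)) atTop atTop :=
      Real.tendsto_log_atTop.comp (tendsto_atTop_add_const_right _ _ tendsto_natCast_atTop_atTop)
    obtain ⟨n, hn1, hn2⟩ := ((eventually_ge_atTop 1).and (h1.eventually_gt_atTop R)).exists
    refine ⟨n, hn1, ?_⟩
    have h2 : (1 : ℝ) ≤ n := by exact_mod_cast hn1
    have h3 : (1 : ℝ) ≤ (n : ℝ) ^ (1 / (k : ℝ)) := Real.one_le_rpow h2 (by positivity)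
    have h4 : 0 < Real.log ((n : ℝ) + 1) := Real.log_pos (by linarith)
    unfold logRate
    nlinarith
  scaling := by
    intro M hM
    have hMR : (1 : ℝ) ≤ M := by exact_mod_cast hM
    have hl2 : 0 < Real.log 2 := Real.log_pos (by norm_num)
    have hlM : 0 ≤ Real.log M := Real.log_nonneg hMR
    have hMk : (1 : ℝ) ≤ (M : ℝ) ^ (1 / (k : ℝ)) := Real.one_le_rpow hMR (by positivity)
    refine ⟨1, (M : ℝ) ^ (1 / (k : ℝ)) * (1 + Real.log M / Real.log 2), one_pos, ?_, 0, ?_⟩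
    · have : 0 ≤ Real.log M / Real.log 2 := by positivity
      nlinarith
    intro N hN _
    have hNR : (1 : ℝ) ≤ N := by exact_mod_cast hN
    have hlog0 : 0 < Real.log ((N : ℝ) + 1) := Real.log_pos (by linarith)
    have hNk : (0 : ℝ) < (N : ℝ) ^ (1 / (k : ℝ)) := by positivity
    have hmul : ((M * N : ℕ) : ℝ) ^ (1 / (k : ℝ)) = (M : ℝ) ^ (1 / (k : ℝ)) * (N : ℝ) ^ (1 / (k : ℝ)) := by
      push_cast
      rw [Real.mul_rpow (by positivity) (by positivity)]
    have hNM : (N : ℝ) ≤ M * N := by nlinarith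
    unfold logRate
    rw [hmul]
    push_cast
    constructor
    · have h1 : Real.log ((N : ℝ) + 1) ≤ Real.log (M * N + 1) :=
        Real.log_le_log (by linarith) (by linarith)
      rw [one_mul]
      calc (N : ℝ) ^ (1 / (k : ℝ)) * Real.log (N + 1)
          ≤ (1 * (N : ℝ) ^ (1 / (k : ℝ))) * Real.log (M * N + 1) := by
            rw [one_mul]; gcongr
        _ ≤ ((M : ℝ) ^ (1 / (k : ℝ)) * (N : ℝ) ^ (1 / (k : ℝ))) * Real.log (M * N + 1) := by
            have : 0 ≤ Real.log ((M : ℝ) * N + 1) := hlog0.le.trans h1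
            gcongr
    · have h1 : Real.log ((M : ℝ) * N + 1) ≤ Real.log M + Real.log (N + 1) := by
        rw [← Real.log_mul (by positivity) (by positivity)]
        apply Real.log_le_log (by positivity)
        nlinarith
      have h2 : Real.log 2 ≤ Real.log ((N : ℝ) + 1) := Real.log_le_log (by norm_num) (by linarith)
      have h3 : Real.log M ≤ Real.log M / Real.log 2 * Real.log (N + 1) := by
        rw [div_mul_eq_mul_div, le_div_iff₀ hl2]
        exact mul_le_mul_of_nonneg_left h2 hlM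
      calc (M : ℝ) ^ (1 / (k : ℝ)) * (N : ℝ) ^ (1 / (k : ℝ)) * Real.log (M * N + 1)
          ≤ (M : ℝ) ^ (1 / (k : ℝ)) * (N : ℝ) ^ (1 / (k : ℝ)) *
            (Real.log M / Real.log 2 * Real.log (N + 1) + Real.log (N + 1)) := by
            apply mul_le_mul_of_nonneg_left _ (by positivity)
            linarith
        _ = _ := by ring

lemma logRate_little {k : ℕ} (hk : 2 ≤ k) :
    Tendsto (fun N : ℕ => (N : ℝ) / (logRate k N) ^ k) atTop (𝓝 0) := by
  have h1 : Tendsto (fun n : ℕ => Real.log ((n : ℝ) + 1)) atTop atTop :=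
    Real.tendsto_log_atTop.comp (tendsto_atTop_add_const_right _ _ tendsto_natCast_atTop_atTop)
  have h2 : Tendsto (fun n : ℕ => (Real.log ((n : ℝ) + 1) ^ k)⁻¹) atTop (𝓝 0) :=
    ((tendsto_pow_atTop (by omega)).comp h1).inv_tendsto_atTop
  refine h2.congr' ?_
  filter_upwards [eventually_ge_atTop 1] with N hN
  have hN0 : (0 : ℝ) < N := by exact_mod_cast hN
  have hk0 : ((k : ℕ) : ℝ) ≠ 0 := by positivity
  unfold logRate
  rw [mul_pow, ← Real.rpow_natCast ((N : ℝ) ^ (1 / (k : ℝ))) k, ← Real.rpow_mul hN0.le,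
    one_div_mul_cancel hk0, Real.rpow_one]
  field_simp

lemma logRate_le_linear {k : ℕ} (hk : 2 ≤ k) : RateLE (logRate k) (fun N => (N : ℝ)) := by
  refine ⟨4, by norm_num, 1, le_rfl, 0, ?_⟩
  intro N hN _
  have hN1 : (1 : ℝ) ≤ N := by exact_mod_cast hN
  have hk2 : (2 : ℝ) ≤ k := by exact_mod_cast hk
  have h1 : (N : ℝ) ^ (1 / (k : ℝ)) ≤ (N : ℝ) ^ (1 / 2 : ℝ) := by
    apply Real.rpow_le_rpow_of_exponent_le hN1
    exact one_div_le_one_div_of_le (by norm_num) hk2
  have h2 : Real.log ((N : ℝ) + 1) ≤ 2 * ((N : ℝ) + 1) ^ (1 / 2 : ℝ) := by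
    have h3 := Real.log_le_rpow_div (x := (N : ℝ) + 1) (by positivity)
      (show (0 : ℝ) < 1 / 2 by norm_num)
    linarith
  have h4 : ((N : ℝ) + 1) ^ (1 / 2 : ℝ) ≤ 2 * (N : ℝ) ^ (1 / 2 : ℝ) := by
    rw [← Real.sqrt_eq_rpow, ← Real.sqrt_eq_rpow]
    rw [show (2 : ℝ) = Real.sqrt 4 by
      rw [show (4 : ℝ) = 2 ^ 2 by norm_num, Real.sqrt_sq (by norm_num)], ← Real.sqrt_mul (by norm_num)]
    exact Real.sqrt_le_sqrt (by linarith)
  have h5 : (N : ℝ) ^ (1 / 2 : ℝ) * (N : ℝ) ^ (1 / 2 : ℝ) = N := by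
    rw [← Real.rpow_add (by linarith)]; norm_num
  have h6 : 0 ≤ Real.log ((N : ℝ) + 1) := Real.log_nonneg (by linarith)
  have h7 : 0 ≤ (N : ℝ) ^ (1 / 2 : ℝ) := by positivity
  unfold logRate
  rw [one_mul]
  calc (N : ℝ) ^ (1 / (k : ℝ)) * Real.log (N + 1)
      ≤ (N : ℝ) ^ (1 / 2 : ℝ) * (2 * (2 * (N : ℝ) ^ (1 / 2 : ℝ))) := by
        apply mul_le_mul h1 (h2.trans (by linarith)) h6 h7
    _ = 4 * ((N : ℝ) ^ (1 / 2 : ℝ) * (N : ℝ) ^ (1 / 2 : ℝ)) := by ring
    _ = 4 * N := by rw [h5]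
    _ ≤ 4 * N + 4 := by linarith

lemma logRate_not_growth {k : ℕ} : ¬ GrowthBetween (1 / (k : ℝ)) (logRate k) := by
  rintro ⟨α, hα, c, C, hc, N₀, h⟩
  set m := N₀ + 1 with hm
  have hm0 : (0 : ℝ) < m := by rw [hm]; positivity
  have hlm : 0 < Real.log ((m : ℝ) + 1) := Real.log_pos (by linarith)
  set β := α - 1 / (k : ℝ) with hβ
  have hβ0 : 0 < β := by rw [hβ]; linarith
  -- for all `n ≥ m`: `c (n/m)^β log (m+1) ≤ log (n+1)`
  have key : ∀ n : ℕ, m ≤ n → c * ((n : ℝ) / m) ^ β * Real.log (m + 1) ≤ Real.log (n + 1) := by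
    intro n hn
    have h1 := (h m n (by omega) (by omega) hn).1
    have hn0 : (0 : ℝ) < n := by exact_mod_cast (by omega : 0 < n)
    unfold logRate at h1
    have h2 : ((n : ℝ) / m) ^ α = ((n : ℝ) / m) ^ β * ((n : ℝ) ^ (1 / (k : ℝ)) / (m : ℝ) ^ (1 / (k : ℝ))) := by
      rw [← Real.div_rpow hn0.le hm0.le, ← Real.rpow_add (by positivity)]
      congr 1
      rw [hβ]; ring
    have hmk : 0 < (m : ℝ) ^ (1 / (k : ℝ)) := by positivity
    have hnk : 0 < (n : ℝ) ^ (1 / (k : ℝ)) := by positivity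
    rw [h2] at h1
    have h3 : c * (((n : ℝ) / m) ^ β * ((n : ℝ) ^ (1 / (k : ℝ)) / (m : ℝ) ^ (1 / (k : ℝ)))) *
        ((m : ℝ) ^ (1 / (k : ℝ)) * Real.log (m + 1)) =
        (n : ℝ) ^ (1 / (k : ℝ)) * (c * ((n : ℝ) / m) ^ β * Real.log (m + 1)) := by
      field_simp
    rw [h3] at h1
    exact le_of_mul_le_mul_left h1 hnk
  -- contradiction with `log = o(power)`
  have hlim : Tendsto (fun x : ℝ => Real.log x / x ^ β) atTop (𝓝 0) :=
    (isLittleO_log_rpow_atTop hβ0).tendsto_div_nhds_zero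
  have hlim2 : Tendsto (fun n : ℕ => Real.log ((n : ℝ) + 1) / ((n : ℝ) + 1) ^ β) atTop (𝓝 0) :=
    hlim.comp (tendsto_atTop_add_const_right _ _ tendsto_natCast_atTop_atTop)
  set K := c / (2 * m) ^ β * Real.log (m + 1) with hK
  have hK0 : 0 < K := by positivity
  obtain ⟨n, hn1, hn2⟩ := ((eventually_ge_atTop m).and (hlim2.eventually_lt_const hK0)).exists
  have hn0 : (0 : ℝ) < n := by exact_mod_cast (by omega : 0 < n)
  have hn1' : (1 : ℝ) ≤ n := by exact_mod_cast (by omega : 1 ≤ n)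
  have h1 := key n hn1
  rw [div_lt_iff₀ (by positivity)] at hn2
  have h4 : ((n : ℝ) + 1) ^ β ≤ (2 * m) ^ β * ((n : ℝ) / m) ^ β := by
    rw [← Real.mul_rpow (by positivity) (by positivity)]
    apply Real.rpow_le_rpow (by positivity) _ hβ0.le
    have : 2 * (m : ℝ) * (n / m) = 2 * n := by field_simp
    rw [this]; linarith
  have h5 : K * ((n : ℝ) + 1) ^ β ≤ c * ((n : ℝ) / m) ^ β * Real.log (m + 1) := by
    calc K * ((n : ℝ) + 1) ^ β ≤ K * ((2 * m) ^ β * ((n : ℝ) / m) ^ β) := by gcongr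
      _ = _ := by
        rw [hK]
        have : (0 : ℝ) < (2 * m) ^ β := by positivity
        field_simp
  linarith

/-- The rate `N ^ (1 / k) * log (N + 1)` satisfies the obvious necessary conditions but is not
realizable. -/
theorem logRate_not_mem {k : ℕ} (hk : 2 ≤ k) {I : Set ℤ} (hI : I = indexN ∨ I = indexZ) :
    ¬ InSpectrum I (logRate k) (EuclideanSpace ℝ (Fin k)) := by
  intro h
  have hf : IsRateFunction (logRate k) := logRate_rate hk
  rw [inSpectrum_iff hf, realizable_ge_two hk hf hI] at h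
  exact logRate_not_growth h

/-- Complete description of the sequence distortion spectrum of Euclidean spaces. -/
theorem main (k : ℕ) (hk : 1 ≤ k) (f : ℕ → ℝ) (hf : IsRateFunction f) (I : Set ℤ)
    (hI : I = indexN ∨ I = indexZ) :
    (Realizable I f (EuclideanSpace ℝ (Fin k)) ↔
      (k = 1 ∧ LinearGrowth f) ∨ (2 ≤ k ∧ GrowthBetween (1 / (k : ℝ)) f)) ∧
    (InSpectrum I f (EuclideanSpace ℝ (Fin k)) ↔
      (k = 1 ∧ LinearGrowth f) ∨ (2 ≤ k ∧ GrowthBetween (1 / (k : ℝ)) f)) := by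
  rw [inSpectrum_iff hf, and_self]
  rcases Nat.lt_or_ge k 2 with h | h
  · obtain rfl : k = 1 := by omega
    rw [realizable_one hf hI]
    simp
  · rw [realizable_ge_two h hf hI]
    have h1 : k ≠ 1 := by omega
    simp [h, h1]

end Pool.Agent.H61.SD
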