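import Pool.Agent.H61.Adm
import Pool.Agent.H61.LSigma

set_option autoImplicit false

namespace Pool.Agent.H61

open Set Topology Filter Cardinal

variable {W : Type} [LinearOrder W]

theorem adm_empty : Adm (fun _ : Pt W => false) :=
  ⟨fun _ h => absurd h (by simp), fun _ => false, fun _ _ h => absurd h (by simp)⟩

/-- The empty set as a point of the space. -/
def emp : XX W := ⟨fun _ => false, adm_empty⟩

/-- The pieces on which a function is not constant. -/
def Dep (f : XX W → ℝ) : Set (Set Can) :=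
  {B | ∃ K : XX W, (∀ k, K.1 k = true → k.B = B) ∧ f K ≠ f emp}

theorem countable_dep (f : XX W → ℝ) (hf : Continuous f) : (Dep f).Countable := by
  have h1 : ∀ n : ℕ, ∃ I : Finset (Pt W), ∀ K : XX W, (∀ k ∈ I, K.1 k = false) →
      |f K - f emp| < 1 / ((n : ℝ) + 1) := by
    intro n
    have hO : IsOpen {K : XX W | |f K - f emp| < 1 / ((n : ℝ) + 1)} := by
      apply isOpen_lt
      · fun_prop
      · fun_prop
    obtain ⟨O, hO1, hO2⟩ := isInducing_val.isOpen_iff.mp hO
    have hmem : (emp : XX W).1 ∈ O := by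
      have : (emp : XX W) ∈ (fun K : XX W => K.1) ⁻¹' O := by
        rw [hO2]
        simp only [mem_ofPred_eq, sub_self, abs_zero]
        positivity
      exact this
    obtain ⟨I, u, hI1, hI2⟩ := isOpen_pi_iff.mp hO1 _ hmem
    refine ⟨I, fun K hK => ?_⟩
    have : K ∈ (fun K : XX W => K.1) ⁻¹' O := by
      apply hI2
      intro k hk
      change K.1 k ∈ u k
      rw [hK k hk]
      exact (hI1 k hk).2
    rw [hO2] at this
    exact this
  choose I hI using h1
  have h2 : Dep f ⊆ ⋃ n, (fun k : Pt W => k.B) '' (I n : Set (Pt W)) := by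
    rintro B ⟨K, hK1, hK2⟩
    have h3 : 0 < |f K - f emp| := abs_pos.mpr (sub_ne_zero.mpr hK2)
    obtain ⟨n, hn⟩ := exists_nat_one_div_lt h3
    have h4 : ¬ ∀ k ∈ I n, K.1 k = false := fun h => absurd (hI n K h) (not_lt.mpr hn.le)
    push Not at h4
    obtain ⟨k, hk1, hk2⟩ := h4
    exact mem_iUnion.mpr ⟨n, k, hk1, hK1 k (by simpa using hk2)⟩
  exact (countable_iUnion fun n => ((I n).countable_toSet.image _)).mono h2

/-- The restriction of an admissible set to the pieces in `𝔅`. -/
noncomputable def res (𝔅 : Set (Set Can)) (K : XX W) : XX W := by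
  classical
  exact ⟨fun k => K.1 k && decide (k.B ∈ 𝔅), K.2.mono (fun k hk => by
    simp only [Bool.and_eq_true] at hk
    exact hk.1)⟩

theorem res_apply (𝔅 : Set (Set Can)) (K : XX W) (k : Pt W) :
    (res 𝔅 K).1 k = true ↔ K.1 k = true ∧ k.B ∈ 𝔅 := by
  simp [res]

theorem continuous_res (𝔅 : Set (Set Can)) : Continuous (res 𝔅 : XX W → XX W) := by
  classical
  rw [continuous_iff_continuousAt]
  intro K
  apply tendsto_XX
  intro k
  have h : Continuous (fun b : Bool => b && decide (k.B ∈ 𝔅)) := continuous_of_discreteTopology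
  have h2 := (h.comp (continuous_coord k)).tendsto K
  refine Tendsto.congr (fun L => ?_) (h2.trans (le_of_eq ?_))
  · rfl
  · rfl

theorem same_piece (K : XX W) {k k' : Pt W} (hk : K.1 k = true) (hk' : K.1 k' = true) :
    k.B = k'.B := by
  by_cases h : k = k'
  · rw [h]
  · obtain ⟨_, y, hy⟩ := K.2
    exact (hy k k' hk hk' h).1

theorem eq_res_of_dep {𝔅 : Set (Set Can)} {f : XX W → ℝ} (hf : Dep f ⊆ 𝔅) (K : XX W) :
    f K = f (res 𝔅 K) := by
  by_cases h : ∀ k, K.1 k = true → k.B ∈ 𝔅
  · have : res 𝔅 K = K := by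
      apply Subtype.ext
      funext k
      rw [Bool.eq_iff_iff, res_apply]
      exact ⟨fun h' => h'.1, fun h' => ⟨h', h k h'⟩⟩
    rw [this]
  · push Not at h
    obtain ⟨k0, hk0, hB⟩ := h
    have h1 : res 𝔅 K = emp := by
      apply Subtype.ext
      funext k
      rw [Bool.eq_iff_iff, res_apply]
      constructor
      · rintro ⟨h2, h3⟩
        rw [same_piece K h2 hk0] at h3
        exact absurd h3 hB
      · intro h2
        exact absurd h2 (by simp [emp])
    rw [h1]
    by_contra hne
    exact hB (hf ⟨K, fun k hk => same_piece K hk hk0, hne⟩)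

/-- The parameter space for countably or continuum many pieces. -/
def ParSet (𝔅 : Set (Set Can)) (r : Set Can → Can) : Set (Can × Can) :=
  {p | ∃ B ∈ 𝔅, p.1 = r B ∧ p.2 ∈ B}

/-- The presentation of the coordinate functions. -/
def F0 (W : Type) [LinearOrder W] (𝔅 : Set (Set Can)) (r : Set Can → Can) :
    Set ((Pt W → Bool) × ParSet 𝔅 r) :=
  {q | (∀ k k', k ≠ k' → q.1 k = true → q.1 k' = true → False) ∧
    ∀ k, q.1 k = true → (k.B ∈ 𝔅 ∧ k.z ∈ k.B ∧ q.2.1 = (r k.B, k.z))}

theorem isClosed_F0 (𝔅 : Set (Set Can)) (r : Set Can → Can) : IsClosed (F0 W 𝔅 r) := by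
  have h : F0 W 𝔅 r = (⋂ k : Pt W, ⋂ k' : Pt W, {q : (Pt W → Bool) × ParSet 𝔅 r |
        k ≠ k' → q.1 k = true → q.1 k' = true → False}) ∩
      (⋂ k : Pt W, ({q : (Pt W → Bool) × ParSet 𝔅 r | q.1 k = false} ∪
        {q | k.B ∈ 𝔅 ∧ k.z ∈ k.B ∧ q.2.1 = (r k.B, k.z)})) := by
    ext q
    simp only [F0, mem_ofPred_eq, mem_inter_iff, mem_iInter, mem_union]
    constructor
    · rintro ⟨h1, h2⟩
      refine ⟨h1, fun k => ?_⟩
      by_cases hk : q.1 k = true
      · exact Or.inr (h2 k hk)
      · exact Or.inl (by simpa using hk)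
    · rintro ⟨h1, h2⟩
      refine ⟨h1, fun k hk => ?_⟩
      rcases h2 k with h3 | h3
      · rw [hk] at h3; exact absurd h3 (by simp)
      · exact h3
  rw [h]
  have hc : ∀ k : Pt W, Continuous (fun q : (Pt W → Bool) × ParSet 𝔅 r => q.1 k) :=
    fun k => (continuous_apply k).comp continuous_fst
  refine (isClosed_iInter fun k => isClosed_iInter fun k' => ?_).inter
    (isClosed_iInter fun k => IsClosed.union ?_ ?_)
  · exact (isClosed_discrete {b : Bool × Bool | k ≠ k' → b.1 = true → b.2 = true → False}).preimage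
      ((hc k).prodMk (hc k'))
  · exact (isClosed_discrete {b : Bool | b = false}).preimage (hc k)
  · by_cases hg : k.B ∈ 𝔅 ∧ k.z ∈ k.B
    · have : {q : (Pt W → Bool) × ParSet 𝔅 r | k.B ∈ 𝔅 ∧ k.z ∈ k.B ∧ q.2.1 = (r k.B, k.z)} =
          {q | q.2.1 = (r k.B, k.z)} := by
        ext q
        simp only [mem_ofPred_eq]
        tauto
      rw [this]
      exact isClosed_eq (continuous_subtype_val.comp continuous_snd) continuous_const
    · have : {q : (Pt W → Bool) × ParSet 𝔅 r | k.B ∈ 𝔅 ∧ k.z ∈ k.B ∧ q.2.1 = (r k.B, k.z)} =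
          ∅ := by
        ext q
        simp only [mem_ofPred_eq, mem_empty_iff_false, iff_false]
        tauto
      rw [this]
      exact isClosed_empty

/-- The presentation map. -/
noncomputable def g0 (𝔅 : Set (Set Can)) (r : Set Can → Can)
    (q : (Pt W → Bool) × ParSet 𝔅 r) (K : XX W) : ℝ := by
  classical
  exact if ∃ k, q.1 k = true ∧ K.1 k = true then 1 else 0

/-- Local finiteness. -/
theorem locally_finite {𝔅 : Set (Set Can)} {r : Set Can → Can} (hr : InjOn r 𝔅)
    (K : XX W) (m : ParSet 𝔅 r) :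
    ∃ O : Set (ParSet 𝔅 r), IsOpen O ∧ m ∈ O ∧
      {k : Pt W | K.1 k = true ∧ ∃ m' ∈ O, k.B ∈ 𝔅 ∧ m'.1 = (r k.B, k.z)}.Finite := by
  classical
  by_cases hsub : ∀ k k', K.1 k = true → K.1 k' = true → k = k'
  · refine ⟨univ, isOpen_univ, mem_univ _, ?_⟩
    apply Set.Subsingleton.finite
    rintro k ⟨hk, _⟩ k' ⟨hk', _⟩
    exact hsub k k' hk hk'
  push Not at hsub
  obtain ⟨k0, k1, hk0, hk1, hne⟩ := hsub
  obtain ⟨hK1, y, hy⟩ := K.2
  have hyB : y ∉ k0.B := (hy k0 k1 hk0 hk1 hne).2.1
  obtain ⟨⟨m1, m2⟩, B, hB, hm1, hm2⟩ := m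
  simp only at hm1 hm2
  by_cases hrB : m1 = r k0.B
  · have hB0 : B = k0.B ∨ k0.B ∉ 𝔅 := by
      by_cases h : k0.B ∈ 𝔅
      · left
        exact hr hB h (by rw [← hm1, hrB])
      · right; exact h
    rcases hB0 with hB0 | hB0
    · -- the same piece: use the levels
      subst hB0
      have hzy : m2 ≠ y := fun h => hyB (h ▸ hm2)
      refine ⟨{m' | ∀ i ≤ PiNat.firstDiff m2 y, m'.1.2 i = m2 i}, ?_, fun i _ => rfl, ?_⟩
      · have : {m' : ParSet 𝔅 r | ∀ i ≤ PiNat.firstDiff m2 y, m'.1.2 i = m2 i} =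
            ⋂ i ∈ Finset.range (PiNat.firstDiff m2 y + 1), {m' | m'.1.2 i = m2 i} := by
          ext m'
          simp only [mem_ofPred_eq, mem_iInter, Finset.mem_range, Nat.lt_succ_iff]
        rw [this]
        apply isOpen_biInter_finset
        intro i _
        have hci : Continuous (fun m' : ParSet 𝔅 r => m'.1.2 i) :=
          (continuous_apply i).comp (continuous_snd.comp continuous_subtype_val)
        exact (isOpen_discrete {b : Bool | b = m2 i}).preimage hci
      · apply Set.Subsingleton.finite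
        have key : ∀ k : Pt W, (K.1 k = true ∧ ∃ m' ∈ {m' : ParSet 𝔅 r |
            ∀ i ≤ PiNat.firstDiff m2 y, m'.1.2 i = m2 i}, k.B ∈ 𝔅 ∧ m'.1 = (r k.B, k.z)) →
            PiNat.firstDiff k.z y = PiNat.firstDiff m2 y := by
          rintro k ⟨hk, m', hm', hkB, hmk⟩
          have hz : ∀ i ≤ PiNat.firstDiff m2 y, k.z i = m2 i := by
            intro i hi
            have := hm' i hi
            rw [hmk] at this
            exact this
          have hkzy : k.z ≠ y := by
            intro h
            have h1 := hK1 k hk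
            rw [h, same_piece K hk hk0] at h1
            exact hyB h1
          apply le_antisymm
          · by_contra hlt
            rw [not_le] at hlt
            have h1 := PiNat.apply_eq_of_lt_firstDiff hlt
            rw [hz _ le_rfl] at h1
            exact PiNat.apply_firstDiff_ne hzy h1
          · by_contra hlt
            rw [not_le] at hlt
            have h1 := PiNat.apply_eq_of_lt_firstDiff hlt
            rw [← hz _ hlt.le] at h1
            exact PiNat.apply_firstDiff_ne hkzy h1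
        intro k hk k' hk'
        by_contra hne'
        have := (hy k k' hk.1 hk'.1 hne').2.2.1
        rw [key k hk, key k' hk'] at this
        exact this rfl
    · refine ⟨univ, isOpen_univ, mem_univ _, ?_⟩
      have : {k : Pt W | K.1 k = true ∧ ∃ m' ∈ (univ : Set (ParSet 𝔅 r)), k.B ∈ 𝔅 ∧
          m'.1 = (r k.B, k.z)} = ∅ := by
        rw [Set.eq_empty_iff_forall_notMem]
        rintro k ⟨hk, m', _, hkB, _⟩
        rw [same_piece K hk hk0] at hkB
        exact hB0 hkB
      rw [this]
      exact finite_empty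
  · -- different pieces
    refine ⟨{m' | m'.1.1 ≠ r k0.B}, ?_, hrB, ?_⟩
    · exact isOpen_ne_fun (continuous_fst.comp continuous_subtype_val) continuous_const
    · have : {k : Pt W | K.1 k = true ∧ ∃ m' ∈ {m' : ParSet 𝔅 r | m'.1.1 ≠ r k0.B}, k.B ∈ 𝔅 ∧
          m'.1 = (r k.B, k.z)} = ∅ := by
        rw [Set.eq_empty_iff_forall_notMem]
        rintro k ⟨hk, m', hm', hkB, hmk⟩
        apply hm'
        rw [hmk, same_piece K hk hk0]
      rw [this]
      exact finite_empty

theorem continuousOn_g0 {𝔅 : Set (Set Can)} {r : Set Can → Can} (hr : InjOn r 𝔅) :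
    ContinuousOn (g0 (W := W) 𝔅 r) (F0 W 𝔅 r) := by
  classical
  rw [continuousOn_pi]
  intro K q hq
  have hc : ∀ k : Pt W, Continuous (fun q : (Pt W → Bool) × ParSet 𝔅 r => q.1 k) :=
    fun k => (continuous_apply k).comp continuous_fst
  by_cases h : ∃ k, q.1 k = true
  · obtain ⟨k, hk⟩ := h
    have hnhds : {q' : (Pt W → Bool) × ParSet 𝔅 r | q'.1 k = true} ∈ 𝓝 q :=
      ((isOpen_discrete {b : Bool | b = true}).preimage (hc k)).mem_nhds hk
    have hval : ∀ q' ∈ F0 W 𝔅 r ∩ {q' | q'.1 k = true},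
        g0 𝔅 r q' K = if K.1 k = true then 1 else 0 := by
      rintro q' ⟨h1, h2⟩
      unfold g0
      by_cases hK : K.1 k = true
      · rw [if_pos ⟨k, h2, hK⟩, if_pos hK]
      · rw [if_neg hK, if_neg]
        rintro ⟨k', h3, h4⟩
        by_cases hkk : k = k'
        · subst hkk; exact hK h4
        · exact h1.1 k k' hkk h2 h3
    rw [← continuousWithinAt_inter hnhds]
    refine continuousWithinAt_const.congr hval (hval q ⟨hq, hk⟩)
  · push Not at h
    obtain ⟨O, hO1, hO2, hO3⟩ := locally_finite hr K q.2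
    have hnhds : ({q' : (Pt W → Bool) × ParSet 𝔅 r | q'.2 ∈ O} ∩
        ⋂ k ∈ hO3.toFinset, {q' | q'.1 k = false}) ∈ 𝓝 q := by
      apply inter_mem
      · exact (hO1.preimage continuous_snd).mem_nhds hO2
      · apply IsOpen.mem_nhds
        · apply isOpen_biInter_finset
          intro k _
          exact (isOpen_discrete {b : Bool | b = false}).preimage (hc k)
        · simp only [mem_iInter]
          intro k _
          have := h k
          simpa using this
    have hval : ∀ q' ∈ F0 W 𝔅 r ∩ ({q' : (Pt W → Bool) × ParSet 𝔅 r | q'.2 ∈ O} ∩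
        ⋂ k ∈ hO3.toFinset, {q' | q'.1 k = false}), g0 𝔅 r q' K = 0 := by
      rintro q' ⟨h1, h2, h3⟩
      unfold g0
      rw [if_neg]
      rintro ⟨k, h4, h5⟩
      obtain ⟨h6, h7, h8⟩ := h1.2 k h4
      simp only [mem_iInter] at h3
      have h9 := h3 k (by
        rw [Set.Finite.mem_toFinset]
        exact ⟨h5, q'.2, h2, h6, h8⟩)
      rw [mem_ofPred_eq, h4] at h9
      exact absurd h9 (by simp)
    rw [← continuousWithinAt_inter hnhds]
    refine continuousWithinAt_const.congr hval (hval q ⟨hq, mem_of_mem_nhds hnhds⟩)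

end Pool.Agent.H61
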