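import Pool.Agent.H61.SmallClosures

set_option autoImplicit false

namespace Pool.Agent.H61

open Set Topology Filter Cardinal

variable {W : Type} [LinearOrder W]

/-- Generators: coordinate functions of the pieces in `𝔅` and the constants. -/
def Q0 (W : Type) [LinearOrder W] (𝔅 : Set (Set Can)) (r : Set Can → Can) :
    Set (XX W → ℝ) :=
  (g0 𝔅 r '' F0 W 𝔅 r) ∪ range (fun c : ℝ => fun _ : XX W => c)

/-- Polynomials of bounded complexity in the generators. -/
def Q (W : Type) [LinearOrder W] (𝔅 : Set (Set Can)) (r : Set Can → Can) :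
    ℕ → Set (XX W → ℝ)
  | 0 => Q0 W 𝔅 r
  | n + 1 => (Q W 𝔅 r n ∪ (fun p : (XX W → ℝ) × (XX W → ℝ) => p.1 + p.2) ''
      (Q W 𝔅 r n ×ˢ Q W 𝔅 r n)) ∪
      (fun p : (XX W → ℝ) × (XX W → ℝ) => p.1 * p.2) '' (Q W 𝔅 r n ×ˢ Q W 𝔅 r n)

theorem isLS_Q {𝔅 : Set (Set Can)} {r : Set Can → Can} (hr : InjOn r 𝔅) (n : ℕ) :
    IsLS (Q W 𝔅 r n) := by
  induction n with
  | zero =>
    apply IsLS.union
    · exact ⟨Pt W → Bool, ParSet 𝔅 r, inferInstance, inferInstance, inferInstance, inferInstance,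
        inferInstance, inferInstance, F0 W 𝔅 r, g0 𝔅 r, isClosed_F0 𝔅 r, continuousOn_g0 hr, rfl⟩
    · refine ⟨Unit, ℝ, inferInstance, inferInstance, inferInstance, inferInstance,
        inferInstance, inferInstance, Set.univ, fun q => fun _ => q.2, isClosed_univ, ?_, ?_⟩
      · apply Continuous.continuousOn
        exact continuous_pi fun _ => continuous_snd
      · ext f
        constructor
        · rintro ⟨q, _, rfl⟩
          exact ⟨q.2, rfl⟩
        · rintro ⟨c, rfl⟩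
          exact ⟨((), c), mem_univ _, rfl⟩
  | succ n ih =>
    apply IsLS.union
    · apply IsLS.union ih
      apply (ih.prod ih).image
      exact (continuous_fst.add continuous_snd).continuousOn
    · apply (ih.prod ih).image
      exact (continuous_fst.mul continuous_snd).continuousOn

theorem Q_succ {𝔅 : Set (Set Can)} {r : Set Can → Can} (n : ℕ) : Q W 𝔅 r n ⊆ Q W 𝔅 r (n + 1) :=
  fun _ hf => Or.inl (Or.inl hf)

theorem Q_mono {𝔅 : Set (Set Can)} {r : Set Can → Can} : Monotone (Q W 𝔅 r) :=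
  monotone_nat_of_le_succ Q_succ

/-- All polynomials. -/
def QQ (W : Type) [LinearOrder W] (𝔅 : Set (Set Can)) (r : Set Can → Can) :
    Set (XX W → ℝ) := ⋃ n, Q W 𝔅 r n

theorem isLS_QQ {𝔅 : Set (Set Can)} {r : Set Can → Can} (hr : InjOn r 𝔅) :
    IsLS (QQ W 𝔅 r) := IsLS.iUnion' (isLS_Q hr)

theorem QQ_add {𝔅 : Set (Set Can)} {r : Set Can → Can} {f g : XX W → ℝ} (hf : f ∈ QQ W 𝔅 r)
    (hg : g ∈ QQ W 𝔅 r) : f + g ∈ QQ W 𝔅 r := by
  obtain ⟨n, hn⟩ := mem_iUnion.mp hf
  obtain ⟨m, hm⟩ := mem_iUnion.mp hg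
  refine mem_iUnion.mpr ⟨max n m + 1, Or.inl (Or.inr ⟨(f, g), ⟨?_, ?_⟩, rfl⟩)⟩
  · exact Q_mono (le_max_left _ _) hn
  · exact Q_mono (le_max_right _ _) hm

theorem QQ_mul {𝔅 : Set (Set Can)} {r : Set Can → Can} {f g : XX W → ℝ} (hf : f ∈ QQ W 𝔅 r)
    (hg : g ∈ QQ W 𝔅 r) : f * g ∈ QQ W 𝔅 r := by
  obtain ⟨n, hn⟩ := mem_iUnion.mp hf
  obtain ⟨m, hm⟩ := mem_iUnion.mp hg
  refine mem_iUnion.mpr ⟨max n m + 1, Or.inr ⟨(f, g), ⟨?_, ?_⟩, rfl⟩⟩
  · exact Q_mono (le_max_left _ _) hn
  · exact Q_mono (le_max_right _ _) hm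

theorem QQ_const {𝔅 : Set (Set Can)} {r : Set Can → Can} (c : ℝ) :
    (fun _ : XX W => c) ∈ QQ W 𝔅 r :=
  mem_iUnion.mpr ⟨0, Or.inr ⟨c, rfl⟩⟩

theorem QQ_pr {𝔅 : Set (Set Can)} {r : Set Can → Can} (k : Pt W) (hk : k.B ∈ 𝔅) :
    pr k ∈ QQ W 𝔅 r := by
  classical
  by_cases hz : k.z ∈ k.B
  · refine mem_iUnion.mpr ⟨0, Or.inl ⟨(fun k' => decide (k' = k),
      ⟨(r k.B, k.z), k.B, hk, rfl, hz⟩), ⟨?_, ?_⟩, ?_⟩⟩
    · intro k1 k2 hne h1 h2
      simp only [decide_eq_true_eq] at h1 h2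
      exact hne (h1.trans h2.symm)
    · intro k1 h1
      simp only [decide_eq_true_eq] at h1
      subst h1
      exact ⟨hk, hz, rfl⟩
    · funext K
      unfold g0 pr
      by_cases hK : K.1 k = true
      · rw [if_pos hK, if_pos ⟨k, by simp, hK⟩]
      · rw [if_neg hK, if_neg]
        rintro ⟨k', h1, h2⟩
        simp only [decide_eq_true_eq] at h1
        subst h1
        exact hK h2
  · have : pr k = fun _ : XX W => (0 : ℝ) := by
      funext K
      unfold pr
      rw [if_neg]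
      intro hK
      exact hz (K.2.1 k hK)
    rw [this]
    exact QQ_const 0

theorem continuous_of_mem_Q {𝔅 : Set (Set Can)} {r : Set Can → Can} (n : ℕ) :
    ∀ f ∈ Q W 𝔅 r n, Continuous f := by
  classical
  induction n with
  | zero =>
    rintro f (⟨q, hq, rfl⟩ | ⟨c, rfl⟩)
    · by_cases h : ∃ k, q.1 k = true
      · obtain ⟨k, hk⟩ := h
        have : g0 𝔅 r q = (pr k : XX W → ℝ) := by
          funext K
          unfold g0 pr
          by_cases hK : K.1 k = true
          · rw [if_pos hK, if_pos ⟨k, hk, hK⟩]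
          · rw [if_neg hK, if_neg]
            rintro ⟨k', h1, h2⟩
            by_cases hkk : k = k'
            · subst hkk; exact hK h2
            · exact hq.1 k k' hkk hk h1
        rw [this]
        exact continuous_pr k
      · have : g0 𝔅 r q = (fun _ : XX W => (0 : ℝ)) := by
          funext K
          unfold g0
          rw [if_neg]
          rintro ⟨k, h1, _⟩
          exact h ⟨k, h1⟩
        rw [this]
        exact continuous_const
    · exact continuous_const
  | succ n ih =>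
    rintro f ((hf | ⟨⟨a, b⟩, ⟨ha, hb⟩, rfl⟩) | ⟨⟨a, b⟩, ⟨ha, hb⟩, rfl⟩)
    · exact ih f hf
    · exact (ih a ha).add (ih b hb)
    · exact (ih a ha).mul (ih b hb)

theorem continuous_of_mem_QQ {𝔅 : Set (Set Can)} {r : Set Can → Can} {f : XX W → ℝ}
    (hf : f ∈ QQ W 𝔅 r) : Continuous f := by
  obtain ⟨n, hn⟩ := mem_iUnion.mp hf
  exact continuous_of_mem_Q n f hn

/-- Stone-Weierstrass. -/
theorem approx {𝔅 : Set (Set Can)} {r : Set Can → Can} (f : XX W → ℝ) (hf : Continuous f)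
    (hres : ∀ K, f K = f (res 𝔅 K)) (ε : ℝ) (hε : 0 < ε) :
    ∃ g ∈ QQ W 𝔅 r, ∀ K, |g K - f K| < ε := by
  classical
  let S : Set (XX W) := {K | ∀ k, K.1 k = true → k.B ∈ 𝔅}
  have hS : IsClosed S := by
    have : S = ⋂ k : Pt W, {K : XX W | K.1 k = true → k.B ∈ 𝔅} := by
      ext K
      simp only [S, mem_ofPred_eq, mem_iInter]
    rw [this]
    apply isClosed_iInter
    intro k
    exact (isClosed_discrete {b : Bool | b = true → k.B ∈ 𝔅}).preimage (continuous_coord k)
  have : CompactSpace S := isCompact_iff_compactSpace.mp hS.isCompact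
  have hresS : ∀ K : XX W, res 𝔅 K ∈ S := by
    intro K k hk
    rw [res_apply] at hk
    exact hk.2
  let ρ : XX W → S := fun K => ⟨res 𝔅 K, hresS K⟩
  let f' : C(S, ℝ) := ⟨fun K => f K.1, hf.comp continuous_subtype_val⟩
  let gens : Set C(S, ℝ) := {g | ∃ k : Pt W, k.B ∈ 𝔅 ∧ ∀ K : S, g K = pr k K.1}
  let A : Subalgebra ℝ C(S, ℝ) := Algebra.adjoin ℝ gens
  have hsep : A.SeparatesPoints := by
    intro K L hKL
    have h1 : ∃ k, K.1.1 k ≠ L.1.1 k := by
      by_contra hcon
      push Not at hcon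
      exact hKL (Subtype.ext (Subtype.ext (funext hcon)))
    obtain ⟨k, hk⟩ := h1
    have hkB : k.B ∈ 𝔅 := by
      by_cases hKk : K.1.1 k = true
      · exact K.2 k hKk
      · by_cases hLk : L.1.1 k = true
        · exact L.2 k hLk
        · exfalso
          apply hk
          rw [Bool.eq_iff_iff]
          exact ⟨fun h => absurd h hKk, fun h => absurd h hLk⟩
    let g : C(S, ℝ) := ⟨fun K => pr k K.1, (continuous_pr k).comp continuous_subtype_val⟩
    refine ⟨g, ⟨g, Algebra.subset_adjoin ⟨k, hkB, fun K => rfl⟩, rfl⟩, ?_⟩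
    change pr k K.1 ≠ pr k L.1
    unfold pr
    cases hKk : K.1.1 k <;> cases hLk : L.1.1 k <;> simp_all
  obtain ⟨g, hg⟩ := ContinuousMap.exists_mem_subalgebra_near_continuousMap_of_separatesPoints
    A hsep f' ε hε
  refine ⟨fun K => g.1 (ρ K), ?_, ?_⟩
  · have hall : ∀ g ∈ Algebra.adjoin ℝ gens, (fun K : XX W => g (ρ K)) ∈ QQ W 𝔅 r := by
      intro g hg
      induction hg using Algebra.adjoin_induction with
      | mem g hg =>
        obtain ⟨k, hk, hgk⟩ := hg
        have : (fun K : XX W => g (ρ K)) = pr k := by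
          funext K
          rw [hgk]
          unfold pr
          have h1 : (res 𝔅 K).1 k = true ↔ K.1 k = true := by
            rw [res_apply]
            exact ⟨fun h => h.1, fun h => ⟨h, hk⟩⟩
          change (if (res 𝔅 K).1 k = true then (1 : ℝ) else 0) = _
          by_cases hK : K.1 k = true
          · rw [if_pos hK, if_pos (h1.mpr hK)]
          · rw [if_neg hK, if_neg (fun h => hK (h1.mp h))]
        rw [this]
        exact QQ_pr k hk
      | algebraMap c => exact QQ_const c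
      | add a b _ _ ha hb => exact QQ_add ha hb
      | mul a b _ _ ha hb => exact QQ_mul ha hb
    exact hall g.1 g.2
  · intro K
    have h1 : ‖(g.1 - f') (ρ K)‖ ≤ ‖g.1 - f'‖ := ContinuousMap.norm_coe_le_norm _ _
    rw [Real.norm_eq_abs] at h1
    have h2 : (g.1 - f') (ρ K) = g.1 (ρ K) - f K := by
      rw [ContinuousMap.sub_apply]
      change _ - f (res 𝔅 K) = _
      rw [← hres]
    rw [h2] at h1
    exact lt_of_le_of_lt h1 hg

end Pool.Agent.H61
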