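import Pool.Agent.H61.SmallClosures2

set_option autoImplicit false

namespace Pool.Agent.H61

open Set Topology Filter Cardinal

variable {W : Type} [LinearOrder W]

/-- The fast converging sequences. -/
def T0 (X : Type) : Set (ℕ → (X → ℝ)) :=
  {F | ∀ (j : ℕ) (x : X), |F (j + 1) x - F j x| ≤ (1 / 2 : ℝ) ^ j}

theorem isClosed_T0 (X : Type) : IsClosed (T0 X) := by
  have : T0 X = ⋂ j : ℕ, ⋂ x : X, {F | |F (j + 1) x - F j x| ≤ (1 / 2 : ℝ) ^ j} := by
    ext F; simp only [T0, mem_ofPred_eq, mem_iInter]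
  rw [this]
  refine isClosed_iInter fun j => isClosed_iInter fun x => isClosed_le ?_ continuous_const
  fun_prop

/-- The limit of a sequence of functions. -/
noncomputable def Lim {X : Type} (F : ℕ → (X → ℝ)) (x : X) : ℝ := limUnder atTop (fun j => F j x)

theorem dist_T0 {X : Type} {F : ℕ → (X → ℝ)} (hF : F ∈ T0 X) (x : X) (n : ℕ) :
    dist (F n x) (F (n + 1) x) ≤ 1 * (1 / 2 : ℝ) ^ n := by
  rw [dist_comm, Real.dist_eq, one_mul]
  exact hF n x

theorem tendsto_Lim {X : Type} {F : ℕ → (X → ℝ)} (hF : F ∈ T0 X) (x : X) :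
    Tendsto (fun j => F j x) atTop (𝓝 (Lim F x)) := by
  have h : CauchySeq (fun j => F j x) :=
    cauchySeq_of_le_geometric (1 / 2 : ℝ) 1 (by norm_num) (dist_T0 hF x)
  exact h.tendsto_limUnder

theorem dist_Lim {X : Type} {F : ℕ → (X → ℝ)} (hF : F ∈ T0 X) (x : X) (n : ℕ) :
    dist (F n x) (Lim F x) ≤ 2 * (1 / 2 : ℝ) ^ n := by
  have h := dist_le_of_le_geometric_of_tendsto (1 / 2 : ℝ) 1 (by norm_num) (dist_T0 hF x)
    (tendsto_Lim hF x) n
  refine h.trans (le_of_eq ?_)
  norm_num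
  ring

theorem tendsto_two_pow : Tendsto (fun n : ℕ => 2 * (1 / 2 : ℝ) ^ n) atTop (𝓝 0) := by
  have := (tendsto_pow_atTop_nhds_zero_of_lt_one (r := (1 / 2 : ℝ)) (by norm_num)
    (by norm_num)).const_mul 2
  simpa using this

theorem continuousOn_Lim (X : Type) : ContinuousOn (Lim (X := X)) (T0 X) := by
  rw [continuousOn_pi]
  intro x
  have h : TendstoUniformlyOn (fun (n : ℕ) (F : ℕ → (X → ℝ)) => F n x) (fun F => Lim F x) atTop
      (T0 X) := by
    rw [Metric.tendstoUniformlyOn_iff]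
    intro ε hε
    filter_upwards [(tendsto_order.mp tendsto_two_pow).2 ε hε] with n hn F hF
    rw [dist_comm]
    exact (dist_Lim hF x n).trans_lt hn
  apply h.continuousOn
  apply Eventually.frequently
  filter_upwards with n
  apply Continuous.continuousOn
  fun_prop

theorem continuous_Lim {X : Type} [TopologicalSpace X] {F : ℕ → (X → ℝ)} (hF : F ∈ T0 X)
    (hc : ∀ n, Continuous (F n)) : Continuous (Lim F) := by
  have h : TendstoUniformly F (Lim F) atTop := by
    rw [Metric.tendstoUniformly_iff]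
    intro ε hε
    filter_upwards [(tendsto_order.mp tendsto_two_pow).2 ε hε] with n hn x
    rw [dist_comm]
    exact (dist_Lim hF x n).trans_lt hn
  apply h.continuous
  apply Eventually.frequently
  filter_upwards with n
  exact hc n

theorem Lim_eq {X : Type} {F : ℕ → (X → ℝ)} {f : X → ℝ}
    (h : ∀ x, Tendsto (fun j => F j x) atTop (𝓝 (f x))) : Lim F = f :=
  funext fun x => (h x).limUnder_eq

/-- The closures of sets of size at most the continuum are Lindelof Sigma. -/
theorem small_closure (A : Set (XX W → ℝ)) (hA : ∀ f ∈ A, Continuous f) (hcard : Cardinal.mk A ≤ 𝔠) :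
    IsLS (closure A ∩ {f : XX W → ℝ | Continuous f}) := by
  classical
  let 𝔅 : Set (Set Can) := ⋃ f : A, Dep f.1
  have h𝔅 : Cardinal.mk 𝔅 ≤ 𝔠 := by
    refine (mk_iUnion_le _).trans ?_
    have h1 : (⨆ f : A, Cardinal.mk (Dep f.1)) ≤ 𝔠 := ciSup_le' fun f =>
      (le_aleph0_iff_set_countable.mpr (countable_dep f.1 (hA f.1 f.2))).trans
        aleph0_le_continuum
    refine (mul_le_mul' hcard h1).trans ?_
    rw [continuum_mul_self]
  have hCan : Cardinal.mk Can = 𝔠 := by
    simp [Can]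
  obtain ⟨e⟩ : Nonempty (𝔅 ↪ Can) := by
    rw [← Cardinal.le_def, hCan]
    exact h𝔅
  let r : Set Can → Can := fun B => if h : B ∈ 𝔅 then e ⟨B, h⟩ else fun _ => false
  have hr : InjOn r 𝔅 := by
    intro B hB B' hB' h
    simp only [r, dif_pos hB, dif_pos hB'] at h
    exact congrArg Subtype.val (e.injective h)
  -- closed condition
  have hcl : ∀ f ∈ closure A, ∀ K, f K = f (res 𝔅 K) := by
    intro f hf
    have hclosed : IsClosed {f : XX W → ℝ | ∀ K, f K = f (res 𝔅 K)} := by
      rw [ofPred_forall]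
      refine isClosed_iInter fun K => isClosed_eq ?_ ?_
      · fun_prop
      · fun_prop
    have hsub : A ⊆ {f : XX W → ℝ | ∀ K, f K = f (res 𝔅 K)} := by
      intro f hf K
      apply eq_res_of_dep
      exact subset_iUnion (fun f : A => Dep f.1) ⟨f, hf⟩
    exact hclosed.closure_subset_iff.mpr hsub hf
  have hS : IsLS (Lim '' ({F : ℕ → (XX W → ℝ) | ∀ n, F n ∈ QQ W 𝔅 r} ∩ T0 (XX W))) :=
    (((isLS_QQ hr).pi).inter_closed (isClosed_T0 _)).image Lim
      ((continuousOn_Lim _).mono inter_subset_right)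
  have hEq : closure A ∩ {f : XX W → ℝ | Continuous f} =
      (Lim '' ({F : ℕ → (XX W → ℝ) | ∀ n, F n ∈ QQ W 𝔅 r} ∩ T0 (XX W))) ∩ closure A := by
    apply Subset.antisymm
    · rintro f ⟨hf, hfc⟩
      refine ⟨?_, hf⟩
      have happ : ∀ j : ℕ, ∃ g ∈ QQ W 𝔅 r, ∀ K, |g K - f K| < (1 / 2 : ℝ) ^ j / 2 :=
        fun j => approx f hfc (hcl f hf) _ (by positivity)
      choose F hF1 hF2 using happ
      refine ⟨F, ⟨hF1, ?_⟩, ?_⟩
      · intro j x
        have h1 := hF2 j x
        have h2 := hF2 (j + 1) x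
        rw [abs_lt] at h1 h2
        rw [abs_le]
        have h3 : (1 / 2 : ℝ) ^ (j + 1) = (1 / 2 : ℝ) ^ j / 2 := by ring
        have h4 : 0 < (1 / 2 : ℝ) ^ j := by positivity
        rw [h3] at h2
        constructor <;> linarith [h1.1, h1.2, h2.1, h2.2]
      · apply Lim_eq
        intro x
        rw [tendsto_iff_dist_tendsto_zero]
        refine squeeze_zero (fun _ => dist_nonneg) (fun j => ?_) tendsto_two_pow
        rw [Real.dist_eq]
        have h1 := hF2 j x
        have h4 : 0 < (1 / 2 : ℝ) ^ j := by positivity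
        linarith
    · rintro f ⟨⟨F, ⟨hF1, hF2⟩, rfl⟩, hf⟩
      exact ⟨hf, continuous_Lim hF2 (fun n => continuous_of_mem_QQ (hF1 n))⟩
  rw [hEq]
  exact hS.inter_closed isClosed_closure

end Pool.Agent.H61
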