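import Mathlib

set_option autoImplicit false

namespace Pool.Agent.H61.TreeLimit

open Set Topology Filter

/-- A finite rooted tree: a tree on a finite vertex type with a distinguished vertex. -/
structure RTree where
  V : Type
  finite : Finite V
  G : SimpleGraph V
  isTree : G.IsTree
  root : V

instance (T : RTree) : Finite T.V := T.finite

instance (T : RTree) : TopologicalSpace T.V := ⊥

instance (T : RTree) : DiscreteTopology T.V := ⟨rfl⟩

/-- The reflexive symmetric edge relation of a tree. -/
def RTree.Edge (T : RTree) (x y : T.V) : Prop := x = y ∨ T.G.Adj x y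

/-- The edge `a b` is split by a new vertex `none`. -/
def splitGraph {V : Type} (G : SimpleGraph V) (a b : V) : SimpleGraph (Option V) where
  Adj
    | some x, some y => G.Adj x y ∧ s(x, y) ≠ s(a, b)
    | none, some x => x = a ∨ x = b
    | some x, none => x = a ∨ x = b
    | none, none => False
  symm := ⟨by
    rintro (_ | x) (_ | y) h
    · exact h
    · exact h
    · exact h
    · exact ⟨h.1.symm, by rw [Sym2.eq_swap]; exact h.2⟩⟩
  loopless := ⟨by
    rintro (_ | x) h
    · exact h
    · exact h.1.ne rfl⟩

/-- A disjoint copy of `C` is attached to `v` in the same way as `C`. -/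
def copyGraph {V : Type} (G : SimpleGraph V) (v : V) (C : Set V) : SimpleGraph (V ⊕ C) where
  Adj
    | Sum.inl x, Sum.inl y => G.Adj x y
    | Sum.inr x, Sum.inr y => G.Adj x y
    | Sum.inl x, Sum.inr y => x = v ∧ G.Adj v y
    | Sum.inr x, Sum.inl y => y = v ∧ G.Adj v x
  symm := ⟨by
    rintro (x | x) (y | y) h
    · exact h.symm
    · exact h
    · exact h
    · exact h.symm⟩
  loopless := ⟨by
    rintro (x | x) h
    · exact h.ne rfl
    · exact h.ne rfl⟩

/-- A new vertex `none` is attached to `v`. -/
def attachGraph {V : Type} (G : SimpleGraph V) (v : V) : SimpleGraph (Option V) where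
  Adj
    | some x, some y => G.Adj x y
    | none, some x => x = v
    | some x, none => x = v
    | none, none => False
  symm := ⟨by
    rintro (_ | x) (_ | y) h
    · exact h
    · exact h
    · exact h
    · exact h.symm⟩
  loopless := ⟨by
    rintro (_ | x) h
    · exact h
    · exact h.ne rfl⟩

/-- `C` is (the vertex set of) a component of `G` minus the vertex `v`. -/
def IsComponent {V : Type} (G : SimpleGraph V) (v : V) (C : Set V) : Prop :=
  ∃ c : (G.induce {x | x ≠ v}).ConnectedComponent, C = Subtype.val '' c.supp

/-- The three kinds of steps: `S` is (up to an isomorphism `e` of rooted graphs) obtained from `T`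
by splitting an edge `a b` by a new vertex sent to `a`, by attaching to `v` a disjoint copy of a
component `C` of `T` minus `v` which does not contain the root, the copy being mapped onto `C`, or
by attaching a new vertex to `v` and sending it to `v`; all the other vertices are fixed. -/
inductive Step (S T : RTree) (f : S.V → T.V) : Prop
  | split (a b : T.V) (hab : T.G.Adj a b) (e : S.G ≃g splitGraph T.G a b)
      (hroot : e S.root = some T.root) (hf : ∀ x, f x = (e x).getD a) : Step S T f
  | copy (v : T.V) (C : Set T.V) (hC : IsComponent T.G v C) (hr : T.root ∉ C)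
      (e : S.G ≃g copyGraph T.G v C) (hroot : e S.root = Sum.inl T.root)
      (hf : ∀ x, f x = Sum.elim id Subtype.val (e x)) : Step S T f
  | attach (v : T.V) (e : S.G ≃g attachGraph T.G v)
      (hroot : e S.root = some T.root) (hf : ∀ x, f x = (e x).getD v) : Step S T f

/-- The simple*-confluent epimorphisms `f` from `S` to `T`: composites of finitely many step maps
and an isomorphism of rooted trees. -/
inductive SSC : (S T : RTree) → (S.V → T.V) → Prop
  | iso {S T : RTree} (e : S.G ≃g T.G) (h : e S.root = T.root) : SSC S T e
  | step {U S T : RTree} {f : S.V → T.V} {g : U.V → S.V} (hf : SSC S T f)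
      (hg : Step U S g) : SSC U T (f ∘ g)

/-- The composite of the bonding maps from `F (m + k)` to `F m`. -/
def bond {F : ℕ → RTree} (α : ∀ n, (F (n + 1)).V → (F n).V) (m : ℕ) :
    ∀ k, (F (m + k)).V → (F m).V
  | 0 => id
  | k + 1 => bond α m k ∘ α (m + k)

/-- The sequences of trees which define the projective Fraisse limit: the bonding maps are in the
family, every tree of the family is the image of some `F n` under a family epimorphism, and for
every family epimorphism `φ` from `A` to `F m` there are `n = m + k` and a family epimorphism `ψ`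
from `F n` to `A` such that `φ ∘ ψ` is the composite of the bonding maps. -/
structure IsFraisseSequence (F : ℕ → RTree) (α : ∀ n, (F (n + 1)).V → (F n).V) : Prop where
  bonding : ∀ n, SSC (F (n + 1)) (F n) (α n)
  cofinal : ∀ A : RTree, ∃ (n : ℕ) (f : (F n).V → A.V), SSC (F n) A f
  extension : ∀ (m : ℕ) (A : RTree) (φ : A.V → (F m).V), SSC A (F m) φ →
    ∃ (k : ℕ) (ψ : (F (m + k)).V → A.V), SSC (F (m + k)) A ψ ∧ φ ∘ ψ = bond α m k

/-- The vertex space of the inverse limit. -/
def Limit (F : ℕ → RTree) (α : ∀ n, (F (n + 1)).V → (F n).V) : Type :=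
  {x : ∀ n, (F n).V // ∀ n, α n (x (n + 1)) = x n}

instance (F : ℕ → RTree) (α : ∀ n, (F (n + 1)).V → (F n).V) : TopologicalSpace (Limit F α) :=
  inferInstanceAs (TopologicalSpace {x : ∀ n, (F n).V // ∀ n, α n (x (n + 1)) = x n})

/-- The edge relation of the inverse limit. -/
def LimitEdge {F : ℕ → RTree} {α : ∀ n, (F (n + 1)).V → (F n).V} (x y : Limit F α) : Prop :=
  ∀ n, (F n).Edge (x.1 n) (y.1 n)

/-- The topological realization: the quotient of the vertex space by the edge relation. -/
def Realization (F : ℕ → RTree) (α : ∀ n, (F (n + 1)).V → (F n).V) : Type :=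
  Quot (LimitEdge (F := F) (α := α))

instance (F : ℕ → RTree) (α : ∀ n, (F (n + 1)).V → (F n).V) :
    TopologicalSpace (Realization F α) :=
  inferInstanceAs (TopologicalSpace (Quot (LimitEdge (F := F) (α := α))))

/-- The quotient map onto the topological realization. -/
def proj {F : ℕ → RTree} {α : ∀ n, (F (n + 1)).V → (F n).V} (x : Limit F α) :
    Realization F α := Quot.mk _ x

/-- `X` is connected im kleinen at `x`: every neighbourhood of `x` contains a connected
neighbourhood of `x`. -/
def CIK {X : Type} [TopologicalSpace X] (x : X) : Prop :=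
  ∀ U ∈ 𝓝 x, ∃ K ∈ 𝓝 x, K ⊆ U ∧ IsPreconnected K

end Pool.Agent.H61.TreeLimit
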