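import Pool.Agent.H61.TreeDefs

set_option autoImplicit false

namespace Pool.Agent.H61.TreeLimit

open Set Topology Filter

/-! ### Elementary properties of the maps -/

/-- `Q` contains the root and is connected: each point of `Q` is joined to the root in `Q`. -/
def RC (T : RTree) (Q : Set T.V) : Prop :=
  ∀ x ∈ Q, Relation.ReflTransGen (fun y z => T.G.Adj y z ∧ z ∈ Q) T.root x

structure Good (S T : RTree) (f : S.V → T.V) : Prop where
  root : f S.root = T.root
  edge : ∀ x y, S.Edge x y → T.Edge (f x) (f y)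
  surj : Function.Surjective f
  rc : ∀ Q : Set T.V, T.root ∈ Q → RC T Q → RC S (f ⁻¹' Q)

theorem Good.comp {U S T : RTree} {f : S.V → T.V} {g : U.V → S.V} (hf : Good S T f)
    (hg : Good U S g) : Good U T (f ∘ g) where
  root := by rw [Function.comp_apply, hg.root, hf.root]
  edge x y h := hf.edge _ _ (hg.edge _ _ h)
  surj := hf.surj.comp hg.surj
  rc Q hr hQ := by
    rw [Set.preimage_comp]
    apply hg.rc _ _ (hf.rc Q hr hQ)
    change f S.root ∈ Q
    rw [hf.root]; exact hr

theorem good_iso {S T : RTree} (e : S.G ≃g T.G) (h : e S.root = T.root) : Good S T e where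
  root := h
  edge x y hxy := by
    rcases hxy with rfl | hxy
    · exact Or.inl rfl
    · exact Or.inr (e.map_adj_iff.mpr hxy)
  surj := e.surjective
  rc Q hr hQ := by
    intro x hx
    have key : ∀ z, Relation.ReflTransGen (fun y z => T.G.Adj y z ∧ z ∈ Q) T.root z →
        Relation.ReflTransGen (fun y z => S.G.Adj y z ∧ z ∈ e ⁻¹' Q) S.root (e.symm z) := by
      intro z hz
      induction hz with
      | refl => rw [← h, e.symm_apply_apply]
      | tail _ hbc ih =>
        refine ih.tail ⟨?_, ?_⟩
        · rw [← e.map_adj_iff, e.apply_symm_apply, e.apply_symm_apply]; exact hbc.1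
        · change e (e.symm _) ∈ Q
          rw [e.apply_symm_apply]; exact hbc.2
    have := key (e x) (hQ _ hx)
    rwa [e.symm_apply_apply] at this

theorem mem_of_path {T : RTree} {Q : Set T.V} (hr : T.root ∈ Q) {z : T.V}
    (h : Relation.ReflTransGen (fun y z => T.G.Adj y z ∧ z ∈ Q) T.root z) : z ∈ Q := by
  induction h with
  | refl => exact hr
  | tail _ hbc _ => exact hbc.2

theorem good_split (T : RTree) (a b : T.V) (hab : T.G.Adj a b)
    (ht : (splitGraph T.G a b).IsTree) :
    Good ⟨Option T.V, inferInstance, splitGraph T.G a b, ht, some T.root⟩ T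
      (fun x : Option T.V => x.getD a) where
  root := rfl
  edge := by
    rintro (_ | x) (_ | y) (h | h)
    · exact Or.inl rfl
    · exact Or.inl rfl
    · exact absurd h (by simp)
    · rcases h with h | h
      · exact Or.inl h.symm
      · exact Or.inr (by rw [h]; exact hab)
    · exact absurd h (by simp)
    · rcases h with h | h
      · exact Or.inl h
      · exact Or.inr (by rw [h]; exact hab.symm)
    · exact Or.inl (by simpa using h)
    · exact Or.inr h.1
  surj := fun x => ⟨some x, rfl⟩
  rc Q hr hQ := by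
    let R := fun y z : Option T.V => (splitGraph T.G a b).Adj y z ∧ z.getD a ∈ Q
    have key : ∀ z, Relation.ReflTransGen (fun y z => T.G.Adj y z ∧ z ∈ Q) T.root z →
        Relation.ReflTransGen R (some T.root) (some z) := by
      intro z hz
      induction hz with
      | refl => exact Relation.ReflTransGen.refl
      | @tail y z hy hyz ih =>
        have hyQ := mem_of_path hr hy
        by_cases hs : s(y, z) = s(a, b)
        · rw [Sym2.eq_iff] at hs
          rcases hs with ⟨rfl, rfl⟩ | ⟨rfl, rfl⟩
          · have h1 : R (some y) none := ⟨Or.inl rfl, hyQ⟩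
            have h2 : R none (some z) := ⟨Or.inr rfl, hyz.2⟩
            exact (ih.tail h1).tail h2
          · have h1 : R (some y) none := ⟨Or.inr rfl, hyz.2⟩
            have h2 : R none (some z) := ⟨Or.inl rfl, hyz.2⟩
            exact (ih.tail h1).tail h2
        · exact ih.tail ⟨⟨hyz.1, hs⟩, hyz.2⟩
    rintro (_ | x) hx
    · exact (key a (hQ a hx)).tail ⟨Or.inl rfl, hx⟩
    · exact key x (hQ x hx)

theorem good_attach (T : RTree) (v : T.V) (ht : (attachGraph T.G v).IsTree) :
    Good ⟨Option T.V, inferInstance, attachGraph T.G v, ht, some T.root⟩ T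
      (fun x : Option T.V => x.getD v) where
  root := rfl
  edge := by
    rintro (_ | x) (_ | y) (h | h)
    · exact Or.inl rfl
    · exact Or.inl rfl
    · exact absurd h (by simp)
    · exact Or.inl (Eq.symm h)
    · exact absurd h (by simp)
    · exact Or.inl h
    · exact Or.inl (by simpa using h)
    · exact Or.inr h
  surj := fun x => ⟨some x, rfl⟩
  rc Q hr hQ := by
    let R := fun y z : Option T.V => (attachGraph T.G v).Adj y z ∧ z.getD v ∈ Q
    have key : ∀ z, Relation.ReflTransGen (fun y z => T.G.Adj y z ∧ z ∈ Q) T.root z →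
        Relation.ReflTransGen R (some T.root) (some z) := by
      intro z hz
      induction hz with
      | refl => exact Relation.ReflTransGen.refl
      | @tail y z hy hyz ih => exact ih.tail ⟨hyz.1, hyz.2⟩
    rintro (_ | x) hx
    · exact (key v (hQ v hx)).tail ⟨rfl, hx⟩
    · exact key x (hQ x hx)

theorem IsComponent.notMem {V : Type} {G : SimpleGraph V} {v : V} {C : Set V}
    (h : IsComponent G v C) : v ∉ C := by
  obtain ⟨c, rfl⟩ := h
  rintro ⟨x, _, hx⟩
  exact x.2 hx

theorem IsComponent.mem_of_adj {V : Type} {G : SimpleGraph V} {v : V} {C : Set V}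
    (h : IsComponent G v C) {x y : V} (hx : x ∈ C) (hxy : G.Adj x y) (hy : y ≠ v) : y ∈ C := by
  obtain ⟨c, rfl⟩ := h
  obtain ⟨x, hxc, rfl⟩ := hx
  refine ⟨⟨y, hy⟩, ?_, rfl⟩
  exact c.mem_supp_of_adj_mem_supp hxc (by simpa using hxy)

theorem good_copy (T : RTree) (v : T.V) (C : Set T.V) (hC : IsComponent T.G v C)
    (hrC : T.root ∉ C) (ht : (copyGraph T.G v C).IsTree) :
    Good ⟨T.V ⊕ C, inferInstance, copyGraph T.G v C, ht, Sum.inl T.root⟩ T
      (fun x : T.V ⊕ C => Sum.elim id Subtype.val x) where
  root := rfl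
  edge := by
    rintro (x | x) (y | y) (h | h)
    · exact Or.inl (by simpa using h)
    · exact Or.inr h
    · exact absurd h (by simp)
    · exact Or.inr (by
        have h1 : x = v := h.1
        change T.G.Adj x y
        rw [h1]; exact h.2)
    · exact absurd h (by simp)
    · exact Or.inr (by
        have h1 : y = v := h.1
        change T.G.Adj x y
        rw [h1]; exact h.2.symm)
    · exact Or.inl (by
        have h1 : x = y := by simpa using h
        change x.1 = y.1
        rw [h1])
    · exact Or.inr h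
  surj := fun x => ⟨Sum.inl x, rfl⟩
  rc Q hr hQ := by
    let R := fun y z : T.V ⊕ C => (copyGraph T.G v C).Adj y z ∧ Sum.elim id Subtype.val z ∈ Q
    have key : ∀ z, Relation.ReflTransGen (fun y z => T.G.Adj y z ∧ z ∈ Q) T.root z →
        Relation.ReflTransGen R (Sum.inl T.root) (Sum.inl z) ∧
        ∀ hz : z ∈ C, Relation.ReflTransGen R (Sum.inl T.root) (Sum.inr ⟨z, hz⟩) := by
      intro z hz
      induction hz with
      | refl => exact ⟨Relation.ReflTransGen.refl, fun h => absurd h hrC⟩
      | @tail y z hy hyz ih =>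
        refine ⟨ih.1.tail ⟨hyz.1, hyz.2⟩, fun hzC => ?_⟩
        by_cases hyv : y = v
        · subst hyv
          exact ih.1.tail ⟨⟨rfl, hyz.1⟩, hyz.2⟩
        · have hyC : y ∈ C := hC.mem_of_adj hzC hyz.1.symm hyv
          exact (ih.2 hyC).tail ⟨hyz.1, hyz.2⟩
    rintro (x | x) hx
    · exact (key x (hQ x hx)).1
    · exact (key x (hQ x hx)).2 x.2

theorem Step.good {S T : RTree} {f : S.V → T.V} (h : Step S T f) : Good S T f := by
  cases h with
  | split a b hab e hroot hf =>
    have ht : (splitGraph T.G a b).IsTree := e.isTree_iff.mp S.isTree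
    have h1 := (good_split T a b hab ht).comp (good_iso (S := S)
      (T := ⟨Option T.V, inferInstance, splitGraph T.G a b, ht, some T.root⟩) e hroot)
    convert h1 using 1
    exact funext hf
  | copy v C hC hr e hroot hf =>
    have ht : (copyGraph T.G v C).IsTree := e.isTree_iff.mp S.isTree
    have h1 := (good_copy T v C hC hr ht).comp (good_iso (S := S)
      (T := ⟨T.V ⊕ C, inferInstance, copyGraph T.G v C, ht, Sum.inl T.root⟩) e hroot)
    convert h1 using 1
    exact funext hf
  | attach v e hroot hf =>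
    have ht : (attachGraph T.G v).IsTree := e.isTree_iff.mp S.isTree
    have h1 := (good_attach T v ht).comp (good_iso (S := S)
      (T := ⟨Option T.V, inferInstance, attachGraph T.G v, ht, some T.root⟩) e hroot)
    convert h1 using 1
    exact funext hf

theorem SSC.good {S T : RTree} {f : S.V → T.V} (h : SSC S T f) : Good S T f := by
  induction h with
  | iso e h => exact good_iso e h
  | step _ hg ih => exact ih.comp hg.good

/-! ### The new graphs are trees -/

/-- `D` is one side of the edge `x y`. -/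
def IsCut {V : Type} (G : SimpleGraph V) (x y : V) (D : Set V) : Prop :=
  x ∈ D ∧ y ∉ D ∧ ∀ z w, G.Adj z w → z ∈ D → w ∉ D → z = x ∧ w = y

theorem exists_cut {V : Type} {G : SimpleGraph V} (hG : G.IsAcyclic) {x y : V}
    (h : G.Adj x y) : ∃ D, IsCut G x y D := by
  have hb := SimpleGraph.isAcyclic_iff_forall_adj_isBridge.mp hG h
  rw [SimpleGraph.isBridge_iff] at hb
  refine ⟨{z | (G.deleteEdges {s(x, y)}).Reachable x z}, SimpleGraph.Reachable.refl _, hb, ?_⟩
  intro z w hzw hz hw
  by_cases hs : s(z, w) = s(x, y)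
  · rw [Sym2.eq_iff] at hs
    rcases hs with hs | ⟨rfl, rfl⟩
    · exact hs
    · exact absurd hz hb
  · exfalso
    apply hw
    apply SimpleGraph.Reachable.trans hz
    apply SimpleGraph.Adj.reachable
    rw [SimpleGraph.deleteEdges_adj]
    exact ⟨hzw, hs⟩

theorem isAcyclic_of_cuts {V : Type} {G : SimpleGraph V}
    (h : ∀ x y, G.Adj x y → ∃ D, IsCut G x y D) : G.IsAcyclic := by
  rw [SimpleGraph.isAcyclic_iff_forall_adj_isBridge]
  intro x y hxy
  rw [SimpleGraph.isBridge_iff, SimpleGraph.reachable_iff_reflTransGen]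
  intro hr
  obtain ⟨D, hx, hy, hD⟩ := h x y hxy
  have key : ∀ z, Relation.ReflTransGen (G.deleteEdges {s(x, y)}).Adj x z → z ∈ D := by
    intro z hz
    induction hz with
    | refl => exact hx
    | @tail z w _ hzw ih =>
      rw [SimpleGraph.deleteEdges_adj] at hzw
      by_contra hw
      obtain ⟨rfl, rfl⟩ := hD z w hzw.1 ih hw
      exact hzw.2 rfl
  exact hy (key y hr)

theorem isTree_split {V : Type} {G : SimpleGraph V} (hG : G.IsTree) {a b : V}
    (hab : G.Adj a b) : (splitGraph G a b).IsTree := by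
  refine ⟨?_, isAcyclic_of_cuts ?_⟩
  · have key : ∀ z, Relation.ReflTransGen G.Adj a z →
        (splitGraph G a b).Reachable (some a) (some z) := by
      intro z hz
      induction hz with
      | refl => exact SimpleGraph.Reachable.refl _
      | @tail y z hy hyz ih =>
        by_cases hs : s(y, z) = s(a, b)
        · rw [Sym2.eq_iff] at hs
          have h1 : (splitGraph G a b).Adj (some a) none := Or.inl rfl
          have h2 : (splitGraph G a b).Adj none (some b) := Or.inr rfl
          rcases hs with ⟨rfl, rfl⟩ | ⟨rfl, rfl⟩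
          · exact h1.reachable.trans h2.reachable
          · exact SimpleGraph.Reachable.refl _
        · have h1 : (splitGraph G a b).Adj (some y) (some z) := ⟨hyz, hs⟩
          exact ih.trans h1.reachable
    have key2 : ∀ x, (splitGraph G a b).Reachable (some a) x := by
      rintro (_ | x)
      · have h1 : (splitGraph G a b).Adj (some a) none := Or.inl rfl
        exact h1.reachable
      · apply key
        rw [← SimpleGraph.reachable_iff_reflTransGen]
        exact hG.1.preconnected a x
    rw [SimpleGraph.connected_iff_exists_forall_reachable]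
    exact ⟨some a, key2⟩
  · rintro (_ | x) (_ | y) h
    · exact absurd h (fun h => h)
    · rcases h with rfl | rfl
      · obtain ⟨D, h1, h2, h3⟩ := exists_cut hG.2 hab.symm
        refine ⟨{z | ∀ z', z = some z' → z' ∈ D}, ?_, ?_, ?_⟩
        · rintro z' h; exact absurd h (by simp)
        · intro h; exact h2 (h _ rfl)
        · rintro (_ | z) (_ | w) hzw hz hw
          · exact absurd hzw (fun h => h)
          · refine ⟨rfl, ?_⟩
            rcases hzw with h | h
            · rw [h]
            · exfalso; apply hw; rintro w' h'; rw [Option.some.injEq] at h'; rw [← h', h]; exact h1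
          · exfalso; apply hw; rintro w' h'; exact absurd h' (by simp)
          · exfalso
            obtain ⟨h4, h5⟩ := h3 z w hzw.1 (hz z rfl) (fun h => hw (by
              rintro w' h'; rw [Option.some.injEq] at h'; rw [← h']; exact h))
            apply hzw.2
            rw [h4, h5, Sym2.eq_swap]
      · obtain ⟨D, h1, h2, h3⟩ := exists_cut hG.2 hab
        refine ⟨{z | ∀ z', z = some z' → z' ∈ D}, ?_, ?_, ?_⟩
        · rintro z' h; exact absurd h (by simp)
        · intro h; exact h2 (h _ rfl)
        · rintro (_ | z) (_ | w) hzw hz hw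
          · exact absurd hzw (fun h => h)
          · refine ⟨rfl, ?_⟩
            rcases hzw with h | h
            · exfalso; apply hw; rintro w' h'; rw [Option.some.injEq] at h'; rw [← h', h]; exact h1
            · rw [h]
          · exfalso; apply hw; rintro w' h'; exact absurd h' (by simp)
          · exfalso
            obtain ⟨h4, h5⟩ := h3 z w hzw.1 (hz z rfl) (fun h => hw (by
              rintro w' h'; rw [Option.some.injEq] at h'; rw [← h']; exact h))
            apply hzw.2
            rw [h4, h5]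
    · rcases h with rfl | rfl
      · obtain ⟨D, h1, h2, h3⟩ := exists_cut hG.2 hab
        refine ⟨{z | ∃ z', z = some z' ∧ z' ∈ D}, ⟨_, rfl, h1⟩, ?_, ?_⟩
        · rintro ⟨z', h, _⟩; exact absurd h (by simp)
        · rintro (_ | z) (_ | w) hzw hz hw
          · exact absurd hzw (fun h => h)
          · obtain ⟨z', h, _⟩ := hz; exact absurd h (by simp)
          · obtain ⟨z', h, hz'⟩ := hz
            rw [Option.some.injEq] at h
            subst h
            refine ⟨?_, rfl⟩
            rcases hzw with h | h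
            · rw [h]
            · exact absurd (h ▸ hz') h2
          · exfalso
            obtain ⟨z', h, hz'⟩ := hz
            rw [Option.some.injEq] at h
            subst h
            obtain ⟨h4, h5⟩ := h3 z w hzw.1 hz' (fun h => hw ⟨w, rfl, h⟩)
            apply hzw.2
            rw [h4, h5]
      · obtain ⟨D, h1, h2, h3⟩ := exists_cut hG.2 hab.symm
        refine ⟨{z | ∃ z', z = some z' ∧ z' ∈ D}, ⟨_, rfl, h1⟩, ?_, ?_⟩
        · rintro ⟨z', h, _⟩; exact absurd h (by simp)
        · rintro (_ | z) (_ | w) hzw hz hw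
          · exact absurd hzw (fun h => h)
          · obtain ⟨z', h, _⟩ := hz; exact absurd h (by simp)
          · obtain ⟨z', h, hz'⟩ := hz
            rw [Option.some.injEq] at h
            subst h
            refine ⟨?_, rfl⟩
            rcases hzw with h | h
            · exact absurd (h ▸ hz') h2
            · rw [h]
          · exfalso
            obtain ⟨z', h, hz'⟩ := hz
            rw [Option.some.injEq] at h
            subst h
            obtain ⟨h4, h5⟩ := h3 z w hzw.1 hz' (fun h => hw ⟨w, rfl, h⟩)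
            apply hzw.2
            rw [h4, h5, Sym2.eq_swap]
    · obtain ⟨hxy, hs⟩ := h
      obtain ⟨D, h1, h2, h3⟩ := exists_cut hG.2 hxy
      have hD : a ∈ D ↔ b ∈ D := by
        constructor
        · intro ha
          by_contra hb
          obtain ⟨h4, h5⟩ := h3 a b hab ha hb
          apply hs; rw [h4, h5]
        · intro hb
          by_contra ha
          obtain ⟨h4, h5⟩ := h3 b a hab.symm hb ha
          apply hs; rw [h4, h5, Sym2.eq_swap]
      refine ⟨{z | z.getD a ∈ D}, h1, h2, ?_⟩
      rintro (_ | z) (_ | w) hzw hz hw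
      · exact absurd hzw (fun h => h)
      · exfalso
        rcases hzw with h | h
        · apply hw; rw [h]; exact hz
        · apply hw; rw [h]; exact hD.mp hz
      · exfalso
        rcases hzw with h | h
        · apply hw; rw [h] at hz; exact hz
        · apply hw; rw [h] at hz; exact hD.mpr hz
      · obtain ⟨h4, h5⟩ := h3 z w hzw.1 hz hw
        exact ⟨by rw [h4], by rw [h5]⟩

theorem IsComponent.induct {V : Type} {G : SimpleGraph V} {v : V} {C : Set V}
    (h : IsComponent G v C) {P : V → Prop}
    (hP : ∀ z z', z ∈ C → z' ∈ C → G.Adj z z' → P z → P z') {w : V} (hw : w ∈ C) (hPw : P w)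
    {y : V} (hy : y ∈ C) : P y := by
  obtain ⟨c, hc⟩ := h
  subst hc
  obtain ⟨w, hwc, rfl⟩ := hw
  obtain ⟨y, hyc, rfl⟩ := hy
  have hr : (G.induce {x | x ≠ v}).Reachable w y := by
    rw [SimpleGraph.ConnectedComponent.mem_supp_iff] at hwc hyc
    rw [← hyc] at hwc
    exact SimpleGraph.ConnectedComponent.exact hwc
  rw [SimpleGraph.reachable_iff_reflTransGen] at hr
  have key : ∀ z, Relation.ReflTransGen (G.induce {x | x ≠ v}).Adj w z → z ∈ c.supp ∧ P z.1 := by
    intro z hz
    induction hz with
    | refl => exact ⟨hwc, hPw⟩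
    | @tail y z _ hyz ih =>
      have h1 : z ∈ c.supp := c.mem_supp_of_adj_mem_supp ih.1 hyz
      exact ⟨h1, hP _ _ ⟨y, ih.1, rfl⟩ ⟨z, h1, rfl⟩ (by simpa using hyz) ih.2⟩
  exact (key y hr).2

theorem IsComponent.unique_nbr {V : Type} {G : SimpleGraph V} (hG : G.IsTree) {v : V} {C : Set V}
    (h : IsComponent G v C) {y w : V} (hy : y ∈ C) (hw : w ∈ C) (hvy : G.Adj v y)
    (hvw : G.Adj v w) : y = w := by
  by_contra hne
  obtain ⟨D, h1, h2, h3⟩ := exists_cut hG.2 hvy
  have hwD : w ∈ D := by
    by_contra hwD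
    exact hne (h3 v w hvw h1 hwD).2.symm
  apply h2
  apply h.induct (P := fun z => z ∈ D) _ hw hwD hy
  intro z z' hz hz' hzz' hzD
  by_contra hcon
  obtain ⟨h4, _⟩ := h3 z z' hzz' hzD hcon
  exact h.notMem (h4 ▸ hz)

theorem isTree_copy {V : Type} {G : SimpleGraph V} (hG : G.IsTree) {v : V} {C : Set V}
    (hC : IsComponent G v C) : (copyGraph G v C).IsTree := by
  refine ⟨?_, isAcyclic_of_cuts ?_⟩
  · have key : ∀ z, Relation.ReflTransGen G.Adj v z →
        (copyGraph G v C).Reachable (Sum.inl v) (Sum.inl z) ∧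
        ∀ hz : z ∈ C, (copyGraph G v C).Reachable (Sum.inl v) (Sum.inr ⟨z, hz⟩) := by
      intro z hz
      induction hz with
      | refl => exact ⟨SimpleGraph.Reachable.refl _, fun h => absurd h hC.notMem⟩
      | @tail y z hy hyz ih =>
        have h1 : (copyGraph G v C).Adj (Sum.inl y) (Sum.inl z) := hyz
        refine ⟨ih.1.trans h1.reachable, fun hzC => ?_⟩
        by_cases hyv : y = v
        · subst hyv
          have h2 : (copyGraph G y C).Adj (Sum.inl y) (Sum.inr ⟨z, hzC⟩) := ⟨rfl, hyz⟩
          exact h2.reachable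
        · have hyC : y ∈ C := hC.mem_of_adj hzC hyz.symm hyv
          have h2 : (copyGraph G v C).Adj (Sum.inr ⟨y, hyC⟩) (Sum.inr ⟨z, hzC⟩) := hyz
          exact (ih.2 hyC).trans h2.reachable
    rw [SimpleGraph.connected_iff_exists_forall_reachable]
    refine ⟨Sum.inl v, ?_⟩
    have hr : ∀ z, Relation.ReflTransGen G.Adj v z := by
      intro z
      rw [← SimpleGraph.reachable_iff_reflTransGen]
      exact hG.1.preconnected v z
    rintro (x | x)
    · exact (key x (hr x)).1
    · exact (key x (hr x)).2 x.2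
  · rintro (x | x) (y | y) h
    · obtain ⟨D, h1, h2, h3⟩ := exists_cut hG.2 h
      refine ⟨{z | Sum.elim id (fun _ => v) z ∈ D}, h1, h2, ?_⟩
      rintro (z | z) (w | w) hzw hz hw
      · obtain ⟨h4, h5⟩ := h3 z w hzw hz hw
        exact ⟨by rw [h4], by rw [h5]⟩
      · exact absurd (hzw.1 ▸ hz) hw
      · exact absurd hz (hzw.1 ▸ hw)
      · exact absurd hz hw
    · obtain ⟨rfl, hvy⟩ := h
      refine ⟨{z | ∃ z', z = Sum.inl z'}, ⟨_, rfl⟩, ?_, ?_⟩
      · rintro ⟨z', h⟩; exact absurd h (by simp)
      · rintro (z | z) (w | w) hzw hz hw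
        · exact absurd ⟨w, rfl⟩ hw
        · obtain ⟨rfl, h4⟩ := hzw
          refine ⟨rfl, ?_⟩
          rw [Sum.inr.injEq]
          exact Subtype.ext (hC.unique_nbr hG w.2 y.2 h4 hvy)
        · exact absurd ⟨w, rfl⟩ hw
        · obtain ⟨z', h⟩ := hz; exact absurd h (by simp)
    · obtain ⟨rfl, hvx⟩ := h
      refine ⟨{z | ∃ z', z = Sum.inr z'}, ⟨_, rfl⟩, ?_, ?_⟩
      · rintro ⟨z', h⟩; exact absurd h (by simp)
      · rintro (z | z) (w | w) hzw hz hw
        · obtain ⟨z', h⟩ := hz; exact absurd h (by simp)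
        · exact absurd ⟨w, rfl⟩ hw
        · obtain ⟨rfl, h4⟩ := hzw
          refine ⟨?_, rfl⟩
          rw [Sum.inr.injEq]
          exact Subtype.ext (hC.unique_nbr hG z.2 x.2 h4 hvx)
        · exact absurd ⟨w, rfl⟩ hw
    · obtain ⟨D, h1, h2, h3⟩ := exists_cut hG.2 (show G.Adj x.1 y.1 from h)
      by_cases hv : v ∈ D
      · refine ⟨{z | Sum.elim (fun _ => v) Subtype.val z ∈ D}, h1, h2, ?_⟩
        rintro (z | z) (w | w) hzw hz hw
        · exact absurd hz hw
        · exfalso
          obtain ⟨h4, _⟩ := h3 v w hzw.2 hv hw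
          exact hC.notMem (h4 ▸ x.2)
        · exact absurd hv hw
        · obtain ⟨h4, h5⟩ := h3 z w hzw hz hw
          exact ⟨by rw [Sum.inr.injEq]; exact Subtype.ext h4,
            by rw [Sum.inr.injEq]; exact Subtype.ext h5⟩
      · refine ⟨{z | Sum.elim (fun _ => v) Subtype.val z ∈ D}, h1, h2, ?_⟩
        rintro (z | z) (w | w) hzw hz hw
        · exact absurd hz hw
        · exact absurd hz hv
        · exfalso
          obtain ⟨_, h5⟩ := h3 z v hzw.2.symm hz hw
          exact hC.notMem (h5 ▸ y.2)
        · obtain ⟨h4, h5⟩ := h3 z w hzw hz hw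
          exact ⟨by rw [Sum.inr.injEq]; exact Subtype.ext h4,
            by rw [Sum.inr.injEq]; exact Subtype.ext h5⟩

/-! ### The limit -/

section Limit

variable {F : ℕ → RTree} {α : ∀ n, (F (n + 1)).V → (F n).V}

theorem Good.id (T : RTree) : Good T T _root_.id where
  root := rfl
  edge _ _ h := h
  surj := Function.surjective_id
  rc _ _ h := h

theorem good_bond (hF : IsFraisseSequence F α) (m k : ℕ) :
    Good (F (m + k)) (F m) (bond α m k) := by
  induction k with
  | zero => exact Good.id _
  | succ k ih => exact ih.comp (hF.bonding (m + k)).good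

theorem bond_apply (x : Limit F α) (m k : ℕ) : bond α m k (x.1 (m + k)) = x.1 m := by
  induction k with
  | zero => rfl
  | succ k ih =>
    change bond α m k (α (m + k) (x.1 (m + k + 1))) = _
    rw [x.2, ih]

theorem eq_of_le {x y : Limit F α} {m n : ℕ} (hmn : m ≤ n) (h : x.1 n = y.1 n) :
    x.1 m = y.1 m := by
  obtain ⟨k, rfl⟩ := Nat.exists_eq_add_of_le hmn
  rw [← bond_apply x m k, ← bond_apply y m k, h]

theorem edge_of_le (hF : IsFraisseSequence F α) {x y : Limit F α} {m n : ℕ} (hmn : m ≤ n)
    (h : (F n).Edge (x.1 n) (y.1 n)) : (F m).Edge (x.1 m) (y.1 m) := by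
  obtain ⟨k, rfl⟩ := Nat.exists_eq_add_of_le hmn
  rw [← bond_apply x m k, ← bond_apply y m k]
  exact (good_bond hF m k).edge _ _ h

theorem exists_lift_aux (m : ℕ) : ∀ (V : ℕ → Type) (β : ∀ n, V (n + 1) → V n)
    (_ : ∀ n, Function.Surjective (β n)) (w : V m),
    ∃ y : ∀ n, V n, (∀ n, β n (y (n + 1)) = y n) ∧ y m = w := by
  induction m with
  | zero =>
    intro V β hβ w
    choose σ hσ using hβ
    exact ⟨fun n => Nat.rec (motive := V) w (fun n y => σ n y) n, fun n => hσ n _, rfl⟩
  | succ m ih =>
    intro V β hβ w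
    obtain ⟨y, hy1, hy2⟩ := ih (fun n => V (n + 1)) (fun n => β (n + 1)) (fun n => hβ (n + 1)) w
    refine ⟨fun n => Nat.casesOn (motive := V) n (β 0 (y 0)) (fun n => y n), ?_, hy2⟩
    intro n
    cases n with
    | zero => rfl
    | succ n => exact hy1 n

theorem exists_lift (hF : IsFraisseSequence F α) (m : ℕ) (w : (F m).V) :
    ∃ y : Limit F α, y.1 m = w := by
  obtain ⟨y, hy1, hy2⟩ := exists_lift_aux m (fun n => (F n).V) α
    (fun n => (hF.bonding n).good.surj) w
  exact ⟨⟨y, hy1⟩, hy2⟩

theorem continuous_proj (n : ℕ) : Continuous (fun x : Limit F α => x.1 n) :=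
  (continuous_apply n).comp continuous_subtype_val

instance : CompactSpace (Limit F α) := by
  have h : IsClosed {x : ∀ n, (F n).V | ∀ n, α n (x (n + 1)) = x n} := by
    have : {x : ∀ n, (F n).V | ∀ n, α n (x (n + 1)) = x n} =
        ⋂ n, {x : ∀ n, (F n).V | α n (x (n + 1)) = x n} := by
      ext x; simp only [mem_ofPred_eq, mem_iInter]
    rw [this]
    refine isClosed_iInter fun n => isClosed_eq ?_ (continuous_apply n)
    exact (continuous_of_discreteTopology (f := α n)).comp (continuous_apply (n + 1))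
  exact isCompact_iff_compactSpace.mp h.isCompact

theorem mem_nhds_limit {x : Limit F α} {U : Set (Limit F α)} (hU : U ∈ 𝓝 x) :
    ∃ n, ∀ y : Limit F α, y.1 n = x.1 n → y ∈ U := by
  have hind : IsInducing (fun x : Limit F α => x.1) := ⟨rfl⟩
  rw [hind.nhds_eq_comap] at hU
  obtain ⟨O, hO, hOU⟩ := hU
  obtain ⟨O', hO', hO'1, hO'2⟩ := mem_nhds_iff.mp hO
  obtain ⟨I, u, hI1, hI2⟩ := isOpen_pi_iff.mp hO'1 _ hO'2
  refine ⟨I.sup (fun n => n), fun y hy => ?_⟩
  apply hOU
  apply hO'
  apply hI2
  intro n hn
  have h1 : n ≤ I.sup (fun n => n) := Finset.le_sup (f := fun n => n) hn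
  change y.1 n ∈ u n
  rw [eq_of_le h1 hy]
  exact (hI1 n hn).2

theorem continuous_proj_quot : Continuous (proj (F := F) (α := α)) := continuous_quot_mk

theorem proj_surjective : Function.Surjective (proj (F := F) (α := α)) := Quot.mk_surjective

theorem edge_symm {T : RTree} {x y : T.V} (h : T.Edge x y) : T.Edge y x := by
  rcases h with h | h
  · exact Or.inl h.symm
  · exact Or.inr h.symm

theorem limitEdge_trans (hF : IsFraisseSequence F α) {x y z : Limit F α} (hxy : LimitEdge x y)
    (hyz : LimitEdge y z) : LimitEdge x z := by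
  by_contra hxz
  unfold LimitEdge at hxz
  push Not at hxz
  obtain ⟨n, hn⟩ := hxz
  have h1 : (F n).G.Adj (y.1 n) (z.1 n) := by
    rcases hyz n with h | h
    · exfalso; apply hn; rw [← h]; exact hxy n
    · exact h
  have h2 : x.1 n ≠ y.1 n := by
    intro h; apply hn; rw [h]; exact hyz n
  have h3 : x.1 n ≠ z.1 n := fun h => hn (Or.inl h)
  let A : RTree := ⟨Option (F n).V, inferInstance, splitGraph (F n).G (y.1 n) (z.1 n),
    isTree_split (F n).isTree h1, some (F n).root⟩
  have hφ : SSC A (F n) (fun x : Option (F n).V => x.getD (y.1 n)) := by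
    have hid : SSC (F n) (F n) (SimpleGraph.Iso.refl (G := (F n).G)) := SSC.iso _ rfl
    have hst : Step A (F n) (fun x : Option (F n).V => x.getD (y.1 n)) :=
      Step.split (y.1 n) (z.1 n) h1 SimpleGraph.Iso.refl rfl (fun _ => rfl)
    exact SSC.step hid hst
  obtain ⟨k, ψ, hψ, hcomp⟩ := hF.extension n A _ hφ
  have hc : ∀ w : Limit F α, (ψ (w.1 (n + k))).getD (y.1 n) = w.1 n := by
    intro w
    rw [← bond_apply w n k, ← hcomp]
    rfl
  have hz : ψ (z.1 (n + k)) = some (z.1 n) := by
    have := hc z
    cases hψz : ψ (z.1 (n + k)) with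
    | none => rw [hψz] at this; exact absurd this h1.ne
    | some w => rw [hψz] at this; rw [← this]; rfl
  have hx : ψ (x.1 (n + k)) = some (x.1 n) := by
    have := hc x
    cases hψx : ψ (x.1 (n + k)) with
    | none => rw [hψx] at this; exact absurd this.symm h2
    | some w => rw [hψx] at this; rw [← this]; rfl
  have hyz' := hψ.good.edge _ _ (hyz (n + k))
  have hxy' := hψ.good.edge _ _ (hxy (n + k))
  rw [hz] at hyz'
  rw [hx] at hxy'
  have hy := hc y
  cases hψy : ψ (y.1 (n + k)) with
  | none =>
    rw [hψy] at hxy'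
    rcases hxy' with h | h
    · exact absurd h (by simp)
    · rcases h with h | h
      · exact h2 h
      · exact h3 h
  | some w =>
    rw [hψy] at hy hyz'
    have hw : w = y.1 n := hy
    subst hw
    rcases hyz' with h | h
    · rw [Option.some.injEq] at h
      exact h1.ne h
    · exact h.2 rfl

theorem proj_eq_iff (hF : IsFraisseSequence F α) {x y : Limit F α} :
    proj x = proj y ↔ LimitEdge x y := by
  constructor
  · intro h
    have h1 := Quot.eqvGen_exact h
    have heq : Equivalence (LimitEdge (F := F) (α := α)) :=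
      ⟨fun x n => Or.inl rfl, fun h n => edge_symm (h n), fun h h' => limitEdge_trans hF h h'⟩
    exact heq.eqvGen_iff.mp h1
  · intro h
    exact Quot.sound h

theorem isClosed_edge : IsClosed {p : Limit F α × Limit F α | LimitEdge p.1 p.2} := by
  have : {p : Limit F α × Limit F α | LimitEdge p.1 p.2} =
      ⋂ n, {p | (F n).Edge (p.1.1 n) (p.2.1 n)} := by
    ext p; simp only [LimitEdge, mem_ofPred_eq, mem_iInter]
  rw [this]
  refine isClosed_iInter fun n => ?_
  exact (isClosed_discrete {q : (F n).V × (F n).V | (F n).Edge q.1 q.2}).preimage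
    (((continuous_proj n).comp continuous_fst).prodMk ((continuous_proj n).comp continuous_snd))

theorem isClosed_image_proj (hF : IsFraisseSequence F α) {S : Set (Limit F α)}
    (hS : IsClosed S) : IsClosed (proj '' S) := by
  rw [← isOpen_compl_iff]
  change IsOpen (proj ⁻¹' (proj '' S)ᶜ)
  rw [preimage_compl, isOpen_compl_iff]
  have h1 : proj ⁻¹' (proj '' S) = Prod.snd '' {p : Limit F α × Limit F α |
      LimitEdge p.1 p.2 ∧ p.1 ∈ S} := by
    ext y
    constructor
    · rintro ⟨x, hx, hxy⟩
      exact ⟨(x, y), ⟨(proj_eq_iff hF).mp hxy, hx⟩, rfl⟩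
    · rintro ⟨⟨x, y'⟩, ⟨h1, h2⟩, rfl⟩
      exact ⟨x, h2, (proj_eq_iff hF).mpr h1⟩
  rw [h1]
  apply isClosedMap_snd_of_compactSpace
  exact isClosed_edge.inter (hS.preimage continuous_fst)

/-! ### The root -/

theorem rc_ball (T : RTree) : RC T {y | T.Edge T.root y} := by
  intro y hy
  rcases hy with rfl | hy
  · exact Relation.ReflTransGen.refl
  · exact Relation.ReflTransGen.single ⟨hy, Or.inr hy⟩

/-- The root of the limit. -/
def limitRoot (hF : IsFraisseSequence F α) : Limit F α :=
  ⟨fun n => (F n).root, fun n => (hF.bonding n).good.root⟩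

theorem cik_root (hF : IsFraisseSequence F α) : CIK (proj (limitRoot hF)) := by
  intro U hU
  obtain ⟨O, hOU, hO, hrO⟩ := mem_nhds_iff.mp hU
  let B : ℕ → Set (Limit F α) := fun n => {y | (F n).Edge (F n).root (y.1 n)}
  have hBclosed : ∀ n, IsClosed (B n) := fun n =>
    (isClosed_discrete {w : (F n).V | (F n).Edge (F n).root w}).preimage (continuous_proj n)
  have hBanti : ∀ m n, m ≤ n → B n ⊆ B m := by
    intro m n hmn y hy
    exact edge_of_le hF (x := limitRoot hF) hmn hy
  -- a small ball
  obtain ⟨n, hn⟩ : ∃ n, B n ⊆ proj ⁻¹' O := by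
    by_contra hcon
    push Not at hcon
    have hne : (⋂ n, (B n ∩ (proj ⁻¹' O)ᶜ)).Nonempty := by
      apply IsCompact.nonempty_iInter_of_directed_nonempty_isCompact_isClosed
      · intro m n
        refine ⟨max m n, ?_, ?_⟩
        · exact inter_subset_inter_left _ (hBanti _ _ (le_max_left _ _))
        · exact inter_subset_inter_left _ (hBanti _ _ (le_max_right _ _))
      · intro n
        obtain ⟨y, hy1, hy2⟩ := not_subset.mp (hcon n)
        exact ⟨y, hy1, hy2⟩
      · intro n
        exact ((hBclosed n).inter (hO.preimage continuous_proj_quot).isClosed_compl).isCompact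
      · intro n
        exact (hBclosed n).inter (hO.preimage continuous_proj_quot).isClosed_compl
    obtain ⟨y, hy⟩ := hne
    rw [mem_iInter] at hy
    apply (hy 0).2
    change proj y ∈ O
    have : proj y = proj (limitRoot hF) := by
      rw [proj_eq_iff hF]
      intro n
      exact edge_symm (hy n).1
    rw [this]
    exact hrO
  refine ⟨proj '' B n, ?_, ?_, ?_⟩
  · -- neighbourhood
    have hopen : IsOpen (proj '' (B n)ᶜ)ᶜ := by
      rw [isOpen_compl_iff]
      apply isClosed_image_proj hF
      rw [isClosed_compl_iff]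
      exact (isOpen_discrete {w : (F n).V | (F n).Edge (F n).root w}).preimage (continuous_proj n)
    refine mem_nhds_iff.mpr ⟨_, ?_, hopen, ?_⟩
    · intro k hk
      obtain ⟨y, rfl⟩ := proj_surjective k
      by_cases hy : y ∈ B n
      · exact ⟨y, hy, rfl⟩
      · exact absurd ⟨y, hy, rfl⟩ hk
    · rintro ⟨y, hy, hyr⟩
      exact hy (edge_symm ((proj_eq_iff hF).mp hyr n))
  · rintro _ ⟨y, hy, rfl⟩
    exact hOU (hn hy)
  · -- connectedness
    intro O1 O2 hO1 hO2 hcov h1 h2
    by_contra hcon
    let W1 : Set (Limit F α) := B n ∩ proj ⁻¹' O1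
    let W2 : Set (Limit F α) := B n ∩ proj ⁻¹' O2
    have hcovW : ∀ y ∈ B n, y ∈ W1 ∨ y ∈ W2 := by
      intro y hy
      rcases hcov ⟨y, hy, rfl⟩ with h | h
      · exact Or.inl ⟨hy, h⟩
      · exact Or.inr ⟨hy, h⟩
    have hdisj : ∀ y ∈ W1, y ∉ W2 := by
      rintro y ⟨hy, hy1⟩ ⟨_, hy2⟩
      exact hcon ⟨proj y, ⟨y, hy, rfl⟩, hy1, hy2⟩
    have hW1 : IsClosed W1 := by
      have : W1 = B n ∩ (proj ⁻¹' O2)ᶜ := by
        ext y
        constructor
        · intro hy; exact ⟨hy.1, fun h => hdisj y hy ⟨hy.1, h⟩⟩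
        · rintro ⟨hy, h⟩
          rcases hcovW y hy with h' | h'
          · exact h'
          · exact absurd h'.2 h
      rw [this]
      exact (hBclosed n).inter (hO2.preimage continuous_proj_quot).isClosed_compl
    have hW2 : IsClosed W2 := by
      have : W2 = B n ∩ (proj ⁻¹' O1)ᶜ := by
        ext y
        constructor
        · intro hy; exact ⟨hy.1, fun h => hdisj y ⟨hy.1, h⟩ hy⟩
        · rintro ⟨hy, h⟩
          rcases hcovW y hy with h' | h'
          · exact absurd h'.2 h
          · exact h'
      rw [this]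
      exact (hBclosed n).inter (hO1.preimage continuous_proj_quot).isClosed_compl
    have hW1ne : W1.Nonempty := by
      obtain ⟨_, ⟨y, hy, rfl⟩, hy1⟩ := h1
      exact ⟨y, hy, hy1⟩
    have hW2ne : W2.Nonempty := by
      obtain ⟨_, ⟨y, hy, rfl⟩, hy1⟩ := h2
      exact ⟨y, hy, hy1⟩
    -- adjacent pairs at all levels
    let P : ℕ → Set (Limit F α × Limit F α) := fun k =>
      {p | p.1 ∈ W1 ∧ p.2 ∈ W2 ∧ (F (n + k)).Edge (p.1.1 (n + k)) (p.2.1 (n + k))}
    have hPclosed : ∀ k, IsClosed (P k) := by
      intro k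
      refine (hW1.preimage continuous_fst).inter ((hW2.preimage continuous_snd).inter ?_)
      exact (isClosed_discrete {q : (F (n + k)).V × (F (n + k)).V |
        (F (n + k)).Edge q.1 q.2}).preimage
        (((continuous_proj (n + k)).comp continuous_fst).prodMk
          ((continuous_proj (n + k)).comp continuous_snd))
    have hPanti : ∀ j k, j ≤ k → P k ⊆ P j := by
      rintro j k hjk p ⟨h1, h2, h3⟩
      exact ⟨h1, h2, edge_of_le hF (by omega) h3⟩
    have hPne : ∀ k, (P k).Nonempty := by
      intro k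
      by_contra hP
      rw [not_nonempty_iff_eq_empty, eq_empty_iff_forall_notMem] at hP
      have hP' : ∀ y1 ∈ W1, ∀ y2 ∈ W2, ¬ (F (n + k)).Edge (y1.1 (n + k)) (y2.1 (n + k)) :=
        fun y1 hy1 y2 hy2 h => hP (y1, y2) ⟨hy1, hy2, h⟩
      have hrB : limitRoot hF ∈ B n := Or.inl rfl
      let Q : Set (F (n + k)).V := bond α n k ⁻¹' {w | (F n).Edge (F n).root w}
      have hQ : RC (F (n + k)) Q :=
        (good_bond hF n k).rc _ (Or.inl rfl) (rc_ball (F n))
      have hlift : ∀ w ∈ Q, ∃ y ∈ B n, y.1 (n + k) = w := by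
        intro w hw
        obtain ⟨y, hy⟩ := exists_lift hF (n + k) w
        refine ⟨y, ?_, hy⟩
        change (F n).Edge (F n).root (y.1 n)
        rw [← bond_apply y n k, hy]
        exact hw
      have hBQ : ∀ y ∈ B n, y.1 (n + k) ∈ Q := by
        intro y hy
        change (F n).Edge (F n).root (bond α n k (y.1 (n + k)))
        rw [bond_apply]
        exact hy
      -- the side of the root spreads
      have spread : ∀ X Y : Set (Limit F α), (∀ y ∈ B n, y ∈ X ∨ y ∈ Y) →
          (∀ y1 ∈ X, ∀ y2 ∈ Y, ¬ (F (n + k)).Edge (y1.1 (n + k)) (y2.1 (n + k))) →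
          Y ⊆ B n → limitRoot hF ∈ X → Y = ∅ := by
        intro X Y hXY hno hYB hrX
        have key : ∀ w, Relation.ReflTransGen
            (fun y z => (F (n + k)).G.Adj y z ∧ z ∈ Q) (F (n + k)).root w →
            ∃ y ∈ X, y.1 (n + k) = w := by
          intro w hw
          induction hw with
          | refl => exact ⟨limitRoot hF, hrX, rfl⟩
          | @tail y z _ hyz ih =>
            obtain ⟨y1, hy1, hy1'⟩ := ih
            obtain ⟨z1, hz1, hz1'⟩ := hlift z hyz.2
            rcases hXY z1 hz1 with h | h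
            · exact ⟨z1, h, hz1'⟩
            · exfalso
              apply hno y1 hy1 z1 h
              rw [hy1', hz1']
              exact Or.inr hyz.1
        rw [eq_empty_iff_forall_notMem]
        intro y hy
        obtain ⟨x, hx, hxy⟩ := key _ (hQ _ (hBQ y (hYB hy)))
        exact hno x hx y hy (Or.inl hxy)
      rcases hcovW _ hrB with hr | hr
      · have := spread W1 W2 hcovW hP' inter_subset_left hr
        rw [this] at hW2ne
        exact not_nonempty_empty hW2ne
      · have := spread W2 W1 (fun y hy => (hcovW y hy).symm)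
          (fun y1 hy1 y2 hy2 h => hP' y2 hy2 y1 hy1 (edge_symm h)) inter_subset_left hr
        rw [this] at hW1ne
        exact not_nonempty_empty hW1ne
    have hne : (⋂ k, P k).Nonempty := by
      apply IsCompact.nonempty_iInter_of_directed_nonempty_isCompact_isClosed
      · intro j k
        exact ⟨max j k, hPanti _ _ (le_max_left _ _), hPanti _ _ (le_max_right _ _)⟩
      · exact hPne
      · intro k; exact (hPclosed k).isCompact
      · exact hPclosed
    obtain ⟨⟨y1, y2⟩, hy⟩ := hne
    rw [mem_iInter] at hy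
    obtain ⟨hy1, hy2, _⟩ := hy 0
    have he : LimitEdge y1 y2 := by
      intro m
      exact edge_of_le hF (Nat.le_add_left m n) (hy m).2.2
    have heq : proj y1 = proj y2 := (proj_eq_iff hF).mpr he
    apply hcon
    refine ⟨proj y1, ⟨y1, hy1.1, rfl⟩, hy1.2, ?_⟩
    rw [heq]
    exact hy2.2

theorem not_cik (hF : IsFraisseSequence F α) (x : Limit F α)
    (hx : proj x ≠ proj (limitRoot hF)) : ¬ CIK (proj x) := by
  intro hcik
  obtain ⟨N, hN⟩ : ∃ N, ¬ (F N).Edge (x.1 N) (F N).root := by
    by_contra hcon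
    push Not at hcon
    exact hx ((proj_eq_iff hF).mpr hcon)
  let D : Set (Limit F α) := {y | y.1 N = (F N).root}
  have hD : IsClosed D := (isClosed_discrete {(F N).root}).preimage (continuous_proj N)
  have hU : (proj '' D)ᶜ ∈ 𝓝 (proj x) := by
    apply (isClosed_image_proj hF hD).isOpen_compl.mem_nhds
    rintro ⟨y, hy, hyx⟩
    apply hN
    have := (proj_eq_iff hF).mp hyx N
    rw [show y.1 N = (F N).root from hy] at this
    exact edge_symm this
  obtain ⟨K, hK, hKU, hKc⟩ := hcik _ hU
  obtain ⟨n0, hn0⟩ := mem_nhds_limit (continuous_proj_quot.continuousAt.preimage_mem_nhds hK)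
  obtain ⟨n, hn1, hn2⟩ : ∃ n, n0 ≤ n ∧ N ≤ n := ⟨max n0 N, le_max_left _ _, le_max_right _ _⟩
  have hxn : x.1 n ≠ (F n).root := by
    intro h
    apply hN
    have := eq_of_le (x := x) (y := limitRoot hF) hn2 h
    exact Or.inl this
  -- the tree with a copy
  let x' : {y : (F n).V | y ≠ (F n).root} := ⟨x.1 n, hxn⟩
  let C : Set (F n).V := Subtype.val '' (((F n).G.induce {y | y ≠ (F n).root}).connectedComponentMk x').supp
  have hC : IsComponent (F n).G (F n).root C := ⟨_, rfl⟩
  have hxC : x.1 n ∈ C := ⟨x', rfl, rfl⟩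
  let A : RTree := ⟨(F n).V ⊕ C, inferInstance, copyGraph (F n).G (F n).root C,
    isTree_copy (F n).isTree hC, Sum.inl (F n).root⟩
  have hφ : SSC A (F n) (fun x : (F n).V ⊕ C => Sum.elim id Subtype.val x) := by
    have hid : SSC (F n) (F n) (SimpleGraph.Iso.refl (G := (F n).G)) := SSC.iso _ rfl
    have hst : Step A (F n) (fun x : (F n).V ⊕ C => Sum.elim id Subtype.val x) :=
      Step.copy (F n).root C hC hC.notMem SimpleGraph.Iso.refl rfl (fun _ => rfl)
    exact SSC.step hid hst
  obtain ⟨k, ψ, hψ, hcomp⟩ := hF.extension n A _ hφ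
  have hc : ∀ w : Limit F α, Sum.elim id Subtype.val (ψ (w.1 (n + k))) = w.1 n := by
    intro w
    rw [← bond_apply w n k, ← hcomp]
    rfl
  -- points in both copies
  have hpt : ∀ a : (F n).V ⊕ C, Sum.elim id Subtype.val a = x.1 n →
      ∃ y : Limit F α, proj y ∈ K ∧ ψ (y.1 (n + k)) = a := by
    intro a ha
    obtain ⟨w, hw⟩ := hψ.good.surj a
    obtain ⟨y, hy⟩ := exists_lift hF (n + k) w
    have hya : ψ (y.1 (n + k)) = a := by rw [hy, hw]
    refine ⟨y, ?_, hya⟩
    apply hn0
    apply eq_of_le hn1
    rw [← hc y, hya, ha]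
  obtain ⟨y1, hy1K, hy1⟩ := hpt (Sum.inr ⟨x.1 n, hxC⟩) rfl
  obtain ⟨y2, hy2K, hy2⟩ := hpt (Sum.inl (x.1 n)) rfl
  let Z : Set (Limit F α) := {p | ∃ c, ψ (p.1 (n + k)) = Sum.inr c}
  have hZclopen : IsClosed Z ∧ IsClosed Zᶜ := by
    have hcont := continuous_proj (F := F) (α := α) (n + k)
    constructor
    · exact (isClosed_discrete {w : (F (n + k)).V | ∃ c, ψ w = Sum.inr c}).preimage hcont
    · exact (isClosed_discrete {w : (F (n + k)).V | ¬ ∃ c, ψ w = Sum.inr c}).preimage hcont
  -- in K, points do not have representatives on both sides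
  have hsep : ∀ p1 ∈ Z, ∀ p2 ∉ Z, proj p1 = proj p2 → proj p1 ∉ K := by
    rintro p1 ⟨c, hc1⟩ p2 hp2 heq hpK
    have he := hψ.good.edge _ _ ((proj_eq_iff hF).mp heq (n + k))
    rw [hc1] at he
    have hroot : ψ (p2.1 (n + k)) = Sum.inl (F n).root := by
      cases hq : ψ (p2.1 (n + k)) with
      | inl w =>
        rw [hq] at he
        rcases he with h | h
        · exact absurd h (by simp)
        · have h1 : w = (F n).root := h.1
          rw [h1]
      | inr c' => exact absurd ⟨c', hq⟩ hp2
    have h2 : p2.1 n = (F n).root := by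
      rw [← hc p2, hroot]
      rfl
    have h3 : p2 ∈ D := eq_of_le (x := p2) (y := limitRoot hF) hn2 h2
    apply hKU hpK
    exact ⟨p2, h3, heq.symm⟩
  obtain ⟨q, hqK, hq1, hq2⟩ := hKc (proj '' Zᶜ)ᶜ (proj '' Z)ᶜ
    (isClosed_image_proj hF hZclopen.2).isOpen_compl
    (isClosed_image_proj hF hZclopen.1).isOpen_compl
    (by
      intro q hq
      by_contra hcon
      rw [mem_union, not_or, mem_compl_iff, mem_compl_iff, not_not, not_not] at hcon
      obtain ⟨⟨p2, hp2, hp2q⟩, ⟨p1, hp1, hp1q⟩⟩ := hcon
      apply hsep p1 hp1 p2 hp2 (hp1q.trans hp2q.symm)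
      rw [hp1q]; exact hq)
    ⟨proj y1, hy1K, by
      rintro ⟨p2, hp2, h⟩
      exact hsep y1 ⟨_, hy1⟩ p2 hp2 h.symm hy1K⟩
    ⟨proj y2, hy2K, by
      rintro ⟨p1, hp1, h⟩
      refine hsep p1 hp1 y2 ?_ h (h ▸ hy2K)
      rintro ⟨c, hc'⟩
      rw [hy2] at hc'
      exact absurd hc' (by simp)⟩
  obtain ⟨p, rfl⟩ := proj_surjective q
  by_cases hp : p ∈ Z
  · exact hq2 ⟨p, hp, rfl⟩
  · exact hq1 ⟨p, hp, rfl⟩

end Limit

theorem CIK.map {X Y : Type} [TopologicalSpace X] [TopologicalSpace Y] {x : X} (h : CIK x)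
    (e : X ≃ₜ Y) : CIK (e x) := by
  intro U hU
  obtain ⟨K, hK, hKU, hKc⟩ := h (e ⁻¹' U) (e.continuous.continuousAt.preimage_mem_nhds hU)
  refine ⟨e '' K, ?_, ?_, hKc.image e e.continuous.continuousOn⟩
  · exact e.isOpenMap.image_mem_nhds hK
  · rintro _ ⟨y, hy, rfl⟩
    exact hKU hy

/-- The root `r` of the limit exists, its class is the unique point at which the realization is
connected im kleinen, and hence every homeomorphism fixes this point. -/
theorem main (F : ℕ → RTree) (α : ∀ n, (F (n + 1)).V → (F n).V)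
    (hF : IsFraisseSequence F α) :
    ∃ r : Limit F α, (∀ n, r.1 n = (F n).root) ∧
      (∀ x : Realization F α, CIK x ↔ x = proj r) ∧
      ∀ h : Realization F α ≃ₜ Realization F α, h (proj r) = proj r := by
  have h1 : ∀ x : Realization F α, CIK x ↔ x = proj (limitRoot hF) := by
    intro x
    constructor
    · intro hx
      obtain ⟨y, rfl⟩ := proj_surjective x
      by_contra hne
      exact not_cik hF y hne hx
    · rintro rfl
      exact cik_root hF
  exact ⟨limitRoot hF, fun _ => rfl, h1, fun h => (h1 _).mp (((h1 _).mpr rfl).map h)⟩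

end Pool.Agent.H61.TreeLimit
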